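import Mathlib

set_option autoImplicit false
open MeasureTheory Set Filter Topology Metric
open scoped ENNReal

namespace Pool.Agent.Q85.Bmo

variable {n : ℕ}

theorem vol_ball (c : Fin n → ℝ) {r : ℝ} (hr : 0 ≤ r) :
    volume (closedBall c r) = ENNReal.ofReal ((2 * r) ^ n) := by
  rw [Real.volume_pi_closedBall c hr]
  simp

theorem vol_ball_mul (c c' : Fin n → ℝ) {a r : ℝ} (ha : 0 ≤ a) (hr : 0 ≤ r) :
    volume (closedBall c (a * r)) = ENNReal.ofReal (a ^ n) * volume (closedBall c' r) := by
  rw [vol_ball c (mul_nonneg ha hr), vol_ball c' hr, ← ENNReal.ofReal_mul (by positivity), ← mul_pow]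
  congr 2; ring

theorem vol_pos (c : Fin n → ℝ) {r : ℝ} (hr : 0 < r) : 0 < volume (closedBall c r) := by
  rw [vol_ball c hr.le]; exact ENNReal.ofReal_pos.2 (by positivity)

theorem vol_ne_top (c : Fin n → ℝ) (r : ℝ) : volume (closedBall c r) ≠ ∞ :=
  (isCompact_closedBall c r).measure_lt_top.ne

/-- Vitali covering -/
theorem vitali (S A : Set (Fin n → ℝ)) (hA : MeasurableSet A)
    (y : (Fin n → ℝ) → (Fin n → ℝ)) (ρ : (Fin n → ℝ) → ℝ) {R : ℝ} {lam : ℝ} (hlam : 0 < lam)
    (h : ∀ x ∈ S, 0 < ρ x ∧ ρ x ≤ R ∧ x ∈ closedBall (y x) (ρ x) ∧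
      ENNReal.ofReal lam * volume (closedBall (y x) (ρ x)) ≤ volume (A ∩ closedBall (y x) (ρ x))) :
    volume S ≤ ENNReal.ofReal (5 ^ n / lam) * volume A := by
  obtain ⟨u, huS, hdisj, hcov⟩ := Vitali.exists_disjoint_subfamily_covering_enlargement_closedBall
    S y ρ R (fun a ha => (h a ha).2.1) 5 (by norm_num)
  have hcount : u.Countable := by
    refine hdisj.countable_of_nonempty_interior (fun i hi => ?_)
    refine ⟨y i, ?_⟩
    exact interior_mono ball_subset_closedBall (by rw [isOpen_ball.interior_eq]; exact mem_ball_self (h i (huS hi)).1)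
  have h1 : S ⊆ ⋃ b ∈ u, closedBall (y b) (5 * ρ b) := by
    intro x hx
    obtain ⟨b, hb, hsub⟩ := hcov x hx
    exact mem_biUnion hb (hsub (h x hx).2.2.1)
  have hterm : ∀ b ∈ u, volume (closedBall (y b) (5 * ρ b)) ≤ ENNReal.ofReal (5 ^ n / lam) * volume (A ∩ closedBall (y b) (ρ b)) := by
    intro b hb
    obtain ⟨hb0, _, _, hb3⟩ := h b (huS hb)
    rw [vol_ball_mul (y b) (y b) (by norm_num) hb0.le]
    have e : ENNReal.ofReal (5 ^ n) = ENNReal.ofReal (5 ^ n / lam) * ENNReal.ofReal lam := by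
      rw [← ENNReal.ofReal_mul (by positivity), div_mul_cancel₀ _ hlam.ne']
    rw [e, mul_assoc]
    gcongr
  calc volume S ≤ volume (⋃ b ∈ u, closedBall (y b) (5 * ρ b)) := measure_mono h1
    _ ≤ ∑' b : u, volume (closedBall (y b) (5 * ρ b)) := measure_biUnion_le _ hcount _
    _ ≤ ∑' b : u, ENNReal.ofReal (5 ^ n / lam) * volume (A ∩ closedBall (y b) (ρ b)) :=
        ENNReal.tsum_le_tsum (fun b => hterm b b.2)
    _ = ENNReal.ofReal (5 ^ n / lam) * ∑' b : u, volume (A ∩ closedBall (y b) (ρ b)) := ENNReal.tsum_mul_left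
    _ = ENNReal.ofReal (5 ^ n / lam) * volume (⋃ b ∈ u, A ∩ closedBall (y b) (ρ b)) := by
        rw [measure_biUnion hcount]
        · intro a ha b hb hab
          exact (hdisj ha hb hab).mono inter_subset_right inter_subset_right
        · intro b _; exact hA.inter measurableSet_closedBall
    _ ≤ ENNReal.ofReal (5 ^ n / lam) * volume A := by
        gcongr
        exact iUnion₂_subset (fun b _ => inter_subset_left)

/-! ### The maximal function of a set -/

/-- averages of the indicator function over centred cubes -/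
noncomputable def dens (A : Set (Fin n → ℝ)) (x : Fin n → ℝ) (r : ℝ) : ℝ :=
  volume.real (A ∩ closedBall x r) / (2 * r) ^ n

/-- the maximal function -/
noncomputable def Mf (A : Set (Fin n → ℝ)) (x : Fin n → ℝ) : ℝ := ⨆ r : Ioi (0 : ℝ), dens A x r

theorem real_inter_le (A : Set (Fin n → ℝ)) (x : Fin n → ℝ) {r : ℝ} (hr : 0 ≤ r) :
    volume.real (A ∩ closedBall x r) ≤ (2 * r) ^ n := by
  have h1 : volume.real (A ∩ closedBall x r) ≤ volume.real (closedBall x r) :=
    measureReal_mono inter_subset_right (vol_ne_top x r)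
  refine h1.trans (le_of_eq ?_)
  rw [measureReal_def, vol_ball x hr, ENNReal.toReal_ofReal (by positivity)]

theorem dens_le_one (A : Set (Fin n → ℝ)) (x : Fin n → ℝ) {r : ℝ} (hr : 0 < r) : dens A x r ≤ 1 := by
  unfold dens
  rw [div_le_one (by positivity)]
  exact real_inter_le A x hr.le

theorem bdd_dens (A : Set (Fin n → ℝ)) (x : Fin n → ℝ) : BddAbove (range fun r : Ioi (0 : ℝ) => dens A x r) :=
  ⟨1, by rintro _ ⟨r, rfl⟩; exact dens_le_one A x r.2⟩

theorem Mf_le_one (A : Set (Fin n → ℝ)) (x : Fin n → ℝ) : Mf A x ≤ 1 := by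
  have : Nonempty (Ioi (0 : ℝ)) := ⟨⟨1, mem_Ioi.2 one_pos⟩⟩
  exact ciSup_le fun r => dens_le_one A x r.2

theorem dens_le_Mf (A : Set (Fin n → ℝ)) (x : Fin n → ℝ) {r : ℝ} (hr : 0 < r) : dens A x r ≤ Mf A x :=
  le_ciSup (bdd_dens A x) ⟨r, hr⟩

theorem lt_Mf_iff (A : Set (Fin n → ℝ)) (x : Fin n → ℝ) (t : ℝ) :
    t < Mf A x ↔ ∃ r : ℝ, 0 < r ∧ t * (2 * r) ^ n < volume.real (A ∩ closedBall x r) := by
  have : Nonempty (Ioi (0 : ℝ)) := ⟨⟨1, mem_Ioi.2 one_pos⟩⟩
  unfold Mf
  rw [lt_ciSup_iff (bdd_dens A x)]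
  constructor
  · rintro ⟨⟨r, hr⟩, h⟩
    refine ⟨r, hr, ?_⟩
    unfold dens at h
    have hr' : (0 : ℝ) < r := hr
    rwa [lt_div_iff₀ (by positivity)] at h
  · rintro ⟨r, hr, h⟩
    refine ⟨⟨r, hr⟩, ?_⟩
    unfold dens
    rwa [lt_div_iff₀ (by positivity)]

theorem lsc_Mf (A : Set (Fin n → ℝ)) : LowerSemicontinuous (Mf A) := by
  intro x t ht0
  have ht : t < Mf A x := ht0
  rw [lt_Mf_iff] at ht
  obtain ⟨r, hr, h⟩ := ht
  -- enlarge the radius
  have hc : Tendsto (fun s : ℝ => t * (2 * (r + s)) ^ n) (𝓝[>] 0) (𝓝 (t * (2 * (r + 0)) ^ n)) := by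
    have : Continuous (fun s : ℝ => t * (2 * (r + s)) ^ n) := by fun_prop
    exact (this.tendsto 0).mono_left nhdsWithin_le_nhds
  rw [add_zero] at hc
  obtain ⟨s, hs, hs0⟩ := ((hc.eventually (gt_mem_nhds h)).and self_mem_nhdsWithin).exists
  have hs0' : (0 : ℝ) < s := hs0
  filter_upwards [ball_mem_nhds x hs0'] with y hy
  show t < Mf A y
  rw [lt_Mf_iff]
  refine ⟨r + s, by linarith, lt_of_lt_of_le hs ?_⟩
  refine measureReal_mono ?_ ((measure_mono inter_subset_right).trans_lt (vol_ne_top y (r + s)).lt_top).ne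
  refine inter_subset_inter_right _ (closedBall_subset_closedBall' ?_)
  rw [mem_ball, dist_comm] at hy
  linarith

theorem ofReal_real_inter (A : Set (Fin n → ℝ)) (x : Fin n → ℝ) (r : ℝ) :
    ENNReal.ofReal (volume.real (A ∩ closedBall x r)) = volume (A ∩ closedBall x r) := by
  rw [measureReal_def, ENNReal.ofReal_toReal]
  exact ((measure_mono inter_subset_right).trans_lt (vol_ne_top x r).lt_top).ne

/-- weak type inequality -/
theorem weak (hn : 1 ≤ n) {A : Set (Fin n → ℝ)} (hA : MeasurableSet A) (hA2 : volume A ≠ ∞) {t : ℝ} (ht : 0 < t) :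
    volume {x | t < Mf A x} ≤ ENNReal.ofReal (5 ^ n / t) * volume A := by
  classical
  have hex : ∀ x : Fin n → ℝ, ∃ r : ℝ, t < Mf A x → (0 < r ∧ t * (2 * r) ^ n < volume.real (A ∩ closedBall x r)) := by
    intro x
    by_cases h : t < Mf A x
    · obtain ⟨r, hr⟩ := (lt_Mf_iff A x t).1 h
      exact ⟨r, fun _ => hr⟩
    · exact ⟨1, fun h' => absurd h' h⟩
  choose ρ hρ using hex
  refine vitali {x | t < Mf A x} A hA id ρ (R := max 1 (volume.real A / t)) ht (fun x hx => ?_)
  obtain ⟨h1, h2⟩ := hρ x hx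
  refine ⟨h1, ?_, ?_, ?_⟩
  · have h3 : volume.real (A ∩ closedBall x (ρ x)) ≤ volume.real A := measureReal_mono inter_subset_left hA2
    rcases le_total (2 * ρ x) 1 with h4 | h4
    · exact le_max_of_le_left (by linarith)
    · refine le_max_of_le_right ?_
      rw [le_div_iff₀ ht]
      have h5 : 2 * ρ x ≤ (2 * ρ x) ^ n := le_self_pow₀ h4 (by omega)
      nlinarith
  · exact (mem_closedBall_self h1.le : x ∈ closedBall x (ρ x))
  · simp only [id]
    rw [← ofReal_real_inter, vol_ball x h1.le, ← ENNReal.ofReal_mul ht.le]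
    exact ENNReal.ofReal_le_ofReal h2.le

/-! ### The logarithm of the maximal function has bounded mean oscillation -/

/-- the truncated maximal function -/
noncomputable def hh (A : Set (Fin n → ℝ)) (ε : ℝ) (x : Fin n → ℝ) : ℝ := max ε (Mf A x)

theorem hh_measurable (A : Set (Fin n → ℝ)) (ε : ℝ) : Measurable (hh A ε) :=
  measurable_const.max (lsc_Mf A).measurable

theorem eps_le_hh (A : Set (Fin n → ℝ)) (ε : ℝ) (x : Fin n → ℝ) : ε ≤ hh A ε x := le_max_left _ _

theorem hh_le_one (A : Set (Fin n → ℝ)) {ε : ℝ} (hε : ε ≤ 1) (x : Fin n → ℝ) : hh A ε x ≤ 1 :=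
  max_le hε (Mf_le_one A x)

theorem level (hn : 1 ≤ n) {A : Set (Fin n → ℝ)} (hA : MeasurableSet A) {ε : ℝ} (hε : 0 < ε)
    (z : Fin n → ℝ) {R : ℝ} (hR : 0 < R) {m : ℝ} (hm : IsGLB (hh A ε '' closedBall z R) m) {s : ℝ} (hs : 0 ≤ s) :
    volume (closedBall z R ∩ {x | m * Real.exp s < hh A ε x})
      ≤ ENNReal.ofReal (15 ^ n * Real.exp (-s)) * volume (closedBall z R) := by
  have hmε : ε ≤ m := hm.2 (by rintro _ ⟨x, _, rfl⟩; exact eps_le_hh A ε x)
  have hm0 : 0 < m := hε.trans_le hmε
  set lam := Real.exp s with hlam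
  have hlam1 : 1 ≤ lam := Real.one_le_exp hs
  have hlam0 : 0 < lam := by linarith
  rcases lt_or_ge lam (3 ^ n) with h3 | h3
  · -- trivial bound
    have h4 : 1 ≤ 15 ^ n * Real.exp (-s) := by
      rw [Real.exp_neg, ← div_eq_mul_inv, one_le_div hlam0]
      have : (3 : ℝ) ^ n ≤ 15 ^ n := by gcongr; norm_num
      linarith
    calc volume (closedBall z R ∩ {x | m * lam < hh A ε x}) ≤ 1 * volume (closedBall z R) := by
          rw [one_mul]; exact measure_mono inter_subset_left
      _ ≤ _ := by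
          gcongr
          rw [← ENNReal.ofReal_one]
          exact ENNReal.ofReal_le_ofReal h4
  · set A' := A ∩ closedBall z (2 * R) with hA'
    have hA'm : MeasurableSet A' := hA.inter measurableSet_closedBall
    have hA'fin : volume A' ≠ ∞ := ((measure_mono inter_subset_right).trans_lt (vol_ne_top z (2 * R)).lt_top).ne
    -- the level set is contained in a level set of the maximal function of `A'`
    have hsub : closedBall z R ∩ {x | m * lam < hh A ε x} ⊆ {x | m * lam < Mf A' x} := by
      rintro x ⟨hxB, hx⟩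
      have hx' : m * lam < Mf A x := by
        have hx2 : m * lam < max ε (Mf A x) := hx
        rcases lt_max_iff.1 hx2 with h | h
        · nlinarith
        · exact h
      obtain ⟨r, hr, h⟩ := (lt_Mf_iff A x _).1 hx'
      have hrR : r < R := by
        by_contra hcon
        push Not at hcon
        have h5 : ∀ y ∈ closedBall z R, dens A x r / 3 ^ n ≤ hh A ε y := by
          intro y hy
          refine le_trans ?_ ((dens_le_Mf A y (show 0 < 3 * r by linarith)).trans (le_max_right _ _))
          unfold dens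
          have h6 : volume.real (A ∩ closedBall x r) ≤ volume.real (A ∩ closedBall y (3 * r)) := by
            refine measureReal_mono ?_ ((measure_mono inter_subset_right).trans_lt (vol_ne_top y (3 * r)).lt_top).ne
            refine inter_subset_inter_right _ (closedBall_subset_closedBall' ?_)
            have : dist x y ≤ 2 * R := by
              have h7 := dist_triangle x z y
              rw [mem_closedBall] at hxB hy
              rw [dist_comm z y] at h7
              linarith
            linarith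
          rw [div_div, show (2 * (3 * r)) ^ n = (2 * r) ^ n * 3 ^ n by rw [← mul_pow]; ring]
          gcongr
        have h8 : dens A x r / 3 ^ n ≤ m := hm.2 (by rintro _ ⟨y, hy, rfl⟩; exact h5 y hy)
        rw [div_le_iff₀ (by positivity)] at h8
        unfold dens at h8
        rw [div_le_iff₀ (by positivity)] at h8
        have h9 : m * 3 ^ n ≤ m * lam := by gcongr
        have h10 : m * 3 ^ n * (2 * r) ^ n ≤ m * lam * (2 * r) ^ n := by gcongr
        linarith
      rw [mem_ofPred_eq, lt_Mf_iff]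
      refine ⟨r, hr, lt_of_lt_of_le h ?_⟩
      refine measureReal_mono ?_ ((measure_mono inter_subset_right).trans_lt (vol_ne_top x r).lt_top).ne
      rintro y ⟨hyA, hyr⟩
      refine ⟨⟨hyA, ?_⟩, hyr⟩
      rw [mem_closedBall] at hyr hxB ⊢
      have := dist_triangle y x z
      linarith
    -- the measure of `A'`
    have hA'vol : volume A' ≤ ENNReal.ofReal (3 ^ n * m) * volume (closedBall z R) := by
      rw [hA', ← ofReal_real_inter, vol_ball z hR.le, ← ENNReal.ofReal_mul (by positivity)]
      refine ENNReal.ofReal_le_ofReal ?_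
      have h5 : volume.real (A ∩ closedBall z (2 * R)) / (2 * (3 * R)) ^ n ≤ m := by
        refine hm.2 ?_
        rintro _ ⟨y, hy, rfl⟩
        refine le_trans ?_ ((dens_le_Mf A y (show 0 < 3 * R by linarith)).trans (le_max_right _ _))
        unfold dens
        have h6 : volume.real (A ∩ closedBall z (2 * R)) ≤ volume.real (A ∩ closedBall y (3 * R)) := by
          refine measureReal_mono ?_ ((measure_mono inter_subset_right).trans_lt (vol_ne_top y (3 * R)).lt_top).ne
          refine inter_subset_inter_right _ (closedBall_subset_closedBall' ?_)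
          rw [mem_closedBall, dist_comm] at hy
          linarith
        gcongr
      rw [div_le_iff₀ (by positivity)] at h5
      refine h5.trans (le_of_eq ?_)
      rw [show (2 * (3 * R)) ^ n = (2 * R) ^ n * 3 ^ n by rw [← mul_pow]; ring]
      ring
    calc volume (closedBall z R ∩ {x | m * lam < hh A ε x}) ≤ volume {x | m * lam < Mf A' x} := measure_mono hsub
      _ ≤ ENNReal.ofReal (5 ^ n / (m * lam)) * volume A' := weak hn hA'm hA'fin (by positivity)
      _ ≤ ENNReal.ofReal (5 ^ n / (m * lam)) * (ENNReal.ofReal (3 ^ n * m) * volume (closedBall z R)) := by gcongr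
      _ = ENNReal.ofReal (15 ^ n * Real.exp (-s)) * volume (closedBall z R) := by
          rw [← mul_assoc, ← ENNReal.ofReal_mul (by positivity)]
          congr 2
          rw [Real.exp_neg, show (15 : ℝ) ^ n = 5 ^ n * 3 ^ n by rw [← mul_pow]; norm_num]
          field_simp
          exact hlam.symm

/-- integration of exponentially decaying level sets -/
theorem layer {B : Set (Fin n → ℝ)} {F : (Fin n → ℝ) → ℝ} (hF : Measurable F)
    (hF0 : ∀ x ∈ B, 0 ≤ F x) (hB : MeasurableSet B) {C : ℝ} (hC : 0 ≤ C)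
    (h : ∀ s : ℝ, 0 ≤ s → volume (B ∩ {x | s < F x}) ≤ ENNReal.ofReal (C * Real.exp (-s)) * volume B) :
    ∫⁻ x in B, ENNReal.ofReal (F x) ≤ ENNReal.ofReal C * volume B := by
  rw [lintegral_eq_lintegral_meas_lt (volume.restrict B)
    ((ae_restrict_iff' hB).2 (Filter.Eventually.of_forall hF0)) hF.aemeasurable]
  have h1 : ∀ t ∈ Ioi (0 : ℝ), (volume.restrict B) {a | t < F a} ≤ ENNReal.ofReal (C * Real.exp (-t)) * volume B := by
    intro t ht
    rw [Measure.restrict_apply (measurableSet_lt measurable_const hF), inter_comm]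
    exact h t (le_of_lt ht)
  calc ∫⁻ t in Ioi (0 : ℝ), (volume.restrict B) {a | t < F a}
      ≤ ∫⁻ t in Ioi (0 : ℝ), ENNReal.ofReal (C * Real.exp (-t)) * volume B :=
        setLIntegral_mono' measurableSet_Ioi h1
    _ = (∫⁻ t in Ioi (0 : ℝ), ENNReal.ofReal (C * Real.exp (-t))) * volume B := by
        rw [lintegral_mul_const _ (by fun_prop)]
    _ = ENNReal.ofReal C * volume B := by
        congr 1
        rw [← ofReal_integral_eq_lintegral_ofReal ((integrableOn_exp_neg_Ioi 0).const_mul C)
          (Filter.Eventually.of_forall fun t => by positivity), integral_const_mul, integral_exp_neg_Ioi_zero, mul_one]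

theorem log_int (hn : 1 ≤ n) {A : Set (Fin n → ℝ)} (hA : MeasurableSet A) {ε : ℝ} (hε : 0 < ε)
    (z : Fin n → ℝ) {R : ℝ} (hR : 0 < R) : ∃ m : ℝ,
    ∫⁻ x in closedBall z R, ENNReal.ofReal |Real.log (hh A ε x) - m| ≤ ENNReal.ofReal (15 ^ n) * volume (closedBall z R) := by
  set m := sInf (hh A ε '' closedBall z R) with hm
  have hne : (hh A ε '' closedBall z R).Nonempty := ⟨_, ⟨z, mem_closedBall_self hR.le, rfl⟩⟩
  have hbd : BddBelow (hh A ε '' closedBall z R) := ⟨ε, by rintro _ ⟨x, _, rfl⟩; exact eps_le_hh A ε x⟩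
  have hglb : IsGLB (hh A ε '' closedBall z R) m := isGLB_csInf hne hbd
  have hmε : ε ≤ m := hglb.2 (by rintro _ ⟨x, _, rfl⟩; exact eps_le_hh A ε x)
  have hm0 : 0 < m := hε.trans_le hmε
  refine ⟨Real.log m, ?_⟩
  have hge : ∀ x ∈ closedBall z R, 0 ≤ Real.log (hh A ε x) - Real.log m := by
    intro x hx
    have h1 : m ≤ hh A ε x := hglb.1 ⟨x, hx, rfl⟩
    exact sub_nonneg.2 (Real.log_le_log hm0 h1)
  have h1 : ∫⁻ x in closedBall z R, ENNReal.ofReal |Real.log (hh A ε x) - Real.log m|
      = ∫⁻ x in closedBall z R, ENNReal.ofReal (Real.log (hh A ε x) - Real.log m) := by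
    refine setLIntegral_congr_fun measurableSet_closedBall (fun x hx => ?_)
    simp only [abs_of_nonneg (hge x hx)]
  rw [h1]
  refine layer ((Real.measurable_log.comp (hh_measurable A ε)).sub_const _) hge measurableSet_closedBall (by positivity) ?_
  intro s hs
  refine le_trans (measure_mono (inter_subset_inter_right _ ?_)) (level hn hA hε z hR hglb hs)
  intro x hx
  have hx' : s < Real.log (hh A ε x) - Real.log m := hx
  have hpos : 0 < hh A ε x := hε.trans_le (eps_le_hh A ε x)
  show m * Real.exp s < hh A ε x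
  rw [← Real.exp_log hm0, ← Real.exp_add, ← Real.lt_log_iff_exp_lt hpos]
  linarith

/-- the average over the cube containing the small set -/
theorem log_avg (hn : 1 ≤ n) {A : Set (Fin n → ℝ)} (hA : MeasurableSet A) {ε : ℝ} (hε : 0 < ε)
    (z : Fin n → ℝ) {R : ℝ} (hAvol : volume A ≤ ENNReal.ofReal ε * volume (closedBall z R)) :
    ∫⁻ x in closedBall z R, ENNReal.ofReal (Real.log (hh A ε x) - Real.log ε) ≤ ENNReal.ofReal (5 ^ n) * volume (closedBall z R) := by
  have hAfin : volume A ≠ ∞ :=
    (hAvol.trans_lt (ENNReal.mul_lt_top ENNReal.ofReal_lt_top (vol_ne_top z R).lt_top)).ne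
  refine layer ((Real.measurable_log.comp (hh_measurable A ε)).sub_const _)
    (fun x _ => sub_nonneg.2 (Real.log_le_log hε (eps_le_hh A ε x))) measurableSet_closedBall (by positivity) ?_
  intro s hs
  have hes : 1 ≤ Real.exp s := Real.one_le_exp hs
  have hsub : closedBall z R ∩ {x | s < Real.log (hh A ε x) - Real.log ε} ⊆ {x | ε * Real.exp s < Mf A x} := by
    rintro x ⟨_, hx⟩
    have hx' : s < Real.log (hh A ε x) - Real.log ε := hx
    have hpos : 0 < hh A ε x := hε.trans_le (eps_le_hh A ε x)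
    have h1 : ε * Real.exp s < hh A ε x := by
      nth_rewrite 1 [← Real.exp_log hε]
      rw [← Real.exp_add, ← Real.lt_log_iff_exp_lt hpos]
      linarith
    rcases lt_max_iff.1 h1 with h | h
    · nlinarith
    · exact h
  calc volume (closedBall z R ∩ {x | s < Real.log (hh A ε x) - Real.log ε})
      ≤ volume {x | ε * Real.exp s < Mf A x} := measure_mono hsub
    _ ≤ ENNReal.ofReal (5 ^ n / (ε * Real.exp s)) * volume A := weak hn hA hAfin (by positivity)
    _ ≤ ENNReal.ofReal (5 ^ n / (ε * Real.exp s)) * (ENNReal.ofReal ε * volume (closedBall z R)) := by gcongr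
    _ = ENNReal.ofReal (5 ^ n * Real.exp (-s)) * volume (closedBall z R) := by
        rw [← mul_assoc, ← ENNReal.ofReal_mul (by positivity)]
        congr 2
        rw [Real.exp_neg]
        field_simp

theorem hh_eq_one {A : Set (Fin n → ℝ)} {ε : ℝ} (hε : ε ≤ 1) : ∀ᵐ x ∂(volume.restrict A), hh A ε x = 1 := by
  filter_upwards [Besicovitch.ae_tendsto_measure_inter_div (volume : Measure (Fin n → ℝ)) A] with x hx
  refine le_antisymm (hh_le_one A hε x) ?_
  refine le_trans ?_ (le_max_right _ _)
  have h1 : Tendsto (fun r => (volume (A ∩ closedBall x r) / volume (closedBall x r)).toReal) (𝓝[>] 0) (𝓝 1) := by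
    have := (ENNReal.tendsto_toReal ENNReal.one_ne_top).comp hx
    rw [ENNReal.toReal_one] at this
    exact this
  refine le_of_tendsto h1 ?_
  filter_upwards [self_mem_nhdsWithin] with r hr
  have hr' : (0 : ℝ) < r := hr
  refine le_trans (le_of_eq ?_) (dens_le_Mf A x hr')
  unfold dens
  rw [ENNReal.toReal_div, vol_ball x hr'.le, ENNReal.toReal_ofReal (by positivity), measureReal_def]

end Pool.Agent.Q85.Bmo
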