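import Pool.Agent.Q85.Bmo1

set_option autoImplicit false
open MeasureTheory Set Filter Topology Metric
open scoped ENNReal

namespace Pool.Agent.Q85.Bmo

variable {n : ℕ}

theorem sub_ball (x z : Fin n → ℝ) {R s : ℝ} (_hs : 0 < s) (hs1 : s ≤ 1) (hx : x ∈ closedBall z R) :
    closedBall (x + s • (z - x)) (s * R) ⊆ closedBall z R := by
  apply closedBall_subset_closedBall'
  have h1 : dist (x + s • (z - x)) z = (1 - s) * dist x z := by
    rw [dist_eq_norm, dist_eq_norm, show x + s • (z - x) - z = (1 - s) • (x - z) by module, norm_smul,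
      Real.norm_eq_abs, abs_of_nonneg (by linarith)]
  rw [h1]
  rw [mem_closedBall] at hx
  nlinarith

theorem mem_sub_ball (x z : Fin n → ℝ) {R s : ℝ} (hs : 0 < s) (hx : x ∈ closedBall z R) :
    x ∈ closedBall (x + s • (z - x)) (s * R) := by
  rw [mem_closedBall, dist_eq_norm, show x - (x + s • (z - x)) = s • (x - z) by module, norm_smul,
    Real.norm_eq_abs, abs_of_pos hs, ← dist_eq_norm]
  rw [mem_closedBall] at hx
  gcongr

/-- averages over moving cubes are continuous -/
theorem cont_avg {f : (Fin n → ℝ) → ℝ} (hf : LocallyIntegrable f) (x z : Fin n → ℝ) {R : ℝ} (hR : 0 < R)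
    (hx : x ∈ closedBall z R) :
    ContinuousOn (fun s : ℝ => ⨍ y in closedBall (x + s • (z - x)) (s * R), f y) (Ioc 0 1) := by
  intro s0 hs0
  have h1 : ContinuousWithinAt (fun s : ℝ => ∫ y, (closedBall (x + s • (z - x)) (s * R)).indicator f y) (Ioc 0 1) s0 := by
    refine continuousWithinAt_of_dominated (bound := (closedBall z R).indicator (fun y => ‖f y‖)) ?_ ?_ ?_ ?_
    · exact Eventually.of_forall fun s => hf.aestronglyMeasurable.indicator measurableSet_closedBall
    · filter_upwards [self_mem_nhdsWithin] with s hs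
      refine Eventually.of_forall fun y => ?_
      rw [norm_indicator_eq_indicator_norm]
      exact indicator_le_indicator_of_subset (sub_ball x z hs.1 hs.2 hx) (fun y => norm_nonneg _) y
    · exact IntegrableOn.integrable_indicator (f := fun y => ‖f y‖)
        (Integrable.norm (hf.integrableOn_isCompact (isCompact_closedBall z R))) measurableSet_closedBall
    · have hs : volume (sphere (x + s0 • (z - x)) (s0 * R)) = 0 :=
        Measure.addHaar_sphere_of_ne_zero _ _ (mul_pos hs0.1 hR).ne'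
      have hs' : ∀ᵐ y : Fin n → ℝ, y ∉ sphere (x + s0 • (z - x)) (s0 * R) := measure_eq_zero_iff_ae_notMem.1 hs
      filter_upwards [hs'] with y hy
      have hc1 : ContinuousAt (fun s : ℝ => dist y (x + s • (z - x)) - s * R) s0 := by fun_prop
      have hne : dist y (x + s0 • (z - x)) - s0 * R ≠ 0 := by
        intro h; exact hy (by rw [mem_sphere]; linarith)
      refine ContinuousAt.continuousWithinAt ?_
      rcases lt_or_gt_of_ne hne with hlt | hgt
      · have he : ∀ᶠ s in 𝓝 s0, dist y (x + s • (z - x)) - s * R < 0 := hc1.eventually (gt_mem_nhds hlt)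
        refine (continuousAt_const (y := f y)).congr ?_
        filter_upwards [he] with s hs
        rw [indicator_of_mem]
        rw [mem_closedBall]; linarith
      · have he : ∀ᶠ s in 𝓝 s0, 0 < dist y (x + s • (z - x)) - s * R := hc1.eventually (lt_mem_nhds hgt)
        refine (continuousAt_const (y := (0 : ℝ))).congr ?_
        filter_upwards [he] with s hs
        rw [indicator_of_notMem]
        rw [mem_closedBall]; linarith
  have h2 : ContinuousWithinAt (fun s : ℝ => ((2 * (s * R)) ^ n)⁻¹ *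
      ∫ y, (closedBall (x + s • (z - x)) (s * R)).indicator f y) (Ioc 0 1) s0 := by
    refine ContinuousWithinAt.mul ?_ h1
    refine ContinuousAt.continuousWithinAt ?_
    have h3 : (2 * (s0 * R)) ^ n ≠ 0 := (pow_pos (mul_pos two_pos (mul_pos hs0.1 hR)) n).ne'
    have h4 : ContinuousAt (fun s : ℝ => (2 * (s * R)) ^ n) s0 := by fun_prop
    exact h4.inv₀ h3
  have key : ∀ s : ℝ, s ∈ Ioc (0 : ℝ) 1 → (⨍ y in closedBall (x + s • (z - x)) (s * R), f y) =
      ((2 * (s * R)) ^ n)⁻¹ * ∫ y, (closedBall (x + s • (z - x)) (s * R)).indicator f y := by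
    intro s hs
    rw [setAverage_eq, measureReal_def, vol_ball _ (mul_pos hs.1 hR).le,
      ENNReal.toReal_ofReal (pow_nonneg (mul_nonneg two_pos.le (mul_pos hs.1 hR).le) n),
      integral_indicator measurableSet_closedBall, smul_eq_mul]
  exact h2.congr key (key s0 hs0)

theorem crossing {f : (Fin n → ℝ) → ℝ} (hf : LocallyIntegrable f) (z : Fin n → ℝ) {R : ℝ} (hR : 0 < R) :
    ∀ᵐ x : Fin n → ℝ, x ∈ closedBall z R → ∀ l : ℝ, (⨍ y in closedBall z R, f y) ≤ l → l < f x →
      ∃ c : Fin n → ℝ, ∃ r : ℝ, 0 < r ∧ r ≤ R ∧ x ∈ closedBall c r ∧ closedBall c r ⊆ closedBall z R ∧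
        (⨍ y in closedBall c r, f y) = l := by
  filter_upwards [IsUnifLocDoublingMeasure.ae_tendsto_average volume hf 1] with x hx hxB l h1 h2
  have lim : Tendsto (fun s : ℝ => ⨍ y in closedBall (x + s • (z - x)) (s * R), f y) (𝓝[>] 0) (𝓝 (f x)) := by
    refine hx (fun s : ℝ => x + s • (z - x)) (fun s : ℝ => s * R) ?_ ?_
    · rw [tendsto_nhdsWithin_iff]
      constructor
      · have : Tendsto (fun s : ℝ => s * R) (𝓝 0) (𝓝 (0 * R)) := (continuous_id.mul continuous_const).tendsto 0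
        rw [zero_mul] at this
        exact this.mono_left nhdsWithin_le_nhds
      · filter_upwards [self_mem_nhdsWithin] with s hs
        exact mul_pos hs hR
    · filter_upwards [self_mem_nhdsWithin] with s hs
      rw [one_mul]
      exact mem_sub_ball x z hs hxB
  have e1 : ∀ᶠ s : ℝ in 𝓝[>] 0, s < 1 := nhdsWithin_le_nhds (gt_mem_nhds one_pos)
  obtain ⟨s0, ⟨hs1, hs2⟩, hs3⟩ := ((((lim.eventually (lt_mem_nhds h2))).and e1).and self_mem_nhdsWithin).exists
  have hs3' : (0 : ℝ) < s0 := hs3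
  have hcont : ContinuousOn (fun s : ℝ => ⨍ y in closedBall (x + s • (z - x)) (s * R), f y) (Icc s0 1) :=
    (cont_avg hf x z hR hxB).mono (fun s hs => ⟨lt_of_lt_of_le hs3' hs.1, hs.2⟩)
  have hiv := intermediate_value_Icc' hs2.le hcont
  have hmem : l ∈ Icc (⨍ y in closedBall (x + (1 : ℝ) • (z - x)) (1 * R), f y)
      (⨍ y in closedBall (x + s0 • (z - x)) (s0 * R), f y) := by
    refine ⟨?_, hs1.le⟩
    rw [one_smul, one_mul, add_sub_cancel]
    exact h1
  obtain ⟨s, hs, hsl⟩ := hiv hmem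
  have hs4 : 0 < s := lt_of_lt_of_le hs3' hs.1
  refine ⟨x + s • (z - x), s * R, mul_pos hs4 hR, ?_, mem_sub_ball x z hs4 hxB, sub_ball x z hs4 hs.2 hxB, hsl⟩
  have := hs.2
  nlinarith

theorem jump {f : (Fin n → ℝ) → ℝ} (hf : LocallyIntegrable f) (hm : Measurable f) {L ε : ℝ} (hε : 0 < ε)
    (H : ∀ (c : Fin n → ℝ) (r : ℝ), 0 < r → ENNReal.ofReal ε * volume (closedBall c r) ≤
      volume (closedBall c r ∩ {x | |f x - ⨍ y in closedBall c r, f y| ≤ L}))
    (z : Fin n → ℝ) {R : ℝ} (hR : 0 < R) {l l' : ℝ} (h0 : (⨍ y in closedBall z R, f y) ≤ l) (hll : l ≤ l') :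
    volume (closedBall z R ∩ {x | l' < f x}) ≤
      ENNReal.ofReal (5 ^ n / ε) * volume (closedBall z R ∩ {x | |f x - l| ≤ L}) := by
  classical
  set S : Set (Fin n → ℝ) := {x | ∃ c : Fin n → ℝ, ∃ r : ℝ, 0 < r ∧ r ≤ R ∧ x ∈ closedBall c r ∧ closedBall c r ⊆ closedBall z R ∧
        (⨍ y in closedBall c r, f y) = l} with hS
  have h1 : volume (closedBall z R ∩ {x | l' < f x}) ≤ volume S := by
    refine measure_mono_ae ?_
    filter_upwards [crossing hf z hR] with x hx hx2
    have h3 : l' < f x := hx2.2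
    exact hx hx2.1 l h0 (lt_of_le_of_lt hll h3)
  refine h1.trans ?_
  have hex : ∀ x : Fin n → ℝ, ∃ c : Fin n → ℝ, ∃ r : ℝ, x ∈ S → (0 < r ∧ r ≤ R ∧ x ∈ closedBall c r ∧ closedBall c r ⊆ closedBall z R ∧
        (⨍ y in closedBall c r, f y) = l) := by
    intro x
    by_cases hx : x ∈ S
    · obtain ⟨c, r, h⟩ := hx
      exact ⟨c, r, fun _ => h⟩
    · exact ⟨0, 0, fun h => absurd h hx⟩
  choose c r hcr using hex
  have hAm : MeasurableSet (closedBall z R ∩ {x | |f x - l| ≤ L}) :=
    measurableSet_closedBall.inter (measurableSet_le (hm.sub_const l).abs measurable_const)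
  refine vitali S _ hAm c r (R := R) hε (fun x hx => ?_)
  obtain ⟨a1, a2, a3, a4, a5⟩ := hcr x hx
  refine ⟨a1, a2, a3, (H (c x) (r x) a1).trans (measure_mono ?_)⟩
  rintro y ⟨hy1, hy2⟩
  have hy2' : |f y - ⨍ y in closedBall (c x) (r x), f y| ≤ L := hy2
  rw [a5] at hy2'
  exact ⟨⟨a4 hy1, hy2'⟩, hy1⟩

theorem halve {f : (Fin n → ℝ) → ℝ} (hf : LocallyIntegrable f) (hm : Measurable f) {L ε : ℝ} (hL : 0 < L) (hε : 0 < ε)
    (H : ∀ (c : Fin n → ℝ) (r : ℝ), 0 < r → ENNReal.ofReal ε * volume (closedBall c r) ≤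
      volume (closedBall c r ∩ {x | |f x - ⨍ y in closedBall c r, f y| ≤ L}))
    (z : Fin n → ℝ) {R : ℝ} (hR : 0 < R) {J : ℕ} (hJ : 2 * (5 ^ n / ε) ≤ J) (M : ℕ) :
    volume (closedBall z R ∩ {x | (⨍ y in closedBall z R, f y) + 3 * L * ((M + J : ℕ) : ℝ) < f x}) ≤
      2⁻¹ * volume (closedBall z R ∩ {x | (⨍ y in closedBall z R, f y) + 3 * L * (M : ℝ) < f x}) := by
  set m := ⨍ y in closedBall z R, f y with hmdef
  set E : ℕ → ℝ≥0∞ := fun k => volume (closedBall z R ∩ {x | m + 3 * L * (k : ℝ) < f x}) with hE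
  set A : ℕ → Set (Fin n → ℝ) := fun j => closedBall z R ∩ {x | |f x - (m + 3 * L * ((M + 1 + j : ℕ) : ℝ))| ≤ L} with hA
  have hD : (0 : ℝ) < 5 ^ n / ε := by positivity
  have hJ0 : (0 : ℝ) < J := by linarith
  have hJ0' : 0 < J := by exact_mod_cast hJ0
  have hAm : ∀ j, MeasurableSet (A j) := fun j =>
    measurableSet_closedBall.inter (measurableSet_le (hm.sub_const _).abs measurable_const)
  have hdisj : (↑(Finset.range J) : Set ℕ).PairwiseDisjoint A := by
    intro i _ j _ hij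
    rw [Function.onFun, Set.disjoint_left]
    rintro x ⟨_, hx1⟩ ⟨_, hx2⟩
    have hx1' : |f x - (m + 3 * L * ((M + 1 + i : ℕ) : ℝ))| ≤ L := hx1
    have hx2' : |f x - (m + 3 * L * ((M + 1 + j : ℕ) : ℝ))| ≤ L := hx2
    rw [abs_le] at hx1' hx2'
    push_cast at hx1' hx2'
    rcases lt_or_gt_of_ne hij with h | h
    · have h' : (i : ℝ) + 1 ≤ j := by exact_mod_cast h
      nlinarith
    · have h' : (j : ℝ) + 1 ≤ i := by exact_mod_cast h
      nlinarith
  have hsum : ∑ j ∈ Finset.range J, volume (A j) ≤ E M := by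
    rw [← measure_biUnion_finset hdisj (fun j _ => hAm j)]
    refine measure_mono ?_
    refine iUnion₂_subset fun j _ => ?_
    rintro x ⟨hx1, hx2⟩
    refine ⟨hx1, ?_⟩
    have hx2' : |f x - (m + 3 * L * ((M + 1 + j : ℕ) : ℝ))| ≤ L := hx2
    rw [abs_le] at hx2'
    push_cast at hx2'
    show m + 3 * L * (M : ℝ) < f x
    have : (0 : ℝ) ≤ j := Nat.cast_nonneg j
    nlinarith
  have hterm : ∀ j ∈ Finset.range J, E (M + J) ≤ ENNReal.ofReal (5 ^ n / ε) * volume (A j) := by
    intro j hj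
    refine jump hf hm hε H z hR ?_ ?_
    · rw [← hmdef]
      have : (0 : ℝ) ≤ ((M + 1 + j : ℕ) : ℝ) := Nat.cast_nonneg _
      nlinarith
    · have h1 : ((M + 1 + j : ℕ) : ℝ) ≤ ((M + J : ℕ) : ℝ) := by
        have := Finset.mem_range.1 hj
        exact_mod_cast (by omega)
      nlinarith
  have hfin : (J : ℝ≥0∞) * E (M + J) ≤ ENNReal.ofReal (5 ^ n / ε) * E M := by
    calc (J : ℝ≥0∞) * E (M + J) = ∑ j ∈ Finset.range J, E (M + J) := by simp
      _ ≤ ∑ j ∈ Finset.range J, ENNReal.ofReal (5 ^ n / ε) * volume (A j) := Finset.sum_le_sum hterm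
      _ = ENNReal.ofReal (5 ^ n / ε) * ∑ j ∈ Finset.range J, volume (A j) := by rw [Finset.mul_sum]
      _ ≤ _ := by gcongr
  have h5 : ENNReal.ofReal (5 ^ n / ε) ≤ (J : ℝ≥0∞) * 2⁻¹ := by
    have e2 : (J : ℝ≥0∞) * 2⁻¹ = ENNReal.ofReal (J * 2⁻¹) := by
      rw [ENNReal.ofReal_mul hJ0.le, ENNReal.ofReal_natCast, ENNReal.ofReal_inv_of_pos two_pos, ENNReal.ofReal_ofNat]
    rw [e2]
    exact ENNReal.ofReal_le_ofReal (by linarith)
  have h6 : (J : ℝ≥0∞) * E (M + J) ≤ (J : ℝ≥0∞) * (2⁻¹ * E M) := by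
    rw [← mul_assoc]
    exact hfin.trans (by gcongr)
  exact (ENNReal.mul_le_mul_iff_right (by exact_mod_cast hJ0'.ne') (ENNReal.natCast_ne_top J)).1 h6

theorem decay {f : (Fin n → ℝ) → ℝ} (hf : LocallyIntegrable f) (hm : Measurable f) {L ε : ℝ} (hL : 0 < L) (hε : 0 < ε)
    (H : ∀ (c : Fin n → ℝ) (r : ℝ), 0 < r → ENNReal.ofReal ε * volume (closedBall c r) ≤
      volume (closedBall c r ∩ {x | |f x - ⨍ y in closedBall c r, f y| ≤ L}))
    (z : Fin n → ℝ) {R : ℝ} (hR : 0 < R) {J : ℕ} (hJ : 2 * (5 ^ n / ε) ≤ J) (k : ℕ) :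
    volume (closedBall z R ∩ {x | (⨍ y in closedBall z R, f y) + 3 * L * ((k * J : ℕ) : ℝ) < f x}) ≤
      2⁻¹ ^ k * volume (closedBall z R) := by
  induction k with
  | zero =>
    rw [pow_zero, one_mul]
    exact measure_mono inter_subset_left
  | succ k ih =>
    have h1 := halve hf hm hL hε H z hR hJ (k * J)
    rw [show (k + 1) * J = k * J + J by ring]
    refine h1.trans ?_
    rw [pow_succ', mul_assoc (2⁻¹ : ℝ≥0∞)]
    exact mul_le_mul' le_rfl ih

theorem le_tsum_steps {a : ℝ} (ha : 0 < a) (t : ℝ) :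
    ENNReal.ofReal t ≤ ∑' k : ℕ, (if a * k < t then ENNReal.ofReal a else 0) := by
  refine le_trans ?_ (ENNReal.sum_le_tsum (Finset.range ⌈t / a⌉₊))
  have h1 : ∀ k ∈ Finset.range ⌈t / a⌉₊, (if a * (k : ℝ) < t then ENNReal.ofReal a else 0) = ENNReal.ofReal a := by
    intro k hk
    rw [Finset.mem_range, Nat.lt_ceil, lt_div_iff₀ ha] at hk
    rw [if_pos (by linarith)]
  rw [Finset.sum_congr rfl h1, Finset.sum_const, Finset.card_range, nsmul_eq_mul, ← ENNReal.ofReal_natCast,
    ← ENNReal.ofReal_mul (Nat.cast_nonneg _)]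
  refine ENNReal.ofReal_le_ofReal ?_
  rw [← div_le_iff₀ ha]
  exact Nat.le_ceil _

theorem lint_pos {f : (Fin n → ℝ) → ℝ} (hf : LocallyIntegrable f) (hm : Measurable f) {L ε : ℝ} (hL : 0 < L) (hε : 0 < ε)
    (H : ∀ (c : Fin n → ℝ) (r : ℝ), 0 < r → ENNReal.ofReal ε * volume (closedBall c r) ≤
      volume (closedBall c r ∩ {x | |f x - ⨍ y in closedBall c r, f y| ≤ L}))
    (z : Fin n → ℝ) {R : ℝ} (hR : 0 < R) {J : ℕ} (hJ : 2 * (5 ^ n / ε) ≤ J) :
    ∫⁻ x in closedBall z R, ENNReal.ofReal (f x - ⨍ y in closedBall z R, f y) ≤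
      ENNReal.ofReal (6 * L * J) * volume (closedBall z R) := by
  set m := ⨍ y in closedBall z R, f y with hmdef
  have hD : (0 : ℝ) < 5 ^ n / ε := by positivity
  have hJ0 : (0 : ℝ) < J := by linarith
  set a := 3 * L * J with ha
  have ha0 : 0 < a := by positivity
  have hms : ∀ k : ℕ, MeasurableSet {x | a * (k : ℝ) < f x - m} := fun k =>
    measurableSet_lt measurable_const (hm.sub_const m)
  calc ∫⁻ x in closedBall z R, ENNReal.ofReal (f x - m)
      ≤ ∫⁻ x in closedBall z R, ∑' k : ℕ, (if a * (k : ℝ) < f x - m then ENNReal.ofReal a else 0) :=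
        lintegral_mono fun x => le_tsum_steps ha0 _
    _ = ∑' k : ℕ, ∫⁻ x in closedBall z R, (if a * (k : ℝ) < f x - m then ENNReal.ofReal a else 0) := by
        rw [lintegral_tsum]
        intro k
        exact (Measurable.ite (hms k) measurable_const measurable_const).aemeasurable
    _ = ∑' k : ℕ, ENNReal.ofReal a * volume (closedBall z R ∩ {x | a * (k : ℝ) < f x - m}) := by
        refine tsum_congr fun k => ?_
        have : (fun x => (if a * (k : ℝ) < f x - m then ENNReal.ofReal a else 0)) =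
            ({x | a * (k : ℝ) < f x - m} : Set (Fin n → ℝ)).indicator (fun _ => ENNReal.ofReal a) := by
          ext x
          by_cases h : a * (k : ℝ) < f x - m
          · rw [if_pos h, indicator_of_mem (show x ∈ {x | a * (k : ℝ) < f x - m} from h)]
          · rw [if_neg h, indicator_of_notMem (show x ∉ {x | a * (k : ℝ) < f x - m} from h)]
        rw [this, lintegral_indicator (hms k), setLIntegral_const, Measure.restrict_apply (hms k), inter_comm]
    _ ≤ ∑' k : ℕ, ENNReal.ofReal a * (2⁻¹ ^ k * volume (closedBall z R)) := by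
        refine ENNReal.tsum_le_tsum fun k => ?_
        gcongr
        refine le_trans (measure_mono ?_) (decay hf hm hL hε H z hR hJ k)
        refine inter_subset_inter_right _ ?_
        intro x hx
        have hx' : a * (k : ℝ) < f x - m := hx
        show m + 3 * L * ((k * J : ℕ) : ℝ) < f x
        push_cast
        have : 3 * L * ((k : ℝ) * J) = a * k := by rw [ha]; ring
        rw [this]; linarith
    _ = ENNReal.ofReal a * (2 * volume (closedBall z R)) := by
        rw [ENNReal.tsum_mul_left, ENNReal.tsum_mul_right, ENNReal.tsum_geometric, ENNReal.one_sub_inv_two, inv_inv]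
    _ = _ := by
        rw [← mul_assoc]
        congr 1
        rw [← ENNReal.ofReal_ofNat 2, ← ENNReal.ofReal_mul ha0.le]
        congr 1
        rw [ha]; ring

/-- the real variable theorem -/
theorem main_real {f : (Fin n → ℝ) → ℝ} (hf : LocallyIntegrable f) (hm : Measurable f) {L ε : ℝ} (hL : 0 < L) (hε : 0 < ε)
    (H : ∀ (c : Fin n → ℝ) (r : ℝ), 0 < r → ENNReal.ofReal ε * volume (closedBall c r) ≤
      volume (closedBall c r ∩ {x | |f x - ⨍ y in closedBall c r, f y| ≤ L}))
    (z : Fin n → ℝ) {R : ℝ} (hR : 0 < R) {J : ℕ} (hJ : 2 * (5 ^ n / ε) ≤ J) :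
    ∫⁻ x in closedBall z R, ENNReal.ofReal |f x - ⨍ y in closedBall z R, f y| ≤
      ENNReal.ofReal (12 * L * J) * volume (closedBall z R) := by
  have h1 := lint_pos hf hm hL hε H z hR hJ
  set m := ⨍ y in closedBall z R, f y with hmdef
  have hI : IntegrableOn f (closedBall z R) := hf.integrableOn_isCompact (isCompact_closedBall z R)
  have hI2 : IntegrableOn (fun x => f x - m) (closedBall z R) := hI.sub (integrableOn_const (vol_ne_top z R))
  have h0 : ∫ x in closedBall z R, (f x - m) = 0 := by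
    rw [integral_sub hI (integrableOn_const (vol_ne_top z R)), setIntegral_const, hmdef, setAverage_eq, smul_eq_mul, smul_eq_mul,
      ← mul_assoc, mul_inv_cancel₀, one_mul, sub_self]
    rw [measureReal_def]
    exact (ENNReal.toReal_pos (vol_pos z hR).ne' (vol_ne_top z R)).ne'
  rw [integral_eq_lintegral_pos_part_sub_lintegral_neg_part hI2, sub_eq_zero] at h0
  have hfin1 : ∫⁻ x in closedBall z R, ENNReal.ofReal (f x - m) ≠ ∞ := by
    refine (lt_of_le_of_lt h1 (ENNReal.mul_lt_top ENNReal.ofReal_lt_top (vol_ne_top z R).lt_top)).ne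
  have hfin2 : ∫⁻ x in closedBall z R, ENNReal.ofReal (-(f x - m)) ≠ ∞ := by
    exact ((lintegral_ofReal_le_lintegral_enorm _).trans_lt hI2.neg.2).ne
  have h2 : ∫⁻ x in closedBall z R, ENNReal.ofReal (f x - m) = ∫⁻ x in closedBall z R, ENNReal.ofReal (-(f x - m)) := by
    exact (ENNReal.toReal_eq_toReal_iff' hfin1 hfin2).1 h0
  have h3 : ∫⁻ x in closedBall z R, ENNReal.ofReal |f x - m| =
      (∫⁻ x in closedBall z R, ENNReal.ofReal (f x - m)) + ∫⁻ x in closedBall z R, ENNReal.ofReal (-(f x - m)) := by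
    rw [← lintegral_add_left (by fun_prop)]
    refine lintegral_congr fun x => ?_
    rcases le_total 0 (f x - m) with h | h
    · rw [abs_of_nonneg h, ENNReal.ofReal_of_nonpos (show -(f x - m) ≤ 0 by linarith), add_zero]
    · rw [abs_of_nonpos h, ENNReal.ofReal_of_nonpos h, zero_add]
  rw [h3, ← h2, ← two_mul]
  calc 2 * ∫⁻ x in closedBall z R, ENNReal.ofReal (f x - m) ≤ 2 * (ENNReal.ofReal (6 * L * J) * volume (closedBall z R)) := by gcongr
    _ = _ := by
      rw [← mul_assoc]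
      congr 1
      rw [← ENNReal.ofReal_ofNat 2, ← ENNReal.ofReal_mul two_pos.le]
      congr 1
      ring

end Pool.Agent.Q85.Bmo
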