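import Pool.Agent.Q85.BmoDef
import Pool.Agent.Q85.Bmo2

set_option autoImplicit false
open MeasureTheory Set Filter Topology Metric
open scoped ENNReal NNReal

namespace Pool.Agent.Q85.Bmo

variable {n : ℕ}

theorem abs_avg_sub_le {B : Set (Fin n → ℝ)} (hB0 : volume B ≠ 0) (hBt : volume B ≠ ∞) {g : (Fin n → ℝ) → ℝ}
    (hg : IntegrableOn g B) (m : ℝ) {D : ℝ} (hD : 0 ≤ D)
    (h : ∫⁻ x in B, ENNReal.ofReal |g x - m| ≤ ENNReal.ofReal D * volume B) :
    |(⨍ x in B, g x) - m| ≤ D := by
  have hv : 0 < volume.real B := ENNReal.toReal_pos hB0 hBt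
  have hI : IntegrableOn (fun x => g x - m) B := hg.sub (integrableOn_const hBt)
  have h1 : (⨍ x in B, g x) - m = (volume.real B)⁻¹ * ∫ x in B, (g x - m) := by
    rw [integral_sub hg (integrableOn_const hBt), setIntegral_const, setAverage_eq, smul_eq_mul, smul_eq_mul]
    field_simp
  have h2 : |∫ x in B, (g x - m)| ≤ D * volume.real B := by
    refine (abs_integral_le_integral_abs (f := fun x => g x - m)).trans ?_
    rw [integral_eq_lintegral_of_nonneg_ae (Eventually.of_forall fun x => abs_nonneg _) hI.abs.aestronglyMeasurable]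
    refine ENNReal.toReal_le_of_le_ofReal (by positivity) (h.trans (le_of_eq ?_))
    rw [ENNReal.ofReal_mul hD, measureReal_def, ENNReal.ofReal_toReal hBt]
  rw [h1, abs_mul, abs_of_pos (inv_pos.2 hv), inv_mul_le_iff₀ hv]
  linarith

theorem osc_le {B : Set (Fin n → ℝ)} (hB0 : volume B ≠ 0) (hBt : volume B ≠ ∞) {g : (Fin n → ℝ) → ℝ}
    (hg : IntegrableOn g B) (m : ℝ) {D : ℝ} (hD : 0 ≤ D)
    (h : ∫⁻ x in B, ENNReal.ofReal |g x - m| ≤ ENNReal.ofReal D * volume B) :
    ∫⁻ x in B, ENNReal.ofReal |g x - ⨍ y in B, g y| ≤ ENNReal.ofReal (2 * D) * volume B := by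
  have h1 := abs_avg_sub_le hB0 hBt hg m hD h
  have h2 : ∀ x, ENNReal.ofReal |g x - ⨍ y in B, g y| ≤ ENNReal.ofReal |g x - m| + ENNReal.ofReal D := by
    intro x
    rw [← ENNReal.ofReal_add (abs_nonneg _) hD]
    refine ENNReal.ofReal_le_ofReal ?_
    have := abs_sub_le (g x) m (⨍ y in B, g y)
    rw [abs_sub_comm m] at this
    linarith
  calc ∫⁻ x in B, ENNReal.ofReal |g x - ⨍ y in B, g y| ≤ ∫⁻ x in B, (ENNReal.ofReal |g x - m| + ENNReal.ofReal D) :=
        lintegral_mono h2
    _ = (∫⁻ x in B, ENNReal.ofReal |g x - m|) + ENNReal.ofReal D * volume B := by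
        rw [lintegral_add_right _ measurable_const, setLIntegral_const]
    _ ≤ ENNReal.ofReal D * volume B + ENNReal.ofReal D * volume B := by gcongr
    _ = _ := by rw [two_mul, ENNReal.ofReal_add hD hD, add_mul]

theorem loc_log {E : Set (Fin n → ℝ)} {ε : ℝ} (hε : 0 < ε) (hε1 : ε ≤ 1) :
    LocallyIntegrable (fun x => Real.log (hh E ε x)) := by
  refine (locallyIntegrable_const (Real.log ε)).mono
    (Real.measurable_log.comp (hh_measurable E ε)).aestronglyMeasurable (Eventually.of_forall fun x => ?_)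
  have h1 : Real.log ε ≤ Real.log (hh E ε x) := Real.log_le_log hε (eps_le_hh E ε x)
  have h2 : Real.log (hh E ε x) ≤ 0 :=
    Real.log_nonpos (hε.le.trans (eps_le_hh E ε x)) (hh_le_one E hε1 x)
  rw [Real.norm_eq_abs, Real.norm_eq_abs, abs_of_nonpos h2, abs_of_nonpos (h1.trans h2)]
  linarith

theorem bmo_log (hn : 1 ≤ n) {E : Set (Fin n → ℝ)} (hE : MeasurableSet E) {ε : ℝ} (hε : 0 < ε) (hε1 : ε ≤ 1) :
    bmo (fun x => Real.log (hh E ε x)) ≤ ENNReal.ofReal (2 * 15 ^ n) := by
  refine iSup_le fun c => iSup_le fun r => iSup_le fun hr => ?_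
  obtain ⟨m, hm⟩ := log_int hn hE hε c hr
  have hI : IntegrableOn (fun x => Real.log (hh E ε x)) (closedBall c r) :=
    (loc_log hε hε1).integrableOn_isCompact (isCompact_closedBall c r)
  have h1 := osc_le (vol_pos c hr).ne' (vol_ne_top c r) hI m (by positivity) hm
  rw [mul_comm, ← div_eq_mul_inv]
  exact ENNReal.div_le_of_le_mul h1

/-- Step 1: small sets have small norm -/
theorem small_set (hn : 1 ≤ n) (X : Family n) {C : ℝ≥0}
    (hC : ∀ f : (Fin n → ℝ) → ℝ, LocallyIntegrable f → bmo f < ∞ → bmoX X f ≤ C * bmo f)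
    (z : Fin n → ℝ) {R : ℝ} (hR : 0 < R) {E : Set (Fin n → ℝ)} (hE : MeasurableSet E)
    {t : ℝ} (ht : 0 < t)
    (hvol : volume E ≤ ENNReal.ofReal (Real.exp (-(5 ^ n + t))) * volume (closedBall z R)) :
    ENNReal.ofReal t * (X z R hR).N (E.indicator fun _ => 1) ≤ C * ENNReal.ofReal (2 * 15 ^ n) := by
  set ε := Real.exp (-(5 ^ n + t)) with hεdef
  have hε : 0 < ε := Real.exp_pos _
  have hlog : Real.log ε = -(5 ^ n + t) := Real.log_exp _
  have h5 : (0 : ℝ) < 5 ^ n := by positivity
  have hε1 : ε ≤ 1 := by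
    rw [hεdef, Real.exp_le_one_iff]; linarith
  set g : (Fin n → ℝ) → ℝ := fun x => Real.log (hh E ε x) with hg
  have hbm := bmo_log hn hE hε hε1
  have hlt : bmo g < ∞ := lt_of_le_of_lt hbm ENNReal.ofReal_lt_top
  have h1 : (X z R hR).N (fun x => g x - ⨍ y in closedBall z R, g y) ≤ C * ENNReal.ofReal (2 * 15 ^ n) := by
    have h2 : (X z R hR).N (fun x => g x - ⨍ y in closedBall z R, g y) ≤ bmoX X g := by
      unfold bmoX
      exact le_iSup_of_le z (le_iSup_of_le R (le_iSup_of_le hR le_rfl))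
    refine h2.trans ((hC g (loc_log hε hε1) hlt).trans ?_)
    gcongr
  have hI : IntegrableOn g (closedBall z R) :=
    (loc_log hε hε1).integrableOn_isCompact (isCompact_closedBall z R)
  have h3 : |(⨍ y in closedBall z R, g y) - Real.log ε| ≤ 5 ^ n := by
    refine abs_avg_sub_le (vol_pos z hR).ne' (vol_ne_top z R) hI _ (by positivity) ?_
    refine le_trans (le_of_eq ?_) (log_avg hn hE hε z hvol)
    refine lintegral_congr fun x => ?_
    rw [abs_of_nonneg]
    exact sub_nonneg.2 (Real.log_le_log hε (eps_le_hh E ε x))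
  have h4 : (⨍ y in closedBall z R, g y) ≤ -t := by
    have := (abs_le.1 h3).2
    rw [hlog] at this
    linarith
  have hgm : Measurable g := Real.measurable_log.comp (hh_measurable E ε)
  refine le_trans ?_ h1
  have h6 := (X z R hR).smul t (E.indicator fun _ => 1) ((measurable_const.indicator hE).aemeasurable)
  rw [abs_of_pos ht] at h6
  rw [← h6]
  refine (X z R hR).mono _ _ ((measurable_const.indicator hE).const_mul t).aemeasurable
    (hgm.sub_const _).aemeasurable ?_
  have h7 : ∀ᵐ x : Fin n → ℝ, x ∈ E → hh E ε x = 1 := (ae_restrict_iff' hE).1 (hh_eq_one hε1)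
  filter_upwards [ae_restrict_of_ae h7] with x hx
  by_cases hxE : x ∈ E
  · rw [indicator_of_mem hxE, mul_one, abs_of_pos ht]
    have : g x = 0 := by
      simp only [hg]
      rw [hx hxE, Real.log_one]
    rw [this, zero_sub, abs_neg, abs_of_nonpos (by linarith)]
    linarith
  · rw [indicator_of_notMem hxE, mul_zero, abs_zero]
    exact abs_nonneg _

/-- the positive answer, for measurable functions and explicit bounds -/
theorem positive_aux (hn : 1 ≤ n) (X : Family n) {K : ℝ≥0} (hK1 : 1 ≤ K) (hK : QuasiConst X K) {a : ℝ≥0} (ha : 0 < a)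
    (hnorm : ∀ (c : Fin n → ℝ) (r : ℝ) (hr : 0 < r), (a : ℝ≥0∞) ≤ (X c r hr).N (fun _ => 1)) {C : ℝ≥0}
    (hC : ∀ f : (Fin n → ℝ) → ℝ, LocallyIntegrable f → bmo f < ∞ → bmoX X f ≤ C * bmo f) :
    ∃ D : ℝ≥0, 0 < D ∧ ∀ (f : (Fin n → ℝ) → ℝ), LocallyIntegrable f → Measurable f → ∀ A : ℝ≥0, 0 < A →
      bmoX X f ≤ A → bmo f ≤ D * A := by
  have ha' : (0 : ℝ) < a := ha
  have hK1' : (1 : ℝ) ≤ K := hK1
  have hK0 : (0 : ℝ) < K := by linarith
  have h15 : (0 : ℝ) < 15 ^ n := by positivity
  set t : ℝ := 8 * K * C * 15 ^ n / a + 1 with ht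
  have ht0 : 0 < t := by positivity
  set ε := Real.exp (-(5 ^ n + t)) with hεdef
  have hε : 0 < ε := Real.exp_pos _
  set J : ℕ := ⌈2 * (5 ^ n / ε)⌉₊ + 1 with hJ
  have hJ2 : 2 * (5 ^ n / ε) ≤ (J : ℝ) := by
    rw [hJ]; push_cast
    have := Nat.le_ceil (2 * (5 ^ n / ε))
    linarith
  have hJ0 : (0 : ℝ≥0) < J := by
    rw [hJ]; positivity
  refine ⟨48 * K * J / a, by positivity, fun f hf hm A hA hfA => ?_⟩
  have hA' : (0 : ℝ) < A := hA
  set L : ℝ := 4 * K * A / a with hL
  have hL0 : 0 < L := by positivity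
  have H : ∀ (c : Fin n → ℝ) (r : ℝ), 0 < r → ENNReal.ofReal ε * volume (closedBall c r) ≤
      volume (closedBall c r ∩ {x | |f x - ⨍ y in closedBall c r, f y| ≤ L}) := by
    intro c r hr
    by_contra hcon
    rw [not_le] at hcon
    set m := ⨍ y in closedBall c r, f y with hmdef
    set G : Set (Fin n → ℝ) := closedBall c r ∩ {x | |f x - m| ≤ L} with hG
    have hGm : MeasurableSet G := measurableSet_closedBall.inter (measurableSet_le (hm.sub_const m).abs measurable_const)
    have h1 := small_set hn X hC c hr hGm ht0 hcon.le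
    have hNm : (X c r hr).N (fun x => f x - m) ≤ A := by
      refine le_trans ?_ hfA
      unfold bmoX
      exact le_iSup_of_le c (le_iSup_of_le r (le_iSup_of_le hr le_rfl))
    -- the norm of the set
    have h2 : (X c r hr).N (G.indicator fun _ => 1) ≤ ENNReal.ofReal (a / (4 * K)) := by
      have h3 : (C : ℝ≥0∞) * ENNReal.ofReal (2 * 15 ^ n) ≤ ENNReal.ofReal t * ENNReal.ofReal (a / (4 * K)) := by
        rw [← ENNReal.ofReal_coe_nnreal (p := C), ← ENNReal.ofReal_mul C.coe_nonneg, ← ENNReal.ofReal_mul ht0.le]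
        refine ENNReal.ofReal_le_ofReal ?_
        have e1 : t * (a / (4 * K)) = 2 * C * 15 ^ n + a / (4 * K) := by
          rw [ht]; field_simp; ring
        rw [e1]
        have : 0 < (a : ℝ) / (4 * K) := by positivity
        linarith
      exact (ENNReal.mul_le_mul_iff_right (ENNReal.ofReal_pos.2 ht0).ne' ENNReal.ofReal_ne_top).1 (h1.trans h3)
    have h4 : (X c r hr).N (Gᶜ.indicator fun _ => 1) ≤ ENNReal.ofReal (a / (4 * K)) := by
      have h5 := (X c r hr).smul L⁻¹ (fun x => f x - m) (hm.sub_const m).aemeasurable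
      have h6 : (X c r hr).N (Gᶜ.indicator fun _ => 1) ≤ (X c r hr).N (fun x => L⁻¹ * (f x - m)) := by
        refine (X c r hr).mono _ _ (measurable_const.indicator hGm.compl).aemeasurable
          ((hm.sub_const m).const_mul _).aemeasurable ?_
        filter_upwards [ae_restrict_mem measurableSet_closedBall] with x hx
        by_cases hxG : x ∈ G
        · rw [indicator_of_notMem (by simpa using hxG), abs_zero]; exact abs_nonneg _
        · rw [indicator_of_mem (by simpa using hxG), abs_one, abs_mul, abs_of_pos (inv_pos.2 hL0)]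
          have h7 : L < |f x - m| := by
            by_contra h8
            rw [not_lt] at h8
            exact hxG ⟨hx, h8⟩
          rw [inv_mul_eq_div, one_le_div hL0]
          exact h7.le
      rw [h5, abs_of_pos (inv_pos.2 hL0)] at h6
      refine h6.trans ?_
      calc ENNReal.ofReal L⁻¹ * (X c r hr).N (fun x => f x - m) ≤ ENNReal.ofReal L⁻¹ * A := by gcongr
        _ = ENNReal.ofReal (a / (4 * K)) := by
            rw [← ENNReal.ofReal_coe_nnreal (p := A), ← ENNReal.ofReal_mul (inv_pos.2 hL0).le]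
            congr 1
            rw [hL]; field_simp
    have h8 := hK c r hr (G.indicator fun _ => 1) (Gᶜ.indicator fun _ => 1)
      (measurable_const.indicator hGm).aemeasurable (measurable_const.indicator hGm.compl).aemeasurable
    have h9 : (fun x => G.indicator (fun _ => (1 : ℝ)) x + Gᶜ.indicator (fun _ => (1 : ℝ)) x) = fun _ => 1 := by
      funext x
      by_cases hxG : x ∈ G
      · rw [indicator_of_mem hxG, indicator_of_notMem (by simpa using hxG), add_zero]
      · rw [indicator_of_notMem hxG, indicator_of_mem (by simpa using hxG), zero_add]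
    rw [h9] at h8
    have h10 : (a : ℝ≥0∞) ≤ ENNReal.ofReal (a / 2) := by
      refine (hnorm c r hr).trans (h8.trans ?_)
      calc (K : ℝ≥0∞) * ((X c r hr).N (G.indicator fun _ => 1) + (X c r hr).N (Gᶜ.indicator fun _ => 1))
          ≤ K * (ENNReal.ofReal (a / (4 * K)) + ENNReal.ofReal (a / (4 * K))) := by gcongr
        _ = ENNReal.ofReal (a / 2) := by
            rw [← ENNReal.ofReal_add (by positivity) (by positivity), ← ENNReal.ofReal_coe_nnreal (p := K),
              ← ENNReal.ofReal_mul hK0.le]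
            congr 1
            field_simp
            norm_num
    rw [← ENNReal.ofReal_coe_nnreal (p := a), ENNReal.ofReal_le_ofReal_iff (by positivity)] at h10
    linarith
  refine iSup_le fun c => iSup_le fun r => iSup_le fun hr => ?_
  have h11 := main_real hf hm hL0 hε H c hr hJ2
  rw [mul_comm, ← div_eq_mul_inv]
  refine ENNReal.div_le_of_le_mul (h11.trans (le_of_eq ?_))
  congr 1
  rw [← ENNReal.coe_mul, ← ENNReal.ofReal_coe_nnreal]
  congr 1
  push_cast
  rw [hL]
  field_simp
  ring

theorem N_congr {Q : Set (Fin n → ℝ)} (X : FSpace n Q) {f g : (Fin n → ℝ) → ℝ}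
    (hf : AEMeasurable f (volume.restrict Q)) (h : f =ᵐ[volume.restrict Q] g) : X.N f = X.N g := by
  have hg : AEMeasurable g (volume.restrict Q) := hf.congr h
  refine le_antisymm (X.mono f g hf hg ?_) (X.mono g f hg hf ?_)
  · filter_upwards [h] with x hx; rw [hx]
  · filter_upwards [h] with x hx; rw [hx]

theorem bmo_congr {f g : (Fin n → ℝ) → ℝ} (h : f =ᵐ[volume] g) : bmo f = bmo g := by
  unfold bmo
  refine iSup_congr fun c => iSup_congr fun r => iSup_congr fun hr => ?_
  have h1 : (⨍ y in closedBall c r, f y) = ⨍ y in closedBall c r, g y :=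
    average_congr (ae_restrict_of_ae h)
  congr 1
  refine lintegral_congr_ae ?_
  filter_upwards [ae_restrict_of_ae h] with x hx
  rw [hx, h1]

theorem bmoX_congr (X : Family n) {f g : (Fin n → ℝ) → ℝ} (hf : AEMeasurable f) (h : f =ᵐ[volume] g) :
    bmoX X f = bmoX X g := by
  unfold bmoX
  refine iSup_congr fun c => iSup_congr fun r => iSup_congr fun hr => ?_
  have h1 : (⨍ y in closedBall c r, f y) = ⨍ y in closedBall c r, g y :=
    average_congr (ae_restrict_of_ae h)
  refine N_congr _ ((hf.sub_const _).restrict) ?_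
  filter_upwards [ae_restrict_of_ae h] with x hx
  rw [hx, h1]

/-- The positive answer to Q1 -/
theorem positive (hn : 1 ≤ n) (X : Family n) (hX : Normalized X) {K : ℝ≥0} (hK : QuasiConst X K)
    (h : BMOToX X) : XToBMO X := by
  obtain ⟨a, b, ha, hab⟩ := hX
  obtain ⟨C, hC⟩ := h
  have hK' : QuasiConst X (max K 1) := by
    intro c r hr f g hf hg
    refine (hK c r hr f g hf hg).trans ?_
    gcongr
    exact le_max_left _ _
  obtain ⟨D, hD0, hD⟩ := positive_aux hn X (le_max_right K 1) hK' ha (fun c r hr => (hab c r hr).1) hC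
  refine ⟨D, fun f hf hfX => ?_⟩
  have hae := hf.aestronglyMeasurable
  set g := hae.mk f with hg
  have hfg : f =ᵐ[volume] g := hae.ae_eq_mk
  have hgm : Measurable g := hae.stronglyMeasurable_mk.measurable
  have hgl : LocallyIntegrable g := (locallyIntegrable_congr hfg).1 hf
  rw [bmo_congr hfg]
  rw [bmoX_congr X hae.aemeasurable hfg] at hfX ⊢
  have hDne : (D : ℝ≥0∞) ≠ 0 := by exact_mod_cast hD0.ne'
  have h1 : bmo g / D ≤ bmoX X g := by
    refine le_of_forall_gt_imp_ge_of_dense fun A hA => ?_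
    rcases eq_or_ne A ∞ with rfl | hAt
    · exact le_top
    · lift A to ℝ≥0 using hAt
      have hA0 : 0 < A := by
        have := lt_of_le_of_lt (zero_le (a := bmoX X g)) hA
        exact_mod_cast this
      refine ENNReal.div_le_of_le_mul ?_
      rw [mul_comm]
      exact hD g hgl hgm A hA0 hA.le
  rw [ENNReal.div_le_iff hDne ENNReal.coe_ne_top] at h1
  rw [mul_comm]
  exact h1

end Pool.Agent.Q85.Bmo
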