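import Pool.Agent.Q85.Bmo3

set_option autoImplicit false
open MeasureTheory Set Filter Topology Metric
open scoped ENNReal NNReal

namespace Pool.Agent.Q85.Bmo

variable {n : ℕ}

/-- normalized distribution function -/
noncomputable def dis (Q : Set (Fin n → ℝ)) (g : (Fin n → ℝ) → ℝ) (t : ℝ≥0) : ℝ≥0∞ :=
  (volume Q)⁻¹ * (volume.restrict Q) {x | (t : ℝ) < |g x|}

/-- the weak type functional -/
noncomputable def weakN (Q : Set (Fin n → ℝ)) (M : ℕ) (g : (Fin n → ℝ) → ℝ) : ℝ≥0∞ :=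
  ⨆ t : ℝ≥0, (t : ℝ≥0∞) * dis Q g t ^ M

section weak

variable {Q : Set (Fin n → ℝ)} {M : ℕ}

theorem dis_le_one (hQ0 : volume Q ≠ 0) (hQ : volume Q ≠ ∞) (g : (Fin n → ℝ) → ℝ) (t : ℝ≥0) : dis Q g t ≤ 1 := by
  unfold dis
  have h1 : (volume.restrict Q) {x | (t : ℝ) < |g x|} ≤ volume Q := by
    calc (volume.restrict Q) {x | (t : ℝ) < |g x|} ≤ (volume.restrict Q) univ := measure_mono (subset_univ _)
      _ = volume Q := Measure.restrict_apply_univ _
  calc (volume Q)⁻¹ * (volume.restrict Q) {x | (t : ℝ) < |g x|} ≤ (volume Q)⁻¹ * volume Q := mul_le_mul' le_rfl h1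
    _ = 1 := ENNReal.inv_mul_cancel hQ0 hQ

theorem dis_mono {f g : (Fin n → ℝ) → ℝ} {t t' : ℝ≥0}
    (h : ∀ᵐ x ∂(volume.restrict Q), (t : ℝ) < |f x| → (t' : ℝ) < |g x|) : dis Q f t ≤ dis Q g t' := by
  unfold dis
  exact mul_le_mul' le_rfl (measure_mono_ae h)

theorem weak_mono {f g : (Fin n → ℝ) → ℝ} (h : ∀ᵐ x ∂(volume.restrict Q), |f x| ≤ |g x|) :
    weakN Q M f ≤ weakN Q M g := by
  refine iSup_mono fun t => ?_
  gcongr
  refine dis_mono ?_
  filter_upwards [h] with x hx h1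
  linarith

theorem weak_eq_zero (hM : M ≠ 0) (hQ : volume Q ≠ ∞) {f : (Fin n → ℝ) → ℝ} (h : weakN Q M f = 0) :
    ∀ᵐ x ∂(volume.restrict Q), f x = 0 := by
  have h1 : ∀ k : ℕ, ∀ᵐ x ∂(volume.restrict Q), ¬ ((1 : ℝ) / (k + 1) < |f x|) := by
    intro k
    set s : ℝ≥0 := ⟨1 / (k + 1), by positivity⟩ with hs
    have h2 : (s : ℝ≥0∞) * dis Q f s ^ M = 0 := by
      refine le_antisymm ?_ zero_le
      rw [← h]
      exact le_iSup (fun t : ℝ≥0 => (t : ℝ≥0∞) * dis Q f t ^ M) s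
    rcases mul_eq_zero.1 h2 with h3 | h3
    · exfalso
      rw [ENNReal.coe_eq_zero] at h3
      have h4 := congrArg NNReal.toReal h3
      have h5 : (0 : ℝ) < 1 / (k + 1) := by positivity
      have h6 : (1 : ℝ) / (k + 1) = 0 := h4
      linarith
    · have h4 := eq_zero_of_pow_eq_zero h3
      unfold dis at h4
      rcases mul_eq_zero.1 h4 with h5 | h5
      · exact absurd (ENNReal.inv_eq_zero.1 h5) hQ
      · exact measure_eq_zero_iff_ae_notMem.1 h5
  filter_upwards [ae_all_iff.2 h1] with x hx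
  by_contra hne
  have h7 : 0 < |f x| := abs_pos.2 hne
  obtain ⟨k, hk⟩ := exists_nat_one_div_lt h7
  exact hx k hk

theorem weak_zero (hM : M ≠ 0) : weakN Q M (fun _ => 0) = 0 := by
  unfold weakN
  refine le_antisymm (iSup_le fun t => ?_) zero_le
  have : dis Q (fun _ => (0 : ℝ)) t = 0 := by
    unfold dis
    have h1 : {x : Fin n → ℝ | (t : ℝ) < |(0 : ℝ)|} = ∅ := by
      ext x
      simp only [abs_zero, mem_ofPred_eq, mem_empty_iff_false, iff_false, not_lt]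
      exact t.coe_nonneg
    rw [h1, measure_empty, mul_zero]
  rw [this, zero_pow hM, mul_zero]

theorem weak_smul_le {a : ℝ} (ha : a ≠ 0) (f : (Fin n → ℝ) → ℝ) :
    weakN Q M (fun x => a * f x) ≤ ENNReal.ofReal |a| * weakN Q M f := by
  have ha' : 0 < |a| := abs_pos.2 ha
  refine iSup_le fun t => ?_
  set s : ℝ≥0 := ⟨t / |a|, by positivity⟩ with hs
  have h1 : dis Q (fun x => a * f x) t ≤ dis Q f s := by
    refine dis_mono (Eventually.of_forall fun x hx => ?_)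
    rw [abs_mul] at hx
    show t / |a| < |f x|
    rw [div_lt_iff₀ ha']
    linarith
  have h2 : (t : ℝ≥0∞) = ENNReal.ofReal |a| * s := by
    rw [← ENNReal.ofReal_coe_nnreal (p := s), ← ENNReal.ofReal_mul (abs_nonneg a), ← ENNReal.ofReal_coe_nnreal (p := t)]
    congr 1
    show (t : ℝ) = |a| * (t / |a|)
    field_simp
  calc (t : ℝ≥0∞) * dis Q (fun x => a * f x) t ^ M ≤ t * dis Q f s ^ M := by gcongr
    _ = ENNReal.ofReal |a| * (s * dis Q f s ^ M) := by rw [h2]; ring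
    _ ≤ ENNReal.ofReal |a| * weakN Q M f := by
        gcongr
        exact le_iSup (fun t : ℝ≥0 => (t : ℝ≥0∞) * dis Q f t ^ M) s

theorem weak_smul (hM : M ≠ 0) (a : ℝ) (f : (Fin n → ℝ) → ℝ) :
    weakN Q M (fun x => a * f x) = ENNReal.ofReal |a| * weakN Q M f := by
  rcases eq_or_ne a 0 with rfl | ha
  · simp only [zero_mul, abs_zero, ENNReal.ofReal_zero]
    exact weak_zero hM
  · refine le_antisymm (weak_smul_le ha f) ?_
    have h1 := weak_smul_le (Q := Q) (M := M) (inv_ne_zero ha) (fun x => a * f x)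
    have h2 : (fun x => a⁻¹ * (a * f x)) = f := by
      funext x; field_simp
    rw [h2] at h1
    calc ENNReal.ofReal |a| * weakN Q M f ≤ ENNReal.ofReal |a| * (ENNReal.ofReal |a⁻¹| * weakN Q M (fun x => a * f x)) := by gcongr
      _ = weakN Q M (fun x => a * f x) := by
        rw [← mul_assoc, ← ENNReal.ofReal_mul (abs_nonneg a), ← abs_mul, mul_inv_cancel₀ ha, abs_one, ENNReal.ofReal_one, one_mul]

theorem weak_quasi (f g : (Fin n → ℝ) → ℝ) :
    weakN Q M (fun x => f x + g x) ≤ ((2 ^ (M + 1) : ℝ≥0) : ℝ≥0∞) * (weakN Q M f + weakN Q M g) := by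
  refine iSup_le fun t => ?_
  have h1 : dis Q (fun x => f x + g x) t ≤ dis Q f (t / 2) + dis Q g (t / 2) := by
    unfold dis
    rw [← mul_add]
    gcongr
    refine le_trans (measure_mono ?_) (measure_union_le _ _)
    intro x hx
    have hx' : (t : ℝ) < |f x + g x| := hx
    by_contra hcon
    simp only [mem_union, mem_ofPred_eq, not_or, not_lt] at hcon
    have h3 := abs_add_le (f x) (g x)
    have h4 : (((t / 2 : ℝ≥0)) : ℝ) = t / 2 := by push_cast; rfl
    rw [h4] at hcon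
    linarith [hcon.1, hcon.2]
  have h2 : ∀ a b : ℝ≥0∞, (a + b) ^ M ≤ 2 ^ M * (a ^ M + b ^ M) := by
    intro a b
    rcases le_total a b with h | h
    · calc (a + b) ^ M ≤ (2 * b) ^ M := by rw [two_mul]; gcongr
        _ = 2 ^ M * b ^ M := mul_pow _ _ _
        _ ≤ _ := by gcongr; exact le_add_self
    · calc (a + b) ^ M ≤ (2 * a) ^ M := by rw [two_mul]; gcongr
        _ = 2 ^ M * a ^ M := mul_pow _ _ _
        _ ≤ _ := by gcongr; exact le_self_add
  have h5 : (t : ℝ≥0∞) = 2 * ((t / 2 : ℝ≥0) : ℝ≥0∞) := by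
    have : t = 2 * (t / 2) := by field_simp
    conv_lhs => rw [this]
    push_cast
    rfl
  calc (t : ℝ≥0∞) * dis Q (fun x => f x + g x) t ^ M ≤ t * (dis Q f (t / 2) + dis Q g (t / 2)) ^ M := by gcongr
    _ ≤ t * (2 ^ M * (dis Q f (t / 2) ^ M + dis Q g (t / 2) ^ M)) := by gcongr; exact h2 _ _
    _ = ((2 ^ (M + 1) : ℝ≥0) : ℝ≥0∞) * (((t / 2 : ℝ≥0) : ℝ≥0∞) * dis Q f (t / 2) ^ M + ((t / 2 : ℝ≥0) : ℝ≥0∞) * dis Q g (t / 2) ^ M) := by
        rw [h5, pow_succ]
        push_cast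
        ring
    _ ≤ _ := by
        gcongr
        · exact le_iSup (fun t : ℝ≥0 => (t : ℝ≥0∞) * dis Q f t ^ M) (t / 2)
        · exact le_iSup (fun t : ℝ≥0 => (t : ℝ≥0∞) * dis Q g t ^ M) (t / 2)

theorem weak_one (hM : M ≠ 0) (hQ0 : volume Q ≠ 0) (hQ : volume Q ≠ ∞) :
    ((1 / 2 : ℝ≥0) : ℝ≥0∞) ≤ weakN Q M (fun _ => 1) ∧ weakN Q M (fun _ => 1) ≤ ((1 : ℝ≥0) : ℝ≥0∞) := by
  constructor
  · have h1 : dis Q (fun _ => (1 : ℝ)) (1 / 2) = 1 := by
      unfold dis
      have h2 : {x : Fin n → ℝ | ((1 / 2 : ℝ≥0) : ℝ) < |(1 : ℝ)|} = univ := by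
        ext x
        simp only [abs_one, mem_ofPred_eq, mem_univ, iff_true]
        push_cast
        norm_num
      rw [h2, Measure.restrict_apply_univ, ENNReal.inv_mul_cancel hQ0 hQ]
    refine le_trans (le_of_eq ?_) (le_iSup (fun t : ℝ≥0 => (t : ℝ≥0∞) * dis Q (fun _ => (1 : ℝ)) t ^ M) (1 / 2))
    simp only [h1, one_pow, mul_one]
  · refine iSup_le fun t => ?_
    rcases lt_or_ge t 1 with h | h
    · calc (t : ℝ≥0∞) * dis Q (fun _ => (1 : ℝ)) t ^ M ≤ ((1 : ℝ≥0) : ℝ≥0∞) * 1 ^ M := by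
            gcongr
            exact dis_le_one hQ0 hQ _ _
        _ = _ := by rw [one_pow, mul_one]
    · have : dis Q (fun _ => (1 : ℝ)) t = 0 := by
        unfold dis
        have h1 : {x : Fin n → ℝ | (t : ℝ) < |(1 : ℝ)|} = ∅ := by
          ext x
          simp only [abs_one, mem_ofPred_eq, mem_empty_iff_false, iff_false, not_lt]
          exact_mod_cast h
        rw [h1, measure_empty, mul_zero]
      rw [this, zero_pow hM, mul_zero]
      exact zero_le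

theorem weak_fatou (hQ0 : volume Q ≠ 0) (F : ℕ → (Fin n → ℝ) → ℝ) (f : (Fin n → ℝ) → ℝ)
    (h : ∀ᵐ x ∂(volume.restrict Q), (∀ k, 0 ≤ F k x ∧ F k x ≤ F (k + 1) x) ∧
      Tendsto (fun k => F k x) atTop (𝓝 (f x))) : weakN Q M f = ⨆ k, weakN Q M (F k) := by
  have hle : ∀ᵐ x ∂(volume.restrict Q), (∀ j k, j ≤ k → |F j x| ≤ |F k x|) ∧ (∀ k, |F k x| ≤ |f x|) ∧
      (∀ t : ℝ, t < |f x| → ∃ k, t < |F k x|) := by
    filter_upwards [h] with x hx
    have hmono : Monotone (fun k => F k x) := monotone_nat_of_le_succ fun k => (hx.1 k).2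
    have hlim : ∀ k, F k x ≤ f x := fun k => hmono.ge_of_tendsto hx.2 k
    have hf0 : 0 ≤ f x := ((hx.1 0).1).trans (hlim 0)
    refine ⟨fun j k hjk => ?_, fun k => ?_, fun t ht => ?_⟩
    · rw [abs_of_nonneg (hx.1 j).1, abs_of_nonneg (hx.1 k).1]; exact hmono hjk
    · rw [abs_of_nonneg (hx.1 k).1, abs_of_nonneg hf0]; exact hlim k
    · rw [abs_of_nonneg hf0] at ht
      obtain ⟨k, hk⟩ := (hx.2.eventually (lt_mem_nhds ht)).exists
      exact ⟨k, by rw [abs_of_nonneg (hx.1 k).1]; exact hk⟩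
  refine le_antisymm ?_ (iSup_le fun k => weak_mono (hle.mono fun x hx => hx.2.1 k))
  refine iSup_le fun t => ?_
  have hmon : Monotone (fun k => dis Q (F k) t) := by
    intro j k hjk
    refine dis_mono (hle.mono fun x hx h1 => ?_)
    exact lt_of_lt_of_le h1 (hx.1 j k hjk)
  have hsup : dis Q f t ≤ ⨆ k, dis Q (F k) t := by
    unfold dis
    rw [← ENNReal.mul_iSup]
    gcongr
    calc (volume.restrict Q) {x | (t : ℝ) < |f x|} ≤ (volume.restrict Q) (⋃ k, {x | (t : ℝ) < |F k x|}) := by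
          refine measure_mono_ae (hle.mono fun x hx h1 => ?_)
          obtain ⟨k, hk⟩ := hx.2.2 t h1
          exact mem_iUnion.2 ⟨k, hk⟩
      _ = ⨆ k, (volume.restrict Q) (accumulate (fun k => {x | (t : ℝ) < |F k x|}) k) := measure_iUnion_eq_iSup_accumulate
      _ ≤ ⨆ k, (volume.restrict Q) {x | (t : ℝ) < |F k x|} := by
          refine iSup_mono fun k => measure_mono_ae (hle.mono fun x hx h1 => ?_)
          obtain ⟨j, hj, hj2⟩ := mem_accumulate.1 h1
          exact lt_of_lt_of_le (show (t : ℝ) < |F j x| from hj2) (hx.1 j k hj)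
  have h1 : Tendsto (fun k => (t : ℝ≥0∞) * dis Q (F k) t ^ M) atTop (𝓝 (t * (⨆ k, dis Q (F k) t) ^ M)) :=
    ENNReal.Tendsto.const_mul (((ENNReal.continuous_pow M).tendsto _).comp (tendsto_atTop_iSup hmon))
      (Or.inr ENNReal.coe_ne_top)
  have h2 : (t : ℝ≥0∞) * (⨆ k, dis Q (F k) t) ^ M ≤ ⨆ k, weakN Q M (F k) := by
    refine le_of_tendsto' h1 fun k => ?_
    exact le_iSup_of_le k (le_iSup (fun t : ℝ≥0 => (t : ℝ≥0∞) * dis Q (F k) t ^ M) t)
  refine le_trans ?_ h2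
  gcongr

/-- Markov -/
theorem weak_le_avg (hM : M ≠ 0) (hQ0 : volume Q ≠ 0) (hQ : volume Q ≠ ∞) {g : (Fin n → ℝ) → ℝ}
    (hg : AEMeasurable g (volume.restrict Q)) :
    weakN Q M g ≤ (volume Q)⁻¹ * ∫⁻ x in Q, ENNReal.ofReal |g x| := by
  refine iSup_le fun t => ?_
  have h1 : dis Q g t ^ M ≤ dis Q g t := by
    calc dis Q g t ^ M ≤ dis Q g t ^ 1 := pow_le_pow_of_le_one zero_le (dis_le_one hQ0 hQ g t) (by omega)
      _ = _ := pow_one _
  calc (t : ℝ≥0∞) * dis Q g t ^ M ≤ t * dis Q g t := by gcongr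
    _ = (volume Q)⁻¹ * (t * (volume.restrict Q) {x | (t : ℝ) < |g x|}) := by unfold dis; ring
    _ ≤ (volume Q)⁻¹ * ∫⁻ x in Q, ENNReal.ofReal |g x| := by
        gcongr
        refine le_trans (mul_le_mul' le_rfl (measure_mono ?_)) (mul_meas_ge_le_lintegral₀ (hg.abs.ennreal_ofReal) (t : ℝ≥0∞))
        intro x hx
        have hx' : (t : ℝ) < |g x| := hx
        show (t : ℝ≥0∞) ≤ ENNReal.ofReal |g x|
        rw [← ENNReal.ofReal_coe_nnreal]
        exact ENNReal.ofReal_le_ofReal hx'.le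

/-- the weak type space -/
noncomputable def weakSpace (hM : M ≠ 0) (hQ0 : volume Q ≠ 0) (hQ : volume Q ≠ ∞) : FSpace n Q where
  N := weakN Q M
  mono := fun _ _ _ _ h => weak_mono h
  eq_zero := fun _ _ h => weak_eq_zero hM hQ h
  smul := fun a f _ => weak_smul hM a f
  quasi := ⟨2 ^ (M + 1), fun f g _ _ => weak_quasi f g⟩
  pos := ⟨fun _ => 1, aemeasurable_const, lt_of_le_of_lt (weak_one hM hQ0 hQ).2 ENNReal.coe_lt_top,
    Eventually.of_forall fun _ => one_pos⟩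
  fatou := fun F f _ _ h => weak_fatou hQ0 F f h
  complete := complete_of_fatou (fun _ _ _ _ h => weak_mono h) (fun _ _ h => weak_eq_zero hM hQ h)
    (fun a f _ => weak_smul hM a f) ⟨2 ^ (M + 1), fun f g _ _ => weak_quasi f g⟩
    (fun F f _ _ h => weak_fatou hQ0 F f h)

end weak

end Pool.Agent.Q85.Bmo
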