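import Pool.Agent.Q85.Bmo4

set_option autoImplicit false
open MeasureTheory Set Filter Topology Metric
open scoped ENNReal NNReal

namespace Pool.Agent.Q85.Bmo

variable {n : ℕ} [NeZero n]

/-- the centre moved along the first axis -/
noncomputable def mv (c : Fin n → ℝ) (s : ℝ) : Fin n → ℝ := Function.update c 0 (c 0 + s)

theorem mv_zero (c : Fin n → ℝ) (s : ℝ) : mv c s 0 = c 0 + s := by
  unfold mv; rw [Function.update_self]

theorem dist_mv (c : Fin n → ℝ) (s : ℝ) : dist (mv c s) c ≤ |s| := by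
  rw [dist_pi_le_iff (abs_nonneg _)]
  intro i
  unfold mv
  by_cases h : i = 0
  · subst h
    rw [Function.update_self, Real.dist_eq]
    simp
  · rw [Function.update_of_ne h, dist_self]
    exact abs_nonneg _

theorem mv_sub {c : Fin n → ℝ} {s r r' : ℝ} (h : r' + |s| ≤ r) : closedBall (mv c s) r' ⊆ closedBall c r := by
  refine closedBall_subset_closedBall' ?_
  have := dist_mv c s
  linarith

theorem coord_mem {x y : Fin n → ℝ} {ρ : ℝ} (h : x ∈ closedBall y ρ) : |x 0 - y 0| ≤ ρ := by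
  have h1 := dist_le_pi_dist x y 0
  rw [Real.dist_eq] at h1
  exact h1.trans (mem_closedBall.1 h)

omit [NeZero n] in
theorem lower_sub {Q B : Set (Fin n → ℝ)} (hB : MeasurableSet B) (hBQ : B ⊆ Q) {g : (Fin n → ℝ) → ℝ≥0∞} {v : ℝ≥0∞}
    (h : ∀ x ∈ B, v ≤ g x) : v * volume B ≤ ∫⁻ x in Q, g x := by
  calc v * volume B = ∫⁻ x in B, v := by rw [setLIntegral_const]
    _ ≤ ∫⁻ x in B, g x := setLIntegral_mono' hB h
    _ ≤ ∫⁻ x in Q, g x := lintegral_mono_set hBQ

omit [NeZero n] in
theorem vol_quarter (c c' : Fin n → ℝ) {r : ℝ} (hr : 0 < r) :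
    volume (closedBall c' (r / 4)) = ENNReal.ofReal ((1 / 4) ^ n) * volume (closedBall c r) := by
  rw [← vol_ball_mul c' c (by norm_num) hr.le]
  congr 2
  ring

theorem avg_coord (c : Fin n → ℝ) {r : ℝ} (hr : 0 < r) : (⨍ y in closedBall c r, y 0) = c 0 := by
  have hI : IntegrableOn (fun y : Fin n → ℝ => y 0) (closedBall c r) :=
    (continuous_apply 0).locallyIntegrable.integrableOn_isCompact (isCompact_closedBall c r)
  have h0 : ∫ y in closedBall c r, (y 0 - c 0) = 0 := by
    have h1 : MeasurePreserving (fun x : Fin n → ℝ => (c + c) - x) volume volume := Measure.measurePreserving_sub_left volume (c + c)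
    have h2 := h1.setIntegral_preimage_emb (MeasurableEquiv.subLeft (c + c)).measurableEmbedding
      (fun y : Fin n → ℝ => y 0 - c 0) (closedBall c r)
    have h3 : (fun x : Fin n → ℝ => (c + c) - x) ⁻¹' (closedBall c r) = closedBall c r := by
      ext x
      rw [mem_preimage, mem_closedBall, mem_closedBall, dist_eq_norm, dist_eq_norm,
        show c + c - x - c = -(x - c) by abel, norm_neg]
    rw [h3] at h2
    have h4 : ∀ x : Fin n → ℝ, ((c + c) - x) 0 - c 0 = -(x 0 - c 0) := by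
      intro x
      simp only [Pi.sub_apply, Pi.add_apply]
      ring
    simp only [h4] at h2
    rw [integral_neg] at h2
    linarith
  rw [integral_sub hI (integrableOn_const (vol_ne_top c r)), setIntegral_const, smul_eq_mul, sub_eq_zero] at h0
  rw [setAverage_eq, smul_eq_mul, h0, ← mul_assoc, inv_mul_cancel₀, one_mul]
  rw [measureReal_def]
  exact (ENNReal.toReal_pos (vol_pos c hr).ne' (vol_ne_top c r)).ne'

theorem exists_M (n : ℕ) (r : ℝ) : ∃ M : ℕ, M ≠ 0 ∧ (1 ≤ r → r * (1 - (1 / r) ^ n) ^ M ≤ 1) := by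
  by_cases hr : 1 ≤ r
  · have h1 : 0 < (1 / r) ^ n := by positivity
    have h2 : (1 / r) ^ n ≤ 1 := pow_le_one₀ (by positivity) (by rw [div_le_one (by linarith)]; exact hr)
    have h3 : Tendsto (fun M : ℕ => r * (1 - (1 / r) ^ n) ^ M) atTop (𝓝 (r * 0)) :=
      (tendsto_pow_atTop_nhds_zero_of_lt_one (by linarith) (by linarith)).const_mul r
    rw [mul_zero] at h3
    obtain ⟨M, hM, hM2⟩ := ((h3.eventually (gt_mem_nhds one_pos)).and (eventually_ge_atTop 1)).exists
    exact ⟨M, by omega, fun _ => hM.le⟩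
  · exact ⟨1, one_ne_zero, fun h => absurd h hr⟩

/-- the exponents -/
noncomputable def Mex (n : ℕ) (r : ℝ) : ℕ := (exists_M n r).choose

theorem Mex_ne (n : ℕ) (r : ℝ) : Mex n r ≠ 0 := (exists_M n r).choose_spec.1

theorem Mex_le (n : ℕ) {r : ℝ} (hr : 1 ≤ r) : r * (1 - (1 / r) ^ n) ^ (Mex n r) ≤ 1 :=
  (exists_M n r).choose_spec.2 hr

/-- the family with non-uniform quasi-triangle constants -/
noncomputable def XB (n : ℕ) : Family n := fun c r hr =>
  weakSpace (Mex_ne n r) (vol_pos c hr).ne' (vol_ne_top c r)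

theorem XB_normalized (n : ℕ) : Normalized (XB n) :=
  ⟨1 / 2, 1, by norm_num, fun c r hr => weak_one (Mex_ne n r) (vol_pos c hr).ne' (vol_ne_top c r)⟩

theorem XB_embeds (n : ℕ) : BMOToX (XB n) := by
  refine ⟨1, fun f hf _ => ?_⟩
  rw [ENNReal.coe_one, one_mul]
  refine iSup_le fun c => iSup_le fun r => iSup_le fun hr => ?_
  refine (weak_le_avg (Mex_ne n r) (vol_pos c hr).ne' (vol_ne_top c r)
    (hf.aestronglyMeasurable.aemeasurable.sub_const _).restrict).trans ?_
  exact le_iSup_of_le c (le_iSup_of_le r (le_iSup_of_le hr le_rfl))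

theorem dis_coord (c : Fin n → ℝ) {r : ℝ} (hr : 1 ≤ r) {t : ℝ≥0} (ht : 1 ≤ t) :
    dis (closedBall c r) (fun x => x 0 - c 0) t ≤ ENNReal.ofReal (1 - (1 / r) ^ n) := by
  have hr0 : 0 < r := by linarith
  unfold dis
  have h1 : (volume.restrict (closedBall c r)) {x | (t : ℝ) < |x 0 - c 0|} ≤ volume (closedBall c r \ closedBall c 1) := by
    rw [Measure.restrict_apply' measurableSet_closedBall]
    refine measure_mono ?_
    rintro x ⟨hx1, hx2⟩
    refine ⟨hx2, fun hx3 => ?_⟩
    have hx4 : (t : ℝ) < |x 0 - c 0| := hx1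
    have hx5 := coord_mem hx3
    have ht' : (1 : ℝ) ≤ t := by exact_mod_cast ht
    linarith
  rw [measure_sdiff (closedBall_subset_closedBall hr) measurableSet_closedBall.nullMeasurableSet (vol_ne_top c 1),
    vol_ball c hr0.le, vol_ball c zero_le_one, ← ENNReal.ofReal_sub _ (by positivity)] at h1
  rw [vol_ball c hr0.le]
  refine (mul_le_mul' le_rfl h1).trans (le_of_eq ?_)
  rw [← ENNReal.ofReal_inv_of_pos (by positivity), ← ENNReal.ofReal_mul (by positivity)]
  congr 1
  rw [one_div, inv_pow, mul_pow, mul_pow, one_pow]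
  field_simp

theorem XB_coord : bmoX (XB n) (fun x => x 0) ≤ 1 := by
  refine iSup_le fun c => iSup_le fun r => iSup_le fun hr => ?_
  rw [avg_coord c hr]
  refine iSup_le fun t => ?_
  rcases lt_or_ge t 1 with ht | ht
  · calc (t : ℝ≥0∞) * dis (closedBall c r) (fun x => x 0 - c 0) t ^ (Mex n r) ≤ ((1 : ℝ≥0) : ℝ≥0∞) * 1 ^ (Mex n r) := by
          gcongr
          exact dis_le_one (vol_pos c hr).ne' (vol_ne_top c r) _ _
      _ = 1 := by rw [one_pow, mul_one, ENNReal.coe_one]
  · rcases lt_or_ge (t : ℝ) r with htr | htr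
    · have hr1 : 1 ≤ r := by
        have ht' : (1 : ℝ) ≤ t := by exact_mod_cast ht
        linarith
      have h1 := Mex_le n hr1
      have h2 := dis_coord c hr1 ht
      have h3 : (t : ℝ≥0∞) ≤ ENNReal.ofReal r := by
        rw [← ENNReal.ofReal_coe_nnreal]
        exact ENNReal.ofReal_le_ofReal htr.le
      have h4 : (0 : ℝ) ≤ 1 - (1 / r) ^ n := by
        have : (1 / r) ^ n ≤ 1 := pow_le_one₀ (by positivity) (by rw [div_le_one (by linarith)]; exact hr1)
        linarith
      calc (t : ℝ≥0∞) * dis (closedBall c r) (fun x => x 0 - c 0) t ^ (Mex n r)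
          ≤ ENNReal.ofReal r * ENNReal.ofReal (1 - (1 / r) ^ n) ^ (Mex n r) := by gcongr
        _ = ENNReal.ofReal (r * (1 - (1 / r) ^ n) ^ (Mex n r)) := by
            rw [ENNReal.ofReal_mul hr.le, ENNReal.ofReal_pow h4]
        _ ≤ 1 := by rw [← ENNReal.ofReal_one]; exact ENNReal.ofReal_le_ofReal h1
    · have : dis (closedBall c r) (fun x => x 0 - c 0) t = 0 := by
        unfold dis
        have h1 : (volume.restrict (closedBall c r)) {x | (t : ℝ) < |x 0 - c 0|} = 0 := by
          rw [Measure.restrict_apply' measurableSet_closedBall]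
          refine measure_mono_null (t := ∅) ?_ measure_empty
          rintro x ⟨hx1, hx2⟩
          have hx4 : (t : ℝ) < |x 0 - c 0| := hx1
          have hx5 := coord_mem hx2
          linarith
        rw [h1, mul_zero]
      rw [this, zero_pow (Mex_ne n r), mul_zero]
      exact zero_le

theorem bmo_coord {r : ℝ} (hr : 0 < r) :
    ENNReal.ofReal (r / 2 * (1 / 4) ^ n) ≤ bmo (fun x : Fin n → ℝ => x 0) := by
  have h1 : ENNReal.ofReal (r / 2) * volume (closedBall (mv (0 : Fin n → ℝ) (3 / 4 * r)) (r / 4)) ≤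
      ∫⁻ x in closedBall (0 : Fin n → ℝ) r, ENNReal.ofReal |x 0 - ⨍ y in closedBall (0 : Fin n → ℝ) r, y 0| := by
    refine lower_sub measurableSet_closedBall (mv_sub ?_) ?_
    · rw [abs_of_pos (by positivity)]; linarith
    · intro x hx
      refine ENNReal.ofReal_le_ofReal ?_
      rw [avg_coord 0 hr]
      have h2 := coord_mem hx
      rw [mv_zero] at h2
      have h3 := (abs_le.1 h2).1
      refine le_trans ?_ (le_abs_self _)
      simp only [Pi.zero_apply] at h3 ⊢
      linarith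
  rw [vol_quarter (0 : Fin n → ℝ) _ hr, ← mul_assoc, ← ENNReal.ofReal_mul (by positivity)] at h1
  unfold bmo
  refine le_trans ?_ (le_iSup_of_le (0 : Fin n → ℝ) (le_iSup_of_le r (le_iSup_of_le hr le_rfl)))
  rw [mul_comm (volume (closedBall (0 : Fin n → ℝ) r))⁻¹, ← div_eq_mul_inv]
  rwa [ENNReal.le_div_iff_mul_le (Or.inl (vol_pos _ hr).ne') (Or.inl (vol_ne_top _ r))]

theorem XB_not : ¬ XToBMO (XB n) := by
  rintro ⟨C, hC⟩
  have h1 := hC (fun x => x 0) (continuous_apply 0).locallyIntegrable (lt_of_le_of_lt XB_coord ENNReal.one_lt_top)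
  have h2 : bmo (fun x : Fin n → ℝ => x 0) ≤ C := by
    refine h1.trans ?_
    calc (C : ℝ≥0∞) * bmoX (XB n) (fun x => x 0) ≤ C * 1 := by gcongr; exact XB_coord
      _ = C := mul_one _
  have h4 : (0 : ℝ) < (1 / 4) ^ n := by positivity
  have h3 := (bmo_coord (n := n) (r := 2 * (C + 1) / (1 / 4) ^ n) (by positivity)).trans h2
  rw [← ENNReal.ofReal_coe_nnreal, ENNReal.ofReal_le_ofReal_iff C.coe_nonneg] at h3
  have h5 : 2 * ((C : ℝ) + 1) / (1 / 4) ^ n / 2 * (1 / 4) ^ n = C + 1 := by field_simp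
  rw [h5] at h3
  linarith

end Pool.Agent.Q85.Bmo
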