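import Pool.Agent.Q85.Bmo5

set_option autoImplicit false
open MeasureTheory Set Filter Topology Metric
open scoped ENNReal NNReal

namespace Pool.Agent.Q85.Bmo

variable {n : ℕ}

/-! ### weighted `L¹` spaces -/

section weighted

variable {Q : Set (Fin n → ℝ)} {w : (Fin n → ℝ) → ℝ}

/-- weighted `L¹` norm -/
noncomputable def wN (Q : Set (Fin n → ℝ)) (w : (Fin n → ℝ) → ℝ) (g : (Fin n → ℝ) → ℝ) : ℝ≥0∞ :=
  (volume Q)⁻¹ * ∫⁻ x in Q, ENNReal.ofReal (|g x| * w x)

theorem wN_mono (hw : ∀ x, 0 < w x) {f g : (Fin n → ℝ) → ℝ} (h : ∀ᵐ x ∂(volume.restrict Q), |f x| ≤ |g x|) :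
    wN Q w f ≤ wN Q w g := by
  unfold wN
  refine mul_le_mul' le_rfl (lintegral_mono_ae ?_)
  filter_upwards [h] with x hx
  exact ENNReal.ofReal_le_ofReal (mul_le_mul_of_nonneg_right hx (hw x).le)

theorem wN_eq_zero (hwm : Measurable w) (hw : ∀ x, 0 < w x) (hQ : volume Q ≠ ∞) {f : (Fin n → ℝ) → ℝ}
    (hf : AEMeasurable f (volume.restrict Q)) (h : wN Q w f = 0) : ∀ᵐ x ∂(volume.restrict Q), f x = 0 := by
  unfold wN at h
  have hm : AEMeasurable (fun x => ENNReal.ofReal (|f x| * w x)) (volume.restrict Q) :=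
    (hf.abs.mul hwm.aemeasurable).ennreal_ofReal
  rcases mul_eq_zero.1 h with h1 | h1
  · exact absurd (ENNReal.inv_eq_zero.1 h1) hQ
  · rw [lintegral_eq_zero_iff' hm] at h1
    filter_upwards [h1] with x hx
    have h2 : |f x| * w x ≤ 0 := ENNReal.ofReal_eq_zero.1 hx
    have h3 := hw x
    by_contra hne
    have := abs_pos.2 hne
    nlinarith [mul_pos this h3]

theorem wN_smul (a : ℝ) (f : (Fin n → ℝ) → ℝ) : wN Q w (fun x => a * f x) = ENNReal.ofReal |a| * wN Q w f := by
  unfold wN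
  have h1 : ∀ x, ENNReal.ofReal (|a * f x| * w x) = ENNReal.ofReal |a| * ENNReal.ofReal (|f x| * w x) := by
    intro x
    rw [abs_mul, mul_assoc, ENNReal.ofReal_mul (abs_nonneg a)]
  simp only [h1]
  rw [lintegral_const_mul' _ _ ENNReal.ofReal_ne_top]
  ring

theorem wN_add (hwm : Measurable w) (hw : ∀ x, 0 < w x) {f : (Fin n → ℝ) → ℝ} (g : (Fin n → ℝ) → ℝ)
    (hf : AEMeasurable f (volume.restrict Q)) :
    wN Q w (fun x => f x + g x) ≤ ((1 : ℝ≥0) : ℝ≥0∞) * (wN Q w f + wN Q w g) := by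
  have hm : AEMeasurable (fun x => ENNReal.ofReal (|f x| * w x)) (volume.restrict Q) :=
    (hf.abs.mul hwm.aemeasurable).ennreal_ofReal
  unfold wN
  rw [ENNReal.coe_one, one_mul, ← mul_add, ← lintegral_add_left' hm]
  refine mul_le_mul' le_rfl (lintegral_mono fun x => ?_)
  rw [← ENNReal.ofReal_add (mul_nonneg (abs_nonneg _) (hw x).le) (mul_nonneg (abs_nonneg _) (hw x).le), ← add_mul]
  exact ENNReal.ofReal_le_ofReal (mul_le_mul_of_nonneg_right (abs_add_le _ _) (hw x).le)

theorem wN_one_le (hw1 : ∀ x, w x ≤ 1) (hQ0 : volume Q ≠ 0) (hQ : volume Q ≠ ∞) : wN Q w (fun _ => 1) ≤ 1 := by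
  unfold wN
  calc (volume Q)⁻¹ * ∫⁻ x in Q, ENNReal.ofReal (|(1 : ℝ)| * w x) ≤ (volume Q)⁻¹ * ∫⁻ x in Q, 1 := by
        refine mul_le_mul' le_rfl (lintegral_mono fun x => ?_)
        rw [abs_one, one_mul, ← ENNReal.ofReal_one]
        exact ENNReal.ofReal_le_ofReal (hw1 x)
    _ = 1 := by rw [setLIntegral_const, one_mul, ENNReal.inv_mul_cancel hQ0 hQ]

theorem wN_fatou (hwm : Measurable w) (hw : ∀ x, 0 < w x) (F : ℕ → (Fin n → ℝ) → ℝ) (f : (Fin n → ℝ) → ℝ)
    (hF : ∀ k, AEMeasurable (F k) (volume.restrict Q))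
    (h : ∀ᵐ x ∂(volume.restrict Q), (∀ k, 0 ≤ F k x ∧ F k x ≤ F (k + 1) x) ∧
      Tendsto (fun k => F k x) atTop (𝓝 (f x))) : wN Q w f = ⨆ k, wN Q w (F k) := by
  unfold wN
  rw [← ENNReal.mul_iSup]
  congr 1
  have h1 : Tendsto (fun k => ∫⁻ x in Q, ENNReal.ofReal (|F k x| * w x)) atTop (𝓝 (∫⁻ x in Q, ENNReal.ofReal (|f x| * w x))) := by
    refine lintegral_tendsto_of_tendsto_of_monotone (fun k => ((hF k).abs.mul hwm.aemeasurable).ennreal_ofReal) ?_ ?_
    · filter_upwards [h] with x hx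
      refine monotone_nat_of_le_succ fun k => ENNReal.ofReal_le_ofReal (mul_le_mul_of_nonneg_right ?_ (hw x).le)
      rw [abs_of_nonneg (hx.1 k).1, abs_of_nonneg (hx.1 (k + 1)).1]
      exact (hx.1 k).2
    · filter_upwards [h] with x hx
      exact (ENNReal.continuous_ofReal.tendsto _).comp ((hx.2.abs).mul_const _)
  have h2 : Monotone (fun k => ∫⁻ x in Q, ENNReal.ofReal (|F k x| * w x)) := by
    refine monotone_nat_of_le_succ fun k => lintegral_mono_ae ?_
    filter_upwards [h] with x hx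
    refine ENNReal.ofReal_le_ofReal (mul_le_mul_of_nonneg_right ?_ (hw x).le)
    rw [abs_of_nonneg (hx.1 k).1, abs_of_nonneg (hx.1 (k + 1)).1]
    exact (hx.1 k).2
  exact tendsto_nhds_unique h1 (tendsto_atTop_iSup h2)

/-- the weighted `L¹` space -/
noncomputable def wSpace (hwm : Measurable w) (hw : ∀ x, 0 < w x) (hw1 : ∀ x, w x ≤ 1)
    (hQ0 : volume Q ≠ 0) (hQ : volume Q ≠ ∞) : FSpace n Q where
  N := wN Q w
  mono := fun _ _ _ _ h => wN_mono hw h
  eq_zero := fun _ hf h => wN_eq_zero hwm hw hQ hf h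
  smul := fun a f _ => wN_smul a f
  quasi := ⟨1, fun _ g hf _ => wN_add hwm hw g hf⟩
  pos := ⟨fun _ => 1, aemeasurable_const, lt_of_le_of_lt (wN_one_le hw1 hQ0 hQ) ENNReal.one_lt_top,
    Eventually.of_forall fun _ => one_pos⟩
  fatou := fun F f hF _ h => wN_fatou hwm hw F f hF h
  complete := complete_of_fatou (fun _ _ _ _ h => wN_mono hw h) (fun _ hf h => wN_eq_zero hwm hw hQ hf h)
    (fun a f _ => wN_smul a f) ⟨1, fun _ g hf _ => wN_add hwm hw g hf⟩
    (fun F f hF _ h => wN_fatou hwm hw F f hF h)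

end weighted

/-! ### the step function -/

variable [NeZero n]

/-- `f(x) = 2^⌊log₂ |x₀|⌋` -/
noncomputable def stp (x : Fin n → ℝ) : ℝ := (2 : ℝ) ^ (Int.log 2 |x 0|)

theorem stp_measurable : Measurable (stp (n := n)) := by
  unfold stp
  have h1 : Measurable (fun y : ℝ => Int.log 2 |y|) := by
    have h2 : Measurable (fun y : ℝ => Int.log 2 y) := by
      refine measurable_to_countable' fun k => ?_
      have h3 : (fun y : ℝ => Int.log 2 y) ⁻¹' {k} = {y : ℝ | (0 < y ∧ (2 : ℝ) ^ k ≤ y ∧ y < (2 : ℝ) ^ (k + 1)) ∨ (y ≤ 0 ∧ k = 0)} := by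
        ext y
        simp only [mem_preimage, mem_singleton_iff, mem_ofPred_eq]
        rcases lt_or_ge 0 y with hy | hy
        · have e1 : (2 : ℝ) ^ k ≤ y ↔ k ≤ Int.log 2 y := by
            have := Int.zpow_le_iff_le_log (b := 2) (R := ℝ) one_lt_two (x := k) hy
            push_cast at this
            exact this
          have e2 : y < (2 : ℝ) ^ (k + 1) ↔ Int.log 2 y < k + 1 := by
            have := Int.lt_zpow_iff_log_lt (b := 2) (R := ℝ) one_lt_two (x := k + 1) hy
            push_cast at this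
            exact this
          rw [e1, e2]
          constructor
          · intro h; left; exact ⟨hy, by omega, by omega⟩
          · rintro (⟨_, h1, h2⟩ | ⟨h1, _⟩)
            · omega
            · linarith
        · rw [Int.log_of_right_le_zero _ hy]
          constructor
          · intro h; right; exact ⟨hy, h.symm⟩
          · rintro (⟨h, _⟩ | ⟨_, h⟩)
            · linarith
            · exact h.symm
      rw [h3]
      measurability
    exact h2.comp measurable_abs
  have h4 : Measurable (fun x : Fin n → ℝ => Int.log 2 |x 0|) := h1.comp (measurable_pi_apply 0)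
  exact (measurable_from_top (f := fun k : ℤ => (2 : ℝ) ^ k)).comp h4

theorem log_eq {y : ℝ} {k : ℤ} (h1 : (2 : ℝ) ^ k ≤ y) (h2 : y < (2 : ℝ) ^ (k + 1)) : Int.log 2 y = k := by
  have hy : 0 < y := lt_of_lt_of_le (by positivity) h1
  have e1 := (Int.zpow_le_iff_le_log (b := 2) (R := ℝ) one_lt_two (x := k) hy).1 (by push_cast; exact h1)
  have e2 := (Int.lt_zpow_iff_log_lt (b := 2) (R := ℝ) one_lt_two (x := k + 1) hy).1 (by push_cast; exact h2)
  omega

/-- every cube has a value taken on a fixed proportion of the cube -/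
theorem majority (c : Fin n → ℝ) {r : ℝ} (hr : 0 < r) : ∃ v : ℝ,
    ENNReal.ofReal (1 / 2 * (1 / 4) ^ n) * volume (closedBall c r) ≤ volume (closedBall c r ∩ {x | stp x = v}) := by
  obtain ⟨s, hs, hcs⟩ : ∃ s : ℝ, |s| = 1 ∧ s * c 0 = |c 0| := by
    rcases le_total 0 (c 0) with h | h
    · exact ⟨1, by simp, by rw [one_mul, abs_of_nonneg h]⟩
    · exact ⟨-1, by simp, by rw [abs_of_nonpos h]; ring⟩
  set c' := mv c (3 / 4 * r * s) with hc'
  set M := |c 0| + r with hM
  have hM0 : 0 < M := by have := abs_nonneg (c 0); linarith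
  set k := Int.log 2 M with hk
  have hk1 : (2 : ℝ) ^ k ≤ M := by
    have := Int.zpow_log_le_self (b := 2) (R := ℝ) one_lt_two hM0
    push_cast at this; exact this
  have hk2 : M < (2 : ℝ) ^ (k + 1) := by
    have := Int.lt_zpow_succ_log_self (b := 2) (R := ℝ) one_lt_two M
    push_cast at this; exact this
  have hsub : closedBall c' (r / 4) ⊆ closedBall c r := by
    refine mv_sub ?_
    rw [abs_mul, hs, abs_of_pos (by positivity)]; linarith
  have hval : ∀ x ∈ closedBall c' (r / 4), stp x = (2 : ℝ) ^ (k - 1) ∨ stp x = (2 : ℝ) ^ k := by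
    intro x hx
    have h1 := coord_mem hx
    rw [hc', mv_zero] at h1
    have hss : s * s = 1 := by
      have := abs_mul_abs_self s
      rw [hs] at this; linarith
    -- multiply by the sign
    have h2 : |s * x 0 - (|c 0| + 3 / 4 * r)| ≤ r / 4 := by
      have : s * x 0 - (|c 0| + 3 / 4 * r) = s * (x 0 - (c 0 + 3 / 4 * r * s)) := by
        rw [← hcs]
        linear_combination (3 / 4 * r) * hss
      rw [this, abs_mul, hs, one_mul]
      exact h1
    have h3 := abs_le.1 h2
    have h4 : |x 0| = s * x 0 := by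
      have h5 : |s * x 0| = |x 0| := by rw [abs_mul, hs, one_mul]
      rw [← h5, abs_of_nonneg]
      have := abs_nonneg (c 0)
      linarith [h3.1]
    have h6 : M / 2 ≤ |x 0| := by
      rw [h4, hM]; have := abs_nonneg (c 0); linarith [h3.1]
    have h7 : |x 0| ≤ M := by
      rw [h4, hM]; linarith [h3.2]
    have h8 : (2 : ℝ) ^ (k - 1) ≤ |x 0| := by
      have : (2 : ℝ) ^ (k - 1) = 2 ^ k / 2 := by
        rw [zpow_sub₀ two_ne_zero, zpow_one]
      rw [this]; linarith
    unfold stp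
    rcases lt_or_ge |x 0| ((2 : ℝ) ^ k) with h | h
    · left
      rw [log_eq h8 (by rw [sub_add_cancel]; exact h)]
    · right
      rw [log_eq h (lt_of_le_of_lt h7 hk2)]
  set A := closedBall c' (r / 4) ∩ {x | stp x = (2 : ℝ) ^ (k - 1)} with hA
  set B := closedBall c' (r / 4) ∩ {x | stp x = (2 : ℝ) ^ k} with hB
  have hvol : ENNReal.ofReal ((1 / 4) ^ n) * volume (closedBall c r) ≤ volume A + volume B := by
    rw [← vol_quarter c c' hr]
    refine (measure_mono ?_).trans (measure_union_le A B)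
    intro x hx
    rcases hval x hx with h | h
    · exact Or.inl ⟨hx, h⟩
    · exact Or.inr ⟨hx, h⟩
  have hhalf : 2 * (ENNReal.ofReal (1 / 2 * (1 / 4) ^ n) * volume (closedBall c r)) =
      ENNReal.ofReal ((1 / 4) ^ n) * volume (closedBall c r) := by
    rw [← mul_assoc]
    congr 1
    rw [← ENNReal.ofReal_ofNat 2, ← ENNReal.ofReal_mul two_pos.le]
    congr 1
    ring
  rcases le_total (volume A) (volume B) with h | h
  · refine ⟨(2 : ℝ) ^ k, ?_⟩
    have h1 : volume B ≤ volume (closedBall c r ∩ {x | stp x = (2 : ℝ) ^ k}) :=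
      measure_mono (inter_subset_inter_left _ hsub)
    refine le_trans ?_ h1
    have h2 : 2 * (ENNReal.ofReal (1 / 2 * (1 / 4) ^ n) * volume (closedBall c r)) ≤ 2 * volume B := by
      rw [hhalf, two_mul]
      exact hvol.trans (by gcongr)
    exact (ENNReal.mul_le_mul_iff_right two_ne_zero ENNReal.ofNat_ne_top).1 h2
  · refine ⟨(2 : ℝ) ^ (k - 1), ?_⟩
    have h1 : volume A ≤ volume (closedBall c r ∩ {x | stp x = (2 : ℝ) ^ (k - 1)}) :=
      measure_mono (inter_subset_inter_left _ hsub)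
    refine le_trans ?_ h1
    have h2 : 2 * (ENNReal.ofReal (1 / 2 * (1 / 4) ^ n) * volume (closedBall c r)) ≤ 2 * volume A := by
      rw [hhalf, two_mul]
      exact hvol.trans (by gcongr)
    exact (ENNReal.mul_le_mul_iff_right two_ne_zero ENNReal.ofNat_ne_top).1 h2

/-- the value -/
noncomputable def cv (c : Fin n → ℝ) {r : ℝ} (hr : 0 < r) : ℝ := (majority c hr).choose

/-- the weight -/
noncomputable def wt (c : Fin n → ℝ) {r : ℝ} (hr : 0 < r) (x : Fin n → ℝ) : ℝ := 1 / (1 + |stp x - cv c hr|)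

theorem wt_measurable (c : Fin n → ℝ) {r : ℝ} (hr : 0 < r) : Measurable (wt c hr) := by
  unfold wt
  exact measurable_const.div (measurable_const.add (stp_measurable.sub_const _).abs)

theorem wt_pos (c : Fin n → ℝ) {r : ℝ} (hr : 0 < r) (x : Fin n → ℝ) : 0 < wt c hr x := by
  unfold wt; positivity

theorem wt_le_one (c : Fin n → ℝ) {r : ℝ} (hr : 0 < r) (x : Fin n → ℝ) : wt c hr x ≤ 1 := by
  unfold wt
  rw [div_le_one (by positivity)]
  have := abs_nonneg (stp x - cv c hr)
  linarith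

variable (n) in
/-- the family of weighted `L¹` spaces -/
noncomputable def XC : Family n := fun c r hr =>
  wSpace (wt_measurable c hr) (wt_pos c hr) (wt_le_one c hr) (vol_pos c hr).ne' (vol_ne_top c r)

variable (n) in
theorem XC_normalized : Normalized (XC n) := by
  refine ⟨1 / 2 * (1 / 4) ^ n, 1, by positivity, fun c r hr => ⟨?_, ?_⟩⟩
  · have h1 := (majority c hr).choose_spec
    have h0 : ((1 / 2 * (1 / 4) ^ n : ℝ≥0) : ℝ≥0∞) = ENNReal.ofReal (1 / 2 * (1 / 4) ^ n) := by
      rw [← ENNReal.ofReal_coe_nnreal]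
      push_cast
      rfl
    rw [h0]
    show _ ≤ (volume (closedBall c r))⁻¹ * ∫⁻ x in closedBall c r, ENNReal.ofReal (|(1 : ℝ)| * wt c hr x)
    rw [mul_comm (volume (closedBall c r))⁻¹, ← div_eq_mul_inv,
      ENNReal.le_div_iff_mul_le (Or.inl (vol_pos _ hr).ne') (Or.inl (vol_ne_top _ r))]
    refine h1.trans ?_
    rw [← one_mul (volume (closedBall c r ∩ _))]
    refine lower_sub (measurableSet_closedBall.inter (stp_measurable (measurableSet_singleton _))) inter_subset_left ?_
    rintro x ⟨_, hx⟩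
    have hx' : stp x = cv c hr := hx
    rw [abs_one, one_mul, ← ENNReal.ofReal_one]
    refine ENNReal.ofReal_le_ofReal ?_
    unfold wt
    rw [hx', sub_self, abs_zero, add_zero, div_one]
  · exact wN_one_le (wt_le_one c hr) (vol_pos c hr).ne' (vol_ne_top c r)

variable (n) in
theorem XC_banach : QuasiConst (XC n) 1 := by
  intro c r hr f g hf _
  exact wN_add (wt_measurable c hr) (wt_pos c hr) g hf

variable (n) in
theorem XC_embeds : BMOToX (XC n) := by
  refine ⟨1, fun f _ _ => ?_⟩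
  rw [ENNReal.coe_one, one_mul]
  refine iSup_le fun c => iSup_le fun r => iSup_le fun hr => ?_
  refine le_trans ?_ (le_iSup_of_le c (le_iSup_of_le r (le_iSup_of_le hr le_rfl)))
  refine mul_le_mul' le_rfl (lintegral_mono fun x => ENNReal.ofReal_le_ofReal ?_)
  have h1 := wt_le_one c hr x
  have h2 := abs_nonneg (f x - ⨍ y in closedBall c r, f y)
  nlinarith

theorem XC_stp : bmoStar (XC n) stp ≤ 1 := by
  refine iSup_le fun c => iSup_le fun r => iSup_le fun hr => iInf_le_of_le (cv c hr) ?_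
  show (volume (closedBall c r))⁻¹ * ∫⁻ x in closedBall c r, ENNReal.ofReal (|stp x - cv c hr| * wt c hr x) ≤ 1
  calc (volume (closedBall c r))⁻¹ * ∫⁻ x in closedBall c r, ENNReal.ofReal (|stp x - cv c hr| * wt c hr x)
      ≤ (volume (closedBall c r))⁻¹ * ∫⁻ x in closedBall c r, 1 := by
        refine mul_le_mul' le_rfl (lintegral_mono fun x => ?_)
        rw [← ENNReal.ofReal_one]
        refine ENNReal.ofReal_le_ofReal ?_
        unfold wt
        rw [mul_one_div, div_le_one (by positivity)]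
        linarith
    _ = 1 := by rw [setLIntegral_const, one_mul, ENNReal.inv_mul_cancel (vol_pos c hr).ne' (vol_ne_top c r)]

theorem bmo_stp (k : ℕ) : ENNReal.ofReal ((1 / 4) ^ n * 2 ^ k) ≤ bmo (stp (n := n)) := by
  set c : Fin n → ℝ := mv 0 (2 ^ (k + 1)) with hc
  have hc0 : c 0 = 2 ^ (k + 1) := by rw [hc, mv_zero, Pi.zero_apply, zero_add]
  have hp : (1 : ℝ) ≤ 2 ^ k := one_le_pow₀ (by norm_num)
  have hpp : (2 : ℝ) ^ (k + 1) = 2 * 2 ^ k := by ring
  set a := ⨍ y in closedBall c 1, stp y with ha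
  set L := closedBall (mv c (-1 / 2)) (1 / 4) with hL
  set R := closedBall (mv c (1 / 2)) (1 / 4) with hR
  have hLsub : L ⊆ closedBall c 1 := by
    refine mv_sub ?_
    rw [abs_of_nonpos (by norm_num)]; norm_num
  have hRsub : R ⊆ closedBall c 1 := by
    refine mv_sub ?_
    rw [abs_of_nonneg (by norm_num)]; norm_num
  have hLval : ∀ x ∈ L, stp x = 2 ^ k := by
    intro x hx
    have h1 := coord_mem hx
    rw [mv_zero, hc0] at h1
    have h2 := abs_le.1 h1
    have h3 : 0 ≤ x 0 := by nlinarith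
    unfold stp
    rw [abs_of_nonneg h3, log_eq (k := (k : ℤ))]
    · rw [zpow_natCast]
    · rw [zpow_natCast]; linarith
    · rw [show ((k : ℤ) + 1) = ((k + 1 : ℕ) : ℤ) by push_cast; ring, zpow_natCast]; linarith
  have hRval : ∀ x ∈ R, stp x = 2 * 2 ^ k := by
    intro x hx
    have h1 := coord_mem hx
    rw [mv_zero, hc0] at h1
    have h2 := abs_le.1 h1
    have h3 : 0 ≤ x 0 := by nlinarith
    unfold stp
    rw [abs_of_nonneg h3, log_eq (k := ((k + 1 : ℕ) : ℤ))]
    · rw [zpow_natCast]; ring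
    · rw [zpow_natCast]; linarith
    · rw [show (((k + 1 : ℕ) : ℤ) + 1) = ((k + 2 : ℕ) : ℤ) by push_cast; ring, zpow_natCast]
      have : (2 : ℝ) ^ (k + 2) = 4 * 2 ^ k := by ring
      linarith
  have hvL : volume L = ENNReal.ofReal ((1 / 4) ^ n) * volume (closedBall c 1) := by
    rw [hL]; exact vol_quarter c _ one_pos
  have hvR : volume R = ENNReal.ofReal ((1 / 4) ^ n) * volume (closedBall c 1) := by
    rw [hR]; exact vol_quarter c _ one_pos
  have hdisj : Disjoint L R := by
    rw [Set.disjoint_left]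
    intro x hx1 hx2
    have h1 := hLval x hx1
    rw [hRval x hx2] at h1
    linarith
  have key : ENNReal.ofReal (2 ^ k) * (ENNReal.ofReal ((1 / 4) ^ n) * volume (closedBall c 1)) ≤
      ∫⁻ x in closedBall c 1, ENNReal.ofReal |stp x - a| := by
    calc ENNReal.ofReal (2 ^ k) * (ENNReal.ofReal ((1 / 4) ^ n) * volume (closedBall c 1))
        ≤ (ENNReal.ofReal |2 ^ k - a| + ENNReal.ofReal |2 * 2 ^ k - a|) *
          (ENNReal.ofReal ((1 / 4) ^ n) * volume (closedBall c 1)) := by
          gcongr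
          rw [← ENNReal.ofReal_add (abs_nonneg _) (abs_nonneg _)]
          refine ENNReal.ofReal_le_ofReal ?_
          have h1 := abs_sub_le (2 * 2 ^ k : ℝ) a (2 ^ k)
          rw [abs_sub_comm a] at h1
          have h2 : |(2 * 2 ^ k : ℝ) - 2 ^ k| = 2 ^ k := by
            rw [show (2 * 2 ^ k : ℝ) - 2 ^ k = 2 ^ k by ring, abs_of_nonneg (by positivity)]
          linarith
      _ = (∫⁻ x in L, ENNReal.ofReal |stp x - a|) + ∫⁻ x in R, ENNReal.ofReal |stp x - a| := by
          have e1 : ∫⁻ x in L, ENNReal.ofReal |stp x - a| = ENNReal.ofReal |2 ^ k - a| * volume L := by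
            rw [← setLIntegral_const]
            refine setLIntegral_congr_fun measurableSet_closedBall fun x hx => ?_
            simp only [hLval x hx]
          have e2 : ∫⁻ x in R, ENNReal.ofReal |stp x - a| = ENNReal.ofReal |2 * 2 ^ k - a| * volume R := by
            rw [← setLIntegral_const]
            refine setLIntegral_congr_fun measurableSet_closedBall fun x hx => ?_
            simp only [hRval x hx]
          rw [e1, e2, hvL, hvR, add_mul]
      _ = ∫⁻ x in L ∪ R, ENNReal.ofReal |stp x - a| := by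
          rw [lintegral_union measurableSet_closedBall hdisj]
      _ ≤ ∫⁻ x in closedBall c 1, ENNReal.ofReal |stp x - a| := lintegral_mono_set (union_subset hLsub hRsub)
  unfold bmo
  refine le_trans ?_ (le_iSup_of_le c (le_iSup_of_le 1 (le_iSup_of_le one_pos le_rfl)))
  rw [mul_comm (volume (closedBall c 1))⁻¹, ← div_eq_mul_inv,
    ENNReal.le_div_iff_mul_le (Or.inl (vol_pos _ one_pos).ne') (Or.inl (vol_ne_top _ 1))]
  refine le_trans (le_of_eq ?_) key
  rw [ENNReal.ofReal_mul (by positivity)]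
  ring

variable (n) in
theorem XC_not : ¬ StarToBMO (XC n) := by
  rintro ⟨C, hC⟩
  have h1 := (hC stp stp_measurable.aemeasurable (lt_of_le_of_lt XC_stp ENNReal.one_lt_top)).2
  have h2 : bmo (stp (n := n)) ≤ C := by
    refine h1.trans ?_
    calc (C : ℝ≥0∞) * bmoStar (XC n) stp ≤ C * 1 := by gcongr; exact XC_stp
      _ = C := mul_one _
  have h3 : ∀ k : ℕ, (1 / 4 : ℝ) ^ n * 2 ^ k ≤ C := by
    intro k
    have := (bmo_stp (n := n) k).trans h2
    rwa [← ENNReal.ofReal_coe_nnreal, ENNReal.ofReal_le_ofReal_iff C.coe_nonneg] at this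
  have h4 : (0 : ℝ) < (1 / 4) ^ n := by positivity
  obtain ⟨k, hk⟩ := pow_unbounded_of_one_lt ((C : ℝ) / (1 / 4) ^ n) (one_lt_two)
  have h5 := h3 k
  rw [div_lt_iff₀ h4] at hk
  linarith

end Pool.Agent.Q85.Bmo
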