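import Mathlib

set_option autoImplicit false
open MeasureTheory Set Filter Topology Metric
open scoped ENNReal NNReal

namespace Pool.Agent.Q85.Bmo

/-- A quasi-Banach function space over `Q ⊆ ℝⁿ`.  `N f` is the quasi-norm of `f`, with the value `∞`
when `f` is not in the space; functions are real valued and a.e. measurable on `Q`. -/
structure FSpace (n : ℕ) (Q : Set (Fin n → ℝ)) where
  /-- the quasi-norm -/
  N : ((Fin n → ℝ) → ℝ) → ℝ≥0∞
  /-- lattice property -/
  mono : ∀ f g : (Fin n → ℝ) → ℝ, AEMeasurable f (volume.restrict Q) → AEMeasurable g (volume.restrict Q) →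
    (∀ᵐ x ∂(volume.restrict Q), |f x| ≤ |g x|) → N f ≤ N g
  /-- definiteness -/
  eq_zero : ∀ f : (Fin n → ℝ) → ℝ, AEMeasurable f (volume.restrict Q) → N f = 0 →
    ∀ᵐ x ∂(volume.restrict Q), f x = 0
  /-- homogeneity -/
  smul : ∀ (a : ℝ) (f : (Fin n → ℝ) → ℝ), AEMeasurable f (volume.restrict Q) →
    N (fun x => a * f x) = ENNReal.ofReal |a| * N f
  /-- quasi-triangle inequality -/
  quasi : ∃ K : ℝ≥0, ∀ f g : (Fin n → ℝ) → ℝ, AEMeasurable f (volume.restrict Q) →
    AEMeasurable g (volume.restrict Q) → N (fun x => f x + g x) ≤ K * (N f + N g)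
  /-- there is an element which is positive almost everywhere -/
  pos : ∃ f : (Fin n → ℝ) → ℝ, AEMeasurable f (volume.restrict Q) ∧ N f < ∞ ∧ ∀ᵐ x ∂(volume.restrict Q), 0 < f x
  /-- the Fatou property -/
  fatou : ∀ (F : ℕ → (Fin n → ℝ) → ℝ) (f : (Fin n → ℝ) → ℝ), (∀ k, AEMeasurable (F k) (volume.restrict Q)) →
    AEMeasurable f (volume.restrict Q) →
    (∀ᵐ x ∂(volume.restrict Q), (∀ k, 0 ≤ F k x ∧ F k x ≤ F (k + 1) x) ∧
      Tendsto (fun k => F k x) atTop (𝓝 (f x))) → N f = ⨆ k, N (F k)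
  /-- completeness -/
  complete : ∀ F : ℕ → (Fin n → ℝ) → ℝ, (∀ k, AEMeasurable (F k) (volume.restrict Q)) → (∀ k, N (F k) < ∞) →
    (∀ ε : ℝ≥0∞, 0 < ε → ∃ M, ∀ j k, M ≤ j → M ≤ k → N (fun x => F j x - F k x) ≤ ε) →
    ∃ f : (Fin n → ℝ) → ℝ, AEMeasurable f (volume.restrict Q) ∧ N f < ∞ ∧
      Tendsto (fun k => N (fun x => F k x - f x)) atTop (𝓝 0)

/-- A family of quasi-Banach function spaces, one for every cube `Q = closedBall c r` (the cube with centre
`c` and side `2 r`, `Fin n → ℝ` has the sup norm). -/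
abbrev Family (n : ℕ) := ∀ (c : Fin n → ℝ) (r : ℝ), 0 < r → FSpace n (closedBall c r)

/-- The family is normalized: `‖χ_Q‖_{X_Q} ≃ 1`. -/
def Normalized {n : ℕ} (X : Family n) : Prop :=
  ∃ a b : ℝ≥0, 0 < a ∧ ∀ (c : Fin n → ℝ) (r : ℝ) (hr : 0 < r),
    (a : ℝ≥0∞) ≤ (X c r hr).N (fun _ => 1) ∧ (X c r hr).N (fun _ => 1) ≤ b

/-- The quasi-triangle inequality holds in all the spaces with the constant `K`. -/
def QuasiConst {n : ℕ} (X : Family n) (K : ℝ≥0) : Prop :=
  ∀ (c : Fin n → ℝ) (r : ℝ) (hr : 0 < r) (f g : (Fin n → ℝ) → ℝ), AEMeasurable f (volume.restrict (closedBall c r)) →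
    AEMeasurable g (volume.restrict (closedBall c r)) →
    (X c r hr).N (fun x => f x + g x) ≤ K * ((X c r hr).N f + (X c r hr).N g)

/-- the `BMO` norm -/
noncomputable def bmo {n : ℕ} (f : (Fin n → ℝ) → ℝ) : ℝ≥0∞ :=
  ⨆ (c : Fin n → ℝ) (r : ℝ) (_ : 0 < r),
    (volume (closedBall c r))⁻¹ * ∫⁻ x in closedBall c r, ENNReal.ofReal |f x - ⨍ y in closedBall c r, f y|

/-- the `BMO_X` norm -/
noncomputable def bmoX {n : ℕ} (X : Family n) (f : (Fin n → ℝ) → ℝ) : ℝ≥0∞ :=
  ⨆ (c : Fin n → ℝ) (r : ℝ) (hr : 0 < r), (X c r hr).N (fun x => f x - ⨍ y in closedBall c r, f y)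

/-- the `BMO*_X` norm -/
noncomputable def bmoStar {n : ℕ} (X : Family n) (f : (Fin n → ℝ) → ℝ) : ℝ≥0∞ :=
  ⨆ (c : Fin n → ℝ) (r : ℝ) (hr : 0 < r), ⨅ a : ℝ, (X c r hr).N (fun x => f x - a)

/-- `BMO ↪ BMO_X` -/
def BMOToX {n : ℕ} (X : Family n) : Prop :=
  ∃ C : ℝ≥0, ∀ f : (Fin n → ℝ) → ℝ, LocallyIntegrable f → bmo f < ∞ → bmoX X f ≤ C * bmo f

/-- `BMO_X ↪ BMO` -/
def XToBMO {n : ℕ} (X : Family n) : Prop :=
  ∃ C : ℝ≥0, ∀ f : (Fin n → ℝ) → ℝ, LocallyIntegrable f → bmoX X f < ∞ → bmo f ≤ C * bmoX X f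

/-- `BMO*_X ↪ BMO` -/
def StarToBMO {n : ℕ} (X : Family n) : Prop :=
  ∃ C : ℝ≥0, ∀ f : (Fin n → ℝ) → ℝ, AEMeasurable f → bmoStar X f < ∞ →
    LocallyIntegrable f ∧ bmo f ≤ C * bmoStar X f

/-! ### The Fatou property implies completeness -/

section complete

variable {n : ℕ} {Q : Set (Fin n → ℝ)} {N : ((Fin n → ℝ) → ℝ) → ℝ≥0∞}

theorem complete_of_fatou
    (mono : ∀ f g : (Fin n → ℝ) → ℝ, AEMeasurable f (volume.restrict Q) → AEMeasurable g (volume.restrict Q) →
      (∀ᵐ x ∂(volume.restrict Q), |f x| ≤ |g x|) → N f ≤ N g)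
    (eq_zero : ∀ f : (Fin n → ℝ) → ℝ, AEMeasurable f (volume.restrict Q) → N f = 0 →
      ∀ᵐ x ∂(volume.restrict Q), f x = 0)
    (smul : ∀ (a : ℝ) (f : (Fin n → ℝ) → ℝ), AEMeasurable f (volume.restrict Q) →
      N (fun x => a * f x) = ENNReal.ofReal |a| * N f)
    (quasi : ∃ K : ℝ≥0, ∀ f g : (Fin n → ℝ) → ℝ, AEMeasurable f (volume.restrict Q) →
      AEMeasurable g (volume.restrict Q) → N (fun x => f x + g x) ≤ K * (N f + N g))
    (fatou : ∀ (F : ℕ → (Fin n → ℝ) → ℝ) (f : (Fin n → ℝ) → ℝ), (∀ k, AEMeasurable (F k) (volume.restrict Q)) →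
      AEMeasurable f (volume.restrict Q) →
      (∀ᵐ x ∂(volume.restrict Q), (∀ k, 0 ≤ F k x ∧ F k x ≤ F (k + 1) x) ∧
        Tendsto (fun k => F k x) atTop (𝓝 (f x))) → N f = ⨆ k, N (F k)) :
    ∀ F : ℕ → (Fin n → ℝ) → ℝ, (∀ k, AEMeasurable (F k) (volume.restrict Q)) → (∀ k, N (F k) < ∞) →
    (∀ ε : ℝ≥0∞, 0 < ε → ∃ M, ∀ j k, M ≤ j → M ≤ k → N (fun x => F j x - F k x) ≤ ε) →
    ∃ f : (Fin n → ℝ) → ℝ, AEMeasurable f (volume.restrict Q) ∧ N f < ∞ ∧
      Tendsto (fun k => N (fun x => F k x - f x)) atTop (𝓝 0) := by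
  classical
  intro F hFm hFfin hC
  obtain ⟨K0, hK0⟩ := quasi
  set K : ℝ≥0 := max K0 1 with hKdef
  have hK1 : 1 ≤ K := le_max_right _ _
  have hK : ∀ f g : (Fin n → ℝ) → ℝ, AEMeasurable f (volume.restrict Q) →
      AEMeasurable g (volume.restrict Q) → N (fun x => f x + g x) ≤ K * (N f + N g) := by
    intro f g hf hg
    refine (hK0 f g hf hg).trans ?_
    gcongr
    exact le_max_left _ _
  have hzero : N (fun _ => 0) = 0 := by
    have := smul 0 (fun _ => 0) aemeasurable_const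
    simpa using this
  -- the speed
  set e : ℕ → ℝ≥0 := fun k => ((2 * K)⁻¹) ^ k with he
  have hKpos : 0 < K := lt_of_lt_of_le one_pos hK1
  have hepos : ∀ k, 0 < e k := fun k => by positivity
  have hesucc : ∀ k, 2 * K * e (k + 1) = e k := by
    intro k
    simp only [he, pow_succ]
    field_simp
  have hetend : Tendsto e atTop (𝓝 0) := by
    refine NNReal.tendsto_pow_atTop_nhds_zero_of_lt_one ?_
    rw [inv_lt_one₀ (by positivity)]
    calc (1 : ℝ≥0) < 2 := by norm_num
      _ = 2 * 1 := by ring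
      _ ≤ 2 * K := by gcongr
  have hM : ∀ m : ℕ, ∃ M, ∀ j k, M ≤ j → M ≤ k → N (fun x => F j x - F k x) ≤ (e m : ℝ≥0∞) :=
    fun m => hC _ (by exact_mod_cast hepos m)
  choose M hM using hM
  -- an increasing choice
  set φ : ℕ → ℕ := fun k => ∑ i ∈ Finset.range (k + 1), M i with hφ
  have hφM : ∀ k, M k ≤ φ k := fun k =>
    Finset.single_le_sum (f := M) (fun i _ => Nat.zero_le _) (Finset.mem_range.2 (Nat.lt_succ_self k))
  have hφmono : ∀ k, φ k ≤ φ (k + 1) := by
    intro k
    simp only [hφ]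
    rw [Finset.sum_range_succ _ (k + 1)]
    omega
  set d : ℕ → (Fin n → ℝ) → ℝ := fun k x => |F (φ (k + 1)) x - F (φ k) x| with hd
  have hdm : ∀ k, AEMeasurable (d k) (volume.restrict Q) := fun k => ((hFm _).sub (hFm _)).abs
  have hdN : ∀ k, N (d k) ≤ e k := by
    intro k
    refine le_trans (mono _ (fun x => F (φ (k + 1)) x - F (φ k) x) (hdm k) ((hFm _).sub (hFm _)) ?_)
      (hM k _ _ ((hφM k).trans (hφmono k)) (hφM k))
    exact Eventually.of_forall fun x => by simp [hd]
  -- partial sums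
  set G : ℕ → ℕ → (Fin n → ℝ) → ℝ := fun j m x => ∑ i ∈ Finset.range m, d (j + i) x with hG
  have hGm : ∀ j m, AEMeasurable (G j m) (volume.restrict Q) := by
    intro j m
    simp only [hG]
    exact Finset.aemeasurable_fun_sum _ fun i _ => hdm _
  have hGN : ∀ m j, N (G j m) ≤ 2 * K * e j := by
    intro m
    induction m with
    | zero =>
      intro j
      simp only [hG, Finset.range_zero, Finset.sum_empty]
      rw [hzero]; exact zero_le
    | succ m ih =>
      intro j
      have e1 : G j (m + 1) = fun x => d j x + G (j + 1) m x := by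
        funext x
        simp only [hG]
        rw [Finset.sum_range_succ', add_comm]
        congr 1
        refine Finset.sum_congr rfl fun i _ => ?_
        rw [show j + (i + 1) = j + 1 + i by ring]
      rw [e1]
      refine (hK _ _ (hdm j) (hGm (j + 1) m)).trans ?_
      have h2 : (2 * K * e (j + 1) : ℝ≥0∞) = e j := by exact_mod_cast hesucc j
      calc (K : ℝ≥0∞) * (N (d j) + N (G (j + 1) m)) ≤ K * (e j + 2 * K * e (j + 1)) := by
            gcongr
            · exact hdN j
            · exact ih (j + 1)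
        _ = 2 * K * e j := by rw [h2]; ring
  have hGnn : ∀ j m x, 0 ≤ G j m x := fun j m x => Finset.sum_nonneg fun i _ => abs_nonneg _
  have hGmono : ∀ j m x, G j m x ≤ G j (m + 1) x := by
    intro j m x
    simp only [hG]
    rw [Finset.sum_range_succ]
    have : 0 ≤ d (j + m) x := abs_nonneg _
    linarith
  -- almost everywhere finiteness
  set E : Set (Fin n → ℝ) := {x | ∑' k, ENNReal.ofReal (d k x) = ∞} with hE
  have hEm : NullMeasurableSet E (volume.restrict Q) := by
    have h1 : AEMeasurable (fun x => ∑' k, ENNReal.ofReal (d k x)) (volume.restrict Q) :=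
      AEMeasurable.tsum fun k => (hdm k).ennreal_ofReal
    exact h1.nullMeasurable (measurableSet_singleton ∞)
  have hsumm : ∀ x, x ∉ E → Summable (fun k => d k x) := by
    intro x hx
    have h1 : ∑' k, ENNReal.ofReal (d k x) ≠ ∞ := hx
    have h2 := ENNReal.summable_toReal h1
    refine h2.congr fun k => ?_
    rw [ENNReal.toReal_ofReal (abs_nonneg _)]
  have hunb : ∀ x ∈ E, Tendsto (fun m => G 0 m x) atTop atTop := by
    intro x hx
    have h1 : ∑' k, ENNReal.ofReal (d k x) = ∞ := hx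
    have hns : ¬ Summable (fun k => d k x) := by
      intro hs
      rw [← ENNReal.ofReal_tsum_of_nonneg (fun k => abs_nonneg _) hs] at h1
      exact ENNReal.ofReal_ne_top h1
    have h3 := (not_summable_iff_tendsto_nat_atTop_of_nonneg (f := fun k => d k x) (fun k => abs_nonneg _)).1 hns
    refine h3.congr fun m => ?_
    simp only [hG, zero_add]
  have hEind : AEMeasurable (E.indicator (fun _ => (1 : ℝ))) (volume.restrict Q) :=
    aemeasurable_const.indicator₀ hEm
  have hEN : N (E.indicator (fun _ => (1 : ℝ))) = 0 := by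
    have hT : ∀ T : ℕ, (T : ℝ≥0∞) * N (E.indicator (fun _ => (1 : ℝ))) ≤ 2 * K * e 0 := by
      intro T
      have h1 := smul (T : ℝ) (E.indicator (fun _ => (1 : ℝ))) hEind
      rw [abs_of_nonneg (Nat.cast_nonneg T), ENNReal.ofReal_natCast] at h1
      rw [← h1]
      rw [fatou (fun m x => E.indicator (fun x => min (G 0 m x) T) x) _
        (fun m => ((hGm 0 m).min aemeasurable_const).indicator₀ hEm) (hEind.const_mul _) ?_]
      · refine iSup_le fun m => ?_
        refine le_trans (mono _ (G 0 m) (((hGm 0 m).min aemeasurable_const).indicator₀ hEm) (hGm 0 m) ?_) (hGN m 0)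
        refine Eventually.of_forall fun x => ?_
        by_cases hx : x ∈ E
        · rw [indicator_of_mem hx, abs_of_nonneg (le_min (hGnn _ _ _) (Nat.cast_nonneg T)), abs_of_nonneg (hGnn _ _ _)]
          exact min_le_left _ _
        · rw [indicator_of_notMem hx, abs_zero]; exact abs_nonneg _
      · refine Eventually.of_forall fun x => ?_
        by_cases hx : x ∈ E
        · simp only [indicator_of_mem hx, mul_one]
          refine ⟨fun k => ⟨le_min (hGnn _ _ _) (Nat.cast_nonneg T), min_le_min_right _ (hGmono 0 k x)⟩, ?_⟩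
          refine tendsto_const_nhds.congr' ?_
          filter_upwards [(hunb x hx).eventually_ge_atTop (T : ℝ)] with m hm
          rw [min_eq_right hm]
        · simp only [indicator_of_notMem hx, mul_zero]
          exact ⟨fun k => ⟨le_rfl, le_rfl⟩, tendsto_const_nhds⟩
    by_contra hne
    have h2 : (2 * K * e 0 : ℝ≥0∞) ≠ ∞ := by exact_mod_cast ENNReal.coe_ne_top (r := 2 * K * e 0)
    obtain ⟨T, hT2⟩ := ENNReal.exists_nat_mul_gt hne h2
    exact absurd (hT T) (not_le.2 hT2)
  have hEae : ∀ᵐ x ∂(volume.restrict Q), x ∉ E := by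
    filter_upwards [eq_zero _ hEind hEN] with x hx hxE
    rw [indicator_of_mem hxE] at hx
    exact one_ne_zero hx
  -- the limit
  set f : (Fin n → ℝ) → ℝ := fun x => F (φ 0) x + ∑' k, (F (φ (k + 1)) x - F (φ k) x) with hf
  have htend : ∀ x, x ∉ E → Tendsto (fun k => F (φ k) x) atTop (𝓝 (f x)) := by
    intro x hx
    have hs : Summable (fun k => F (φ (k + 1)) x - F (φ k) x) := (hsumm x hx).of_abs
    have h1 := hs.hasSum.tendsto_sum_nat
    have h2 : ∀ m, ∑ i ∈ Finset.range m, (F (φ (i + 1)) x - F (φ i) x) = F (φ m) x - F (φ 0) x :=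
      fun m => Finset.sum_range_sub (fun i => F (φ i) x) m
    simp only [h2] at h1
    have h3 := h1.const_add (F (φ 0) x)
    refine h3.congr fun m => ?_
    ring
  have hfm : AEMeasurable f (volume.restrict Q) :=
    aemeasurable_of_tendsto_metrizable_ae atTop (fun k => hFm (φ k)) (hEae.mono fun x hx => htend x hx)
  have hdiff : ∀ j, N (fun x => f x - F (φ j) x) ≤ 2 * K * e j := by
    intro j
    set g : (Fin n → ℝ) → ℝ := fun x => ∑' i, d (j + i) x with hg
    have hgt : ∀ x, x ∉ E → Tendsto (fun m => G j m x) atTop (𝓝 (g x)) := by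
      intro x hx
      have hs : Summable (fun i => d (j + i) x) := by
        have := (summable_nat_add_iff j).2 (hsumm x hx)
        refine this.congr fun i => ?_
        rw [add_comm]
      exact hs.hasSum.tendsto_sum_nat
    have hgm : AEMeasurable g (volume.restrict Q) :=
      aemeasurable_of_tendsto_metrizable_ae atTop (fun m => hGm j m) (hEae.mono fun x hx => hgt x hx)
    have hgN : N g ≤ 2 * K * e j := by
      rw [fatou (G j) g (hGm j) hgm (hEae.mono fun x hx => ⟨fun k => ⟨hGnn _ _ _, hGmono _ _ _⟩, hgt x hx⟩)]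
      exact iSup_le fun m => hGN m j
    refine (mono _ g (hfm.sub (hFm _)) hgm ?_).trans hgN
    filter_upwards [hEae] with x hx
    have hg0 : 0 ≤ g x := tsum_nonneg fun i => abs_nonneg _
    rw [abs_of_nonneg hg0]
    have h1 : Tendsto (fun m => |F (φ (j + m)) x - F (φ j) x|) atTop (𝓝 |f x - F (φ j) x|) := by
      have := (htend x hx).comp (tendsto_add_atTop_nat j)
      refine Tendsto.congr (fun m => ?_) ((this.sub_const (F (φ j) x)).abs)
      simp only [Function.comp]
      rw [add_comm]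
    refine le_of_tendsto_of_tendsto h1 (hgt x hx) (Eventually.of_forall fun m => ?_)
    have h2 : F (φ (j + m)) x - F (φ j) x = ∑ i ∈ Finset.range m, (F (φ (j + i + 1)) x - F (φ (j + i)) x) := by
      exact (Finset.sum_range_sub (fun i => F (φ (j + i)) x) m).symm
    show |F (φ (j + m)) x - F (φ j) x| ≤ G j m x
    rw [h2]
    exact Finset.abs_sum_le_sum_abs _ _
  refine ⟨f, hfm, ?_, ?_⟩
  · have h1 := hK (fun x => f x - F (φ 0) x) (F (φ 0)) (hfm.sub (hFm _)) (hFm _)
    simp only [sub_add_cancel] at h1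
    refine lt_of_le_of_lt h1 ?_
    refine ENNReal.mul_lt_top ENNReal.coe_lt_top (ENNReal.add_lt_top.2 ⟨lt_of_le_of_lt (hdiff 0) ?_, hFfin _⟩)
    exact_mod_cast ENNReal.coe_lt_top (r := 2 * K * e 0)
  · have hbound : ∀ j k, φ j ≤ k → N (fun x => F k x - f x) ≤ ((K * (e j + 2 * K * e j) : ℝ≥0) : ℝ≥0∞) := by
      intro j k hk
      have h1 := hK (fun x => F k x - F (φ j) x) (fun x => F (φ j) x - f x) ((hFm _).sub (hFm _)) ((hFm _).sub hfm)
      simp only [sub_add_sub_cancel] at h1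
      refine h1.trans ?_
      push_cast
      gcongr
      · exact hM j k (φ j) ((hφM j).trans hk) (hφM j)
      · refine le_trans (mono _ (fun x => f x - F (φ j) x) ((hFm _).sub hfm) (hfm.sub (hFm _)) ?_) (hdiff j)
        exact Eventually.of_forall fun x => by rw [abs_sub_comm]
    have hlim : Tendsto (fun j => ((K * (e j + 2 * K * e j) : ℝ≥0) : ℝ≥0∞)) atTop (𝓝 0) := by
      have : Tendsto (fun j => K * (e j + 2 * K * e j)) atTop (𝓝 (K * (0 + 2 * K * 0))) :=
        (hetend.add (hetend.const_mul _)).const_mul _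
      rw [mul_zero, add_zero, mul_zero] at this
      rw [← ENNReal.coe_zero]
      exact ENNReal.tendsto_coe.2 this
    rw [ENNReal.tendsto_atTop_zero]
    intro ε hε
    obtain ⟨j, hj⟩ := (hlim.eventually (ge_mem_nhds hε)).exists
    exact ⟨φ j, fun k hk => (hbound j k hk).trans hj⟩

end complete

end Pool.Agent.Q85.Bmo
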