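import Mathlib

set_option autoImplicit false
open Finset

namespace Pool.Agent.Q85.Ritt

/-- finitely supported functions on `ℤ` with convolution -/
abbrev A := AddMonoidAlgebra ℝ ℤ

/-- coefficients -/
noncomputable def co (F : A) (k : ℤ) : ℝ := F.coeff k

/-- monomials -/
noncomputable def T (k : ℤ) : A := AddMonoidAlgebra.single k 1

theorem co_add (F G : A) (k : ℤ) : co (F + G) k = co F k + co G k := rfl
theorem co_sub (F G : A) (k : ℤ) : co (F - G) k = co F k - co G k := rfl
theorem co_neg (F : A) (k : ℤ) : co (-F) k = -co F k := rfl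
theorem co_smul (a : ℝ) (F : A) (k : ℤ) : co (a • F) k = a * co F k := rfl
theorem co_zero (k : ℤ) : co 0 k = 0 := rfl

theorem co_sum {ι : Type*} (s : Finset ι) (f : ι → A) (k : ℤ) : co (∑ i ∈ s, f i) k = ∑ i ∈ s, co (f i) k := by
  classical
  induction s using Finset.induction_on with
  | empty => simp [co_zero]
  | insert a s ha ih => rw [Finset.sum_insert ha, Finset.sum_insert ha, co_add, ih]

theorem co_T (m k : ℤ) : co (T m) k = if k = m then 1 else 0 := by
  unfold co T
  rw [AddMonoidAlgebra.coeff_single, Finsupp.single_apply]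
  simp only [eq_comm]

theorem co_one (k : ℤ) : co 1 k = if k = 0 then 1 else 0 := by
  have : (1 : A) = T 0 := rfl
  rw [this, co_T]

theorem co_T_mul (m : ℤ) (F : A) (k : ℤ) : co (T m * F) k = co F (k - m) := by
  unfold co T
  rw [AddMonoidAlgebra.coeff_single_mul_apply, one_mul]
  congr 1; ring

theorem ext_co {F G : A} (h : ∀ k, co F k = co G k) : F = G := by
  apply AddMonoidAlgebra.coeff_injective
  ext k
  exact h k

theorem T_mul_T (k l : ℤ) : T k * T l = T (k + l) := by
  unfold T
  rw [AddMonoidAlgebra.single_mul_single, one_mul]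

theorem T_zero : T 0 = 1 := rfl

/-- the support -/
noncomputable def sp (F : A) : Finset ℤ := F.coeff.support

theorem notMem_sp {F : A} {k : ℤ} : k ∉ sp F ↔ co F k = 0 := Finsupp.notMem_support_iff

theorem mem_sp {F : A} {k : ℤ} : k ∈ sp F ↔ co F k ≠ 0 := Finsupp.mem_support_iff

theorem eq_sum_T (F : A) : F = ∑ k ∈ sp F, co F k • T k := by
  refine ext_co (fun k => ?_)
  rw [co_sum]
  simp only [co_smul, co_T]
  by_cases hk : k ∈ sp F
  · rw [Finset.sum_eq_single k]
    · simp
    · intro b _ hb; rw [if_neg (Ne.symm hb), mul_zero]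
    · intro h; exact absurd hk h
  · rw [notMem_sp.1 hk, Finset.sum_eq_zero]
    intro b hb
    rw [if_neg, mul_zero]
    rintro rfl; exact hk hb

/-- linear functionals -/
noncomputable def pair (φ : ℤ → ℝ) (F : A) : ℝ := ∑ k ∈ sp F, co F k * φ k

theorem pair_eq (φ : ℤ → ℝ) (F : A) {S : Finset ℤ} (hS : sp F ⊆ S) : pair φ F = ∑ k ∈ S, co F k * φ k := by
  refine Finset.sum_subset hS (fun k _ hk => ?_)
  rw [notMem_sp.1 hk, zero_mul]

theorem pair_add (φ : ℤ → ℝ) (F G : A) : pair φ (F + G) = pair φ F + pair φ G := by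
  classical
  rw [pair_eq φ F (Finset.subset_union_left (s₂ := sp G ∪ sp (F + G))),
    pair_eq φ G (S := sp F ∪ (sp G ∪ sp (F + G))) (by intro x hx; simp [hx]),
    pair_eq φ (F + G) (S := sp F ∪ (sp G ∪ sp (F + G))) (by intro x hx; simp [hx]), ← Finset.sum_add_distrib]
  refine Finset.sum_congr rfl (fun k _ => ?_)
  rw [co_add]; ring

theorem pair_smul (φ : ℤ → ℝ) (a : ℝ) (F : A) : pair φ (a • F) = a * pair φ F := by
  classical
  rw [pair_eq φ F (Finset.subset_union_left (s₂ := sp (a • F))),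
    pair_eq φ (a • F) (S := sp F ∪ (sp (a • F))) (by intro x hx; simp [hx]), Finset.mul_sum]
  refine Finset.sum_congr rfl (fun k _ => ?_)
  rw [co_smul]; ring

theorem pair_zero (φ : ℤ → ℝ) : pair φ 0 = 0 := by
  have := pair_smul φ 0 0
  rw [zero_smul, zero_mul] at this; exact this

theorem pair_sub (φ : ℤ → ℝ) (F G : A) : pair φ (F - G) = pair φ F - pair φ G := by
  have h : F - G = F + (-1 : ℝ) • G := by rw [neg_one_smul]; abel
  rw [h, pair_add, pair_smul]; ring

theorem pair_sum {ι : Type*} (φ : ℤ → ℝ) (s : Finset ι) (f : ι → A) : pair φ (∑ i ∈ s, f i) = ∑ i ∈ s, pair φ (f i) := by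
  classical
  induction s using Finset.induction_on with
  | empty => simp [pair_zero]
  | insert a s ha ih => rw [Finset.sum_insert ha, Finset.sum_insert ha, pair_add, ih]

theorem pair_T (φ : ℤ → ℝ) (m : ℤ) : pair φ (T m) = φ m := by
  rw [pair_eq φ (T m) (S := {m})]
  · simp [co_T]
  · intro k hk
    rw [mem_sp, co_T] at hk
    simp only [Finset.mem_singleton]
    by_contra h; rw [if_neg h] at hk; exact hk rfl

theorem pair_mul (φ : ℤ → ℝ) (F G : A) : pair φ (F * G) = pair (fun k => pair (fun l => φ (k + l)) G) F := by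
  conv_lhs => rw [eq_sum_T F, Finset.sum_mul]
  rw [pair_sum]
  conv_rhs => unfold pair
  refine Finset.sum_congr rfl (fun k _ => ?_)
  rw [smul_mul_assoc, pair_smul]
  congr 1
  conv_lhs => rw [eq_sum_T G, Finset.mul_sum]
  rw [pair_sum]
  unfold pair
  refine Finset.sum_congr rfl (fun l _ => ?_)
  rw [mul_smul_comm, T_mul_T, ← pair, pair_smul, pair_T]

/-- weighted `ℓ¹` norms -/
noncomputable def wsum (w : ℤ → ℝ) (F : A) : ℝ := ∑ k ∈ sp F, w k * |co F k|

theorem wsum_eq (w : ℤ → ℝ) (F : A) {S : Finset ℤ} (hS : sp F ⊆ S) : wsum w F = ∑ k ∈ S, w k * |co F k| := by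
  refine Finset.sum_subset hS (fun k _ hk => ?_)
  rw [notMem_sp.1 hk, abs_zero, mul_zero]

theorem wsum_nonneg {w : ℤ → ℝ} (hw : ∀ k, 0 ≤ w k) (F : A) : 0 ≤ wsum w F :=
  Finset.sum_nonneg fun k _ => mul_nonneg (hw k) (abs_nonneg _)

theorem wsum_add_le {w : ℤ → ℝ} (hw : ∀ k, 0 ≤ w k) (F G : A) : wsum w (F + G) ≤ wsum w F + wsum w G := by
  classical
  rw [wsum_eq w F (Finset.subset_union_left (s₂ := sp G ∪ sp (F + G))),
    wsum_eq w G (S := sp F ∪ (sp G ∪ sp (F + G))) (by intro x hx; simp [hx]),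
    wsum_eq w (F + G) (S := sp F ∪ (sp G ∪ sp (F + G))) (by intro x hx; simp [hx]), ← Finset.sum_add_distrib]
  refine Finset.sum_le_sum (fun k _ => ?_)
  rw [co_add, ← mul_add]
  exact mul_le_mul_of_nonneg_left (abs_add_le _ _) (hw k)

theorem wsum_smul (w : ℤ → ℝ) (a : ℝ) (F : A) : wsum w (a • F) = |a| * wsum w F := by
  classical
  rw [wsum_eq w F (Finset.subset_union_left (s₂ := sp (a • F))),
    wsum_eq w (a • F) (S := sp F ∪ (sp (a • F))) (by intro x hx; simp [hx]), Finset.mul_sum]
  refine Finset.sum_congr rfl (fun k _ => ?_)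
  rw [co_smul, abs_mul]; ring

theorem wsum_zero (w : ℤ → ℝ) : wsum w 0 = 0 := by
  have := wsum_smul w 0 0
  rw [zero_smul, abs_zero, zero_mul] at this; exact this

theorem wsum_sum_le {ι : Type*} {w : ℤ → ℝ} (hw : ∀ k, 0 ≤ w k) (s : Finset ι) (f : ι → A) :
    wsum w (∑ i ∈ s, f i) ≤ ∑ i ∈ s, wsum w (f i) := by
  classical
  induction s using Finset.induction_on with
  | empty => simp [wsum_zero]
  | insert a s ha ih =>
    rw [Finset.sum_insert ha, Finset.sum_insert ha]
    exact (wsum_add_le hw _ _).trans (by linarith)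

theorem wsum_T (w : ℤ → ℝ) (m : ℤ) : wsum w (T m) = w m := by
  rw [wsum_eq w (T m) (S := {m})]
  · simp [co_T]
  · intro k hk
    rw [mem_sp, co_T] at hk
    simp only [Finset.mem_singleton]
    by_contra h; rw [if_neg h] at hk; exact hk rfl

theorem wsum_T_mul (w : ℤ → ℝ) (m : ℤ) (F : A) : wsum w (T m * F) = wsum (fun k => w (m + k)) F := by
  classical
  rw [wsum_eq w (T m * F) (S := (sp F).image (fun k => m + k))]
  · rw [Finset.sum_image (by intro x _ y _ h; exact add_left_cancel h)]
    unfold wsum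
    refine Finset.sum_congr rfl (fun k _ => ?_)
    rw [co_T_mul]; congr 3; ring
  · intro k hk
    rw [mem_sp, co_T_mul] at hk
    rw [Finset.mem_image]
    exact ⟨k - m, mem_sp.2 hk, by ring⟩

theorem wsum_neg (w : ℤ → ℝ) (F : A) : wsum w (-F) = wsum w F := by
  rw [← neg_one_smul ℝ F, wsum_smul]; simp

theorem wsum_mono {w w' : ℤ → ℝ} (h : ∀ k, w k ≤ w' k) (F : A) : wsum w F ≤ wsum w' F :=
  Finset.sum_le_sum fun k _ => mul_le_mul_of_nonneg_right (h k) (abs_nonneg _)

theorem wsum_add_weight (w w' : ℤ → ℝ) (F : A) : wsum (fun k => w k + w' k) F = wsum w F + wsum w' F := by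
  unfold wsum
  rw [← Finset.sum_add_distrib]
  exact Finset.sum_congr rfl (fun k _ => by ring)

theorem wsum_const (c : ℝ) (F : A) : wsum (fun _ => c) F = c * wsum (fun _ => 1) F := by
  unfold wsum
  rw [Finset.mul_sum]
  exact Finset.sum_congr rfl (fun k _ => by ring)

/-- the basic product inequality -/
theorem wsum_mul_le {w w₁ w₂ : ℤ → ℝ} (hw : ∀ k, 0 ≤ w k) (h : ∀ k l, w (k + l) ≤ w₁ k + w₂ l) (F G : A) :
    wsum w (F * G) ≤ wsum w₁ F * wsum (fun _ => 1) G + wsum (fun _ => 1) F * wsum w₂ G := by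
  conv_lhs => rw [eq_sum_T F, Finset.sum_mul]
  refine (wsum_sum_le hw _ _).trans ?_
  have h1 : ∀ k ∈ sp F, wsum w (co F k • T k * G)
      ≤ w₁ k * |co F k| * wsum (fun _ => 1) G + 1 * |co F k| * wsum w₂ G := by
    intro k _
    rw [smul_mul_assoc, wsum_smul, wsum_T_mul]
    have h2 : wsum (fun l => w (k + l)) G ≤ w₁ k * wsum (fun _ => 1) G + wsum w₂ G := by
      refine (wsum_mono (fun l => h k l) G).trans ?_
      rw [wsum_add_weight, wsum_const]
    calc |co F k| * wsum (fun l => w (k + l)) G ≤ |co F k| * (w₁ k * wsum (fun _ => 1) G + wsum w₂ G) := by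
          gcongr
      _ = _ := by ring
  refine (Finset.sum_le_sum h1).trans ?_
  rw [Finset.sum_add_distrib, ← Finset.sum_mul, ← Finset.sum_mul]
  unfold wsum
  simp

theorem wsum_one_mul_le (F G : A) :
    wsum (fun _ => 1) (F * G) ≤ wsum (fun _ => 1) F * wsum (fun _ => 1) G := by
  have h := wsum_mul_le (w := fun _ => 1) (w₁ := fun _ => 1) (w₂ := fun _ => 0) (fun _ => zero_le_one)
    (fun _ _ => by norm_num) F G
  have h0 : wsum (fun _ => 0) G = 0 := by unfold wsum; simp
  rw [h0, mul_zero, add_zero] at h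
  exact h

/-! ### The uniform measures -/

/-- the uniform measure on `{-r, …, r}` -/
noncomputable def U (r : ℕ) : A := (1 / (2 * (r : ℝ) + 1)) • ∑ k ∈ Finset.Icc (-(r : ℤ)) r, T k

theorem co_U (r : ℕ) (k : ℤ) : co (U r) k = if |k| ≤ r then 1 / (2 * (r : ℝ) + 1) else 0 := by
  unfold U
  rw [co_smul, co_sum]
  simp only [co_T]
  by_cases h : |k| ≤ r
  · rw [if_pos h, Finset.sum_eq_single k]
    · simp
    · intro b _ hb; rw [if_neg (Ne.symm hb)]
    · intro hk; exact absurd (Finset.mem_Icc.2 (abs_le.1 h)) hk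
  · rw [if_neg h, Finset.sum_eq_zero, mul_zero]
    intro b hb
    rw [if_neg]
    rintro rfl
    exact h (abs_le.2 (Finset.mem_Icc.1 hb))

theorem U_zero : U 0 = 1 := by
  refine ext_co (fun k => ?_)
  rw [co_U, co_one]
  by_cases hk : k = 0
  · subst hk; simp
  · rw [if_neg hk, if_neg]
    intro h
    have : |k| = 0 := le_antisymm (by simpa using h) (abs_nonneg k)
    exact hk (abs_eq_zero.1 this)

theorem pair_U (φ : ℤ → ℝ) (r : ℕ) : pair φ (U r) = (1 / (2 * (r : ℝ) + 1)) * ∑ k ∈ Finset.Icc (-(r : ℤ)) r, φ k := by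
  unfold U
  rw [pair_smul, pair_sum]
  simp only [pair_T]

/-- total mass -/
noncomputable def mass (F : A) : ℝ := pair (fun _ => 1) F

theorem mass_mul (F G : A) : mass (F * G) = mass F * mass G := by
  unfold mass
  rw [pair_mul]
  unfold pair
  rw [Finset.sum_mul]
  exact Finset.sum_congr rfl (fun k _ => by simp)

theorem mass_U (r : ℕ) : mass (U r) = 1 := by
  unfold mass
  rw [pair_U, Finset.sum_const, Int.card_Icc, nsmul_eq_mul, mul_one]
  have : (((r : ℤ) + 1 - -(r : ℤ)).toNat : ℝ) = 2 * r + 1 := by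
    have : ((r : ℤ) + 1 - -(r : ℤ)).toNat = 2 * r + 1 := by omega
    rw [this]; push_cast; ring
  rw [this]
  field_simp

/-- the nice class: nonnegative, symmetric, mass one, totally positive of order two -/
structure Good (p : A) : Prop where
  nn : ∀ k, 0 ≤ co p k
  sym : ∀ k, co p (-k) = co p k
  mass : mass p = 1
  tp : ∀ i j k l : ℤ, i ≤ j → k ≤ l → co p (i - l) * co p (j - k) ≤ co p (i - k) * co p (j - l)

theorem good_U (r : ℕ) : Good (U r) := by
  have hr : (0 : ℝ) < 1 / (2 * (r : ℝ) + 1) := by positivity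
  refine ⟨fun k => ?_, fun k => ?_, mass_U r, ?_⟩
  · rw [co_U]; split_ifs <;> positivity
  · rw [co_U, co_U, abs_neg]
  · intro i j k l hij hkl
    simp only [co_U]
    by_cases h1 : |i - l| ≤ (r : ℤ)
    · by_cases h2 : |j - k| ≤ (r : ℤ)
      · have h3 : |i - k| ≤ (r : ℤ) := by
          rw [abs_le] at h1 h2 ⊢; constructor <;> linarith
        have h4 : |j - l| ≤ (r : ℤ) := by
          rw [abs_le] at h1 h2 ⊢; constructor <;> linarith
        simp only [h1, h2, h3, h4, if_true]; exact le_rfl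
      · rw [if_neg h2, mul_zero]
        split_ifs <;> positivity
    · rw [if_neg h1, zero_mul]
      split_ifs <;> positivity

/-- coefficients of a product -/
theorem co_mul (F G : A) (i k : ℤ) (S : Finset ℤ) (hS : ∀ s, co G (s - k) ≠ 0 → s ∈ S) :
    co (F * G) (i - k) = ∑ s ∈ S, co F (i - s) * co G (s - k) := by
  classical
  have h1 : co (F * G) (i - k) = ∑ l ∈ sp G, co F (i - k - l) * co G l := by
    have h2 : F * G = ∑ l ∈ sp G, co G l • (T l * F) := by
      conv_lhs => rw [mul_comm, eq_sum_T G, Finset.sum_mul]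
      exact Finset.sum_congr rfl (fun l _ => by rw [smul_mul_assoc])
    rw [h2, co_sum]
    refine Finset.sum_congr rfl (fun l _ => ?_)
    rw [co_smul, co_T_mul, mul_comm]
  rw [h1]
  have h3 : ∑ l ∈ sp G, co F (i - k - l) * co G l = ∑ s ∈ (sp G).image (fun l => l + k), co F (i - s) * co G (s - k) := by
    rw [Finset.sum_image (by intro x _ y _ h; exact add_right_cancel h)]
    refine Finset.sum_congr rfl (fun l _ => ?_)
    congr 2 <;> ring
  rw [h3]
  refine Finset.sum_subset ?_ ?_
  · intro s hs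
    rw [Finset.mem_image] at hs
    obtain ⟨l, hl, rfl⟩ := hs
    refine hS _ ?_
    rw [add_sub_cancel_right]; exact mem_sp.1 hl
  · intro s _ hs
    have : co G (s - k) = 0 := by
      by_contra h
      exact hs (Finset.mem_image.2 ⟨s - k, mem_sp.2 h, by ring⟩)
    rw [this, mul_zero]

theorem good_mul {p q : A} (hp : Good p) (hq : Good q) : Good (p * q) := by
  classical
  have hform : ∀ k : ℤ, co (p * q) k = ∑ s ∈ sp q, co p (k - s) * co q s := by
    intro k
    have := co_mul p q k 0 (sp q) (fun s hs => mem_sp.2 (by simpa using hs))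
    simpa using this
  refine ⟨fun k => ?_, fun k => ?_, ?_, ?_⟩
  · rw [hform]
    exact Finset.sum_nonneg fun s _ => mul_nonneg (hp.nn _) (hq.nn _)
  · rw [hform, hform]
    have hsym : ∀ s, s ∈ sp q ↔ -s ∈ sp q := fun s => by rw [mem_sp, mem_sp, hq.sym]
    refine Finset.sum_bij (fun s _ => -s) (fun s hs => (hsym s).1 hs) (fun a _ b _ h => neg_injective h)
      (fun b hb => ⟨-b, (hsym b).1 hb, by simp⟩) (fun s _ => ?_)
    rw [hq.sym, ← hp.sym (-k - s)]
    congr 2; ring
  · rw [mass_mul, hp.mass, hq.mass, one_mul]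
  · intro i j k l hij hkl
    set S : Finset ℤ := (sp q).image (fun s => s + k) ∪ (sp q).image (fun s => s + l) with hS
    have hSk : ∀ s, co q (s - k) ≠ 0 → s ∈ S := by
      intro s hs
      rw [hS, Finset.mem_union]
      left
      exact Finset.mem_image.2 ⟨s - k, mem_sp.2 hs, by ring⟩
    have hSl : ∀ s, co q (s - l) ≠ 0 → s ∈ S := by
      intro s hs
      rw [hS, Finset.mem_union]
      right
      exact Finset.mem_image.2 ⟨s - l, mem_sp.2 hs, by ring⟩
    rw [co_mul p q i k S hSk, co_mul p q j k S hSk, co_mul p q i l S hSl, co_mul p q j l S hSl]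
    rw [Finset.sum_mul_sum, Finset.sum_mul_sum, ← sub_nonneg, ← Finset.sum_sub_distrib]
    simp only [← Finset.sum_sub_distrib]
    set B : ℤ → ℤ → ℝ := fun s t => co p (i - s) * co p (j - t) * (co q (s - k) * co q (t - l) - co q (s - l) * co q (t - k)) with hB
    have e1 : ∑ s ∈ S, ∑ t ∈ S, (co p (i - s) * co q (s - k) * (co p (j - t) * co q (t - l))
        - co p (i - s) * co q (s - l) * (co p (j - t) * co q (t - k))) = ∑ s ∈ S, ∑ t ∈ S, B s t :=
      Finset.sum_congr rfl (fun s _ => Finset.sum_congr rfl (fun t _ => by simp only [hB]; ring))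
    rw [e1]
    have e2 : ∑ s ∈ S, ∑ t ∈ S, B s t = ∑ s ∈ S, ∑ t ∈ S, B t s := Finset.sum_comm
    have e3 : 0 ≤ ∑ s ∈ S, ∑ t ∈ S, (B s t + B t s) := by
      refine Finset.sum_nonneg fun s _ => Finset.sum_nonneg fun t _ => ?_
      have e4 : B s t + B t s = (co p (i - s) * co p (j - t) - co p (i - t) * co p (j - s))
          * (co q (s - k) * co q (t - l) - co q (s - l) * co q (t - k)) := by
        simp only [hB]; ring
      rw [e4]
      rcases le_total s t with hst | hst
      · have a1 := hp.tp i j s t hij hst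
        have a2 := hq.tp s t k l hst hkl
        exact mul_nonneg (by linarith) (by linarith)
      · have a1 := hp.tp i j t s hij hst
        have a2 := hq.tp t s k l hst hkl
        refine mul_nonneg_of_nonpos_of_nonpos (by linarith) (by nlinarith)
    simp only [Finset.sum_add_distrib] at e3
    linarith

theorem good_one : Good 1 := by rw [← U_zero]; exact good_U 0

theorem good_prod {ι : Type*} (s : Finset ι) (f : ι → A) (h : ∀ i ∈ s, Good (f i)) : Good (∏ i ∈ s, f i) := by
  classical
  induction s using Finset.induction_on with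
  | empty => simpa using good_one
  | insert a s ha ih =>
    rw [Finset.prod_insert ha]
    exact good_mul (h a (Finset.mem_insert_self _ _)) (ih (fun i hi => h i (Finset.mem_insert_of_mem hi)))

theorem Good.anti {p : A} (hp : Good p) (a : ℕ) : co p ((a : ℤ) + 1) ≤ co p a := by
  have h := hp.tp (-(a : ℤ)) ((a : ℤ) + 1) 0 1 (by linarith [Int.natCast_nonneg a]) (by norm_num)
  have e1 : -(a : ℤ) - 1 = -((a : ℤ) + 1) := by ring
  rw [e1, sub_zero, sub_zero, hp.sym, hp.sym, show (a : ℤ) + 1 - 1 = a by ring] at h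
  exact abs_le_of_sq_le_sq' (by nlinarith) (hp.nn _) |>.2

theorem Good.antitone {p : A} (hp : Good p) : Antitone (fun a : ℕ => co p a) :=
  antitone_nat_of_succ_le (fun a => by simpa using hp.anti a)

theorem Good.submul {p : A} (hp : Good p) (a b : ℕ) : co p 0 * co p ((a + b : ℕ) : ℤ) ≤ co p a * co p b := by
  have h := hp.tp (a : ℤ) ((a : ℤ) + b) 0 (a : ℤ) (by linarith [Int.natCast_nonneg b]) (Int.natCast_nonneg a)
  simp only [sub_self, sub_zero, add_sub_cancel_left] at h
  push_cast
  exact h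

end Pool.Agent.Q85.Ritt
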