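import Pool.Agent.Q85.Ritt1

set_option autoImplicit false
open Finset

namespace Pool.Agent.Q85.Ritt

/-! ### Absolutely convex combinations of the uniform measures -/

/-- `Rep F B`: `F` is a combination of the `U j` with sum of absolute values of the coefficients
at most `B` -/
inductive Rep : A → ℝ → Prop
  | base (j : ℕ) : Rep (U j) 1
  | zero : Rep 0 0
  | add {F G : A} {B B' : ℝ} : Rep F B → Rep G B' → Rep (F + G) (B + B')
  | smul (a : ℝ) {F : A} {B : ℝ} : Rep F B → Rep (a • F) (|a| * B)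
  | mono {F : A} {B B' : ℝ} : Rep F B → B ≤ B' → Rep F B'

theorem Rep.nonneg {F : A} {B : ℝ} (h : Rep F B) : 0 ≤ B := by
  induction h with
  | base j => exact zero_le_one
  | zero => exact le_rfl
  | add _ _ h1 h2 => linarith
  | smul a _ h => positivity
  | mono _ h1 h2 => linarith

theorem Rep.sum {ι : Type*} (s : Finset ι) (f : ι → A) (b : ι → ℝ) (h : ∀ i ∈ s, Rep (f i) (b i)) :
    Rep (∑ i ∈ s, f i) (∑ i ∈ s, b i) := by
  classical
  induction s using Finset.induction_on with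
  | empty => simpa using Rep.zero
  | insert a s ha ih =>
    rw [Finset.sum_insert ha, Finset.sum_insert ha]
    exact Rep.add (h a (Finset.mem_insert_self _ _)) (ih (fun i hi => h i (Finset.mem_insert_of_mem hi)))

/-- Abel summation for symmetric functions -/
theorem abel {F : A} (hs : ∀ k, co F (-k) = co F k) {J : ℕ} (hJ : ∀ j : ℕ, J ≤ j → co F j = 0) :
    F = ∑ j ∈ range J, ((2 * (j : ℝ) + 1) * (co F j - co F (j + 1))) • U j := by
  refine ext_co (fun k => ?_)
  rw [co_sum]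
  obtain ⟨n, hn⟩ : ∃ n : ℕ, |k| = n := ⟨k.natAbs, by simp⟩
  have hk : co F k = co F n := by
    rcases abs_choice k with h | h
    · rw [← hn, h]
    · rw [← hn, h, hs]
  have h1 : ∀ j ∈ range J, co (((2 * (j : ℝ) + 1) * (co F j - co F (j + 1))) • U j) k
      = if n ≤ j then (co F j - co F ((j + 1 : ℕ) : ℤ)) else 0 := by
    intro j _
    rw [co_smul, co_U, hn]
    have : ((n : ℤ) ≤ j) ↔ n ≤ j := by exact_mod_cast Iff.rfl
    simp only [this]
    split_ifs
    · push_cast; field_simp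
    · rw [mul_zero]
  rw [Finset.sum_congr rfl h1, ← Finset.sum_filter, hk]
  rcases le_total J n with h | h
  · rw [hJ n h, Finset.filter_false_of_mem, Finset.sum_empty]
    intro j hj
    rw [Finset.mem_range] at hj; omega
  · have h2 : (range J).filter (fun j => n ≤ j) = Finset.Ico n J := by
      ext j; simp [Finset.mem_range, Finset.mem_Ico]; omega
    rw [h2]
    have h3 := Finset.sum_Ico_sub (fun j : ℕ => co F (j : ℤ)) h
    have h4 : ∑ j ∈ Finset.Ico n J, (co F (j : ℤ) - co F ((j + 1 : ℕ) : ℤ)) = -∑ j ∈ Finset.Ico n J, (co F ((j + 1 : ℕ) : ℤ) - co F (j : ℤ)) := by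
      rw [← Finset.sum_neg_distrib]; exact Finset.sum_congr rfl (fun j _ => by ring)
    rw [h4, h3, hJ J le_rfl]; ring

theorem exists_bound (F : A) : ∃ J : ℕ, ∀ k : ℤ, (J : ℤ) ≤ |k| → co F k = 0 := by
  obtain ⟨M, hM⟩ := ((sp F).image (fun k => k.natAbs)).bddAbove
  refine ⟨M + 1, fun k hk => ?_⟩
  by_contra h
  have h1 : k.natAbs ≤ M := hM (Finset.mem_coe.2 (Finset.mem_image.2 ⟨k, mem_sp.2 h, rfl⟩))
  have : |k| = (k.natAbs : ℤ) := by simp
  rw [this] at hk
  omega

theorem Good.rep {p : A} (hp : Good p) : Rep p 1 := by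
  obtain ⟨J, hJ⟩ := exists_bound p
  have hJ' : ∀ j : ℕ, J ≤ j → co p j = 0 := fun j hj => hJ j (by simpa using hj)
  have h1 := abel hp.sym hJ'
  have h2 := Rep.sum (range J) (fun j : ℕ => ((2 * (j : ℝ) + 1) * (co p j - co p (j + 1))) • U j)
    (fun j : ℕ => |(2 * (j : ℝ) + 1) * (co p j - co p (j + 1))| * 1) (fun j _ => Rep.smul _ (Rep.base j))
  have h3 : ∑ j ∈ range J, |(2 * (j : ℝ) + 1) * (co p j - co p (j + 1))| * 1 = 1 := by
    have h4 : Ritt.mass p = ∑ j ∈ range J, ((2 * (j : ℝ) + 1) * (co p j - co p (j + 1))) := by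
      conv_lhs => rw [h1]
      unfold Ritt.mass
      rw [pair_sum]
      refine Finset.sum_congr rfl (fun j _ => ?_)
      rw [pair_smul]
      have := mass_U j
      unfold Ritt.mass at this
      rw [this, mul_one]
    refine Eq.trans ?_ (h4.symm.trans hp.mass)
    refine Finset.sum_congr rfl (fun j _ => ?_)
    rw [mul_one, abs_of_nonneg]
    have := hp.anti j
    exact mul_nonneg (by positivity) (by linarith)
  rw [← h1, h3] at h2
  exact h2

theorem Rep.mul {F G : A} {B B' : ℝ} (hF : Rep F B) (hG : Rep G B') : Rep (F * G) (B * B') := by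
  have hB' := hG.nonneg
  induction hF with
  | base i =>
    rw [one_mul]
    clear hB'
    induction hG with
    | base j => exact (good_mul (good_U i) (good_U j)).rep
    | zero => rw [mul_zero]; exact Rep.zero
    | add _ _ h1 h2 => rw [mul_add]; exact Rep.add h1 h2
    | smul a _ h => rw [mul_smul_comm]; exact Rep.smul a h
    | mono _ h1 h2 => exact Rep.mono h2 h1
  | zero => rw [zero_mul, zero_mul]; exact Rep.zero
  | add _ _ h1 h2 => rw [add_mul, add_mul]; exact Rep.add h1 h2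
  | smul a _ h => rw [smul_mul_assoc, mul_assoc]; exact Rep.smul a h
  | mono _ h1 h2 => exact Rep.mono h2 (mul_le_mul_of_nonneg_right h1 hB')

theorem Rep.pow {F : A} {B : ℝ} (hF : Rep F B) (n : ℕ) : Rep (F ^ n) (B ^ n) := by
  induction n with
  | zero => rw [pow_zero, pow_zero]; rw [← U_zero]; exact Rep.base 0
  | succ n ih => rw [pow_succ, pow_succ]; exact ih.mul hF

theorem Rep.neg {F : A} {B : ℝ} (hF : Rep F B) : Rep (-F) B := by
  have := Rep.smul (-1) hF
  rw [neg_one_smul, abs_neg, abs_one, one_mul] at this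
  exact this

theorem Rep.sub {F G : A} {B B' : ℝ} (hF : Rep F B) (hG : Rep G B') : Rep (F - G) (B + B') := by
  rw [sub_eq_add_neg]; exact Rep.add hF hG.neg

/-! ### The discrete derivative -/

/-- `∇ F (k) = F k - F (k+1)` -/
noncomputable def nab : A := 1 - T (-1)

theorem co_nab_mul (F : A) (k : ℤ) : co (nab * F) k = co F k - co F (k + 1) := by
  unfold nab
  rw [sub_mul, one_mul, co_sub, co_T_mul, sub_neg_eq_add]

theorem pair_nab_mul (φ : ℤ → ℝ) (F : A) : pair φ (nab * F) = pair (fun k => φ k - φ (k - 1)) F := by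
  unfold nab
  rw [mul_comm, pair_mul]
  congr 1
  funext k
  rw [pair_sub]
  have : (1 : A) = T 0 := rfl
  rw [this, pair_T, pair_T, add_zero, sub_eq_add_neg k]

/-- the edge weight -/
def ew (k : ℤ) : ℝ := |2 * (k : ℝ) + 1|

theorem ew_nonneg (k : ℤ) : 0 ≤ ew k := abs_nonneg _

theorem rep_of_symm {F : A} (hs : ∀ k, co F (-k) = co F k) : Rep F (wsum ew (nab * F)) := by
  classical
  obtain ⟨J, hJ⟩ := exists_bound F
  have hJ' : ∀ j : ℕ, J ≤ j → co F j = 0 := fun j hj => hJ j (by simpa using hj)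
  have h1 := abel hs hJ'
  have h2 := Rep.sum (range J) (fun j : ℕ => ((2 * (j : ℝ) + 1) * (co F j - co F (j + 1))) • U j)
    (fun j : ℕ => |(2 * (j : ℝ) + 1) * (co F j - co F (j + 1))| * 1) (fun j _ => Rep.smul _ (Rep.base j))
  rw [← h1] at h2
  refine h2.mono ?_
  have h3 : ∑ j ∈ range J, |(2 * (j : ℝ) + 1) * (co F j - co F (j + 1))| * 1
      = ∑ k ∈ (range J).image (fun j : ℕ => (j : ℤ)), ew k * |co (nab * F) k| := by
    rw [Finset.sum_image (by intro x _ y _ h; simpa using h)]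
    refine Finset.sum_congr rfl (fun j _ => ?_)
    rw [co_nab_mul, abs_mul, mul_one]
    simp [ew]
  rw [h3, wsum_eq ew (nab * F) (S := sp (nab * F) ∪ (range J).image (fun j : ℕ => (j : ℤ))) Finset.subset_union_left]
  exact Finset.sum_le_sum_of_subset_of_nonneg Finset.subset_union_right
    (fun k _ _ => mul_nonneg (ew_nonneg k) (abs_nonneg _))

theorem wsum_eq_pair_sign {F : A} {w : ℤ → ℝ} {s : ℤ → ℝ} (h : ∀ k, |co F k| = co F k * s k) :
    wsum w F = pair (fun k => w k * s k) F := by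
  unfold wsum pair
  refine Finset.sum_congr rfl (fun k _ => ?_)
  rw [h]; ring

/-- the sign of `k + 1/2` -/
noncomputable def sg (k : ℤ) : ℝ := if 0 ≤ k then 1 else -1

theorem Good.abs_nab {p : A} (hp : Good p) (k : ℤ) : |co (nab * p) k| = co (nab * p) k * sg k := by
  rw [co_nab_mul]
  unfold sg
  split_ifs with h
  · obtain ⟨n, rfl⟩ := Int.eq_ofNat_of_zero_le h
    have := hp.anti n
    rw [mul_one, abs_of_nonneg (by linarith)]
  · push Not at h
    obtain ⟨n, hn⟩ := Int.eq_ofNat_of_zero_le (show 0 ≤ -k - 1 by linarith)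
    have hk : k = -((n : ℤ) + 1) := by linarith
    have := hp.anti n
    have e1 : co p k = co p ((n : ℤ) + 1) := by rw [hk, hp.sym]
    have e2 : co p (k + 1) = co p (n : ℤ) := by
      rw [show k + 1 = -(n : ℤ) by linarith, hp.sym]
    rw [e1, e2, abs_of_nonpos (by linarith)]; ring

theorem Good.norm_nab {p : A} (hp : Good p) : wsum (fun _ => 1) (nab * p) = 2 * co p 0 := by
  rw [wsum_eq_pair_sign hp.abs_nab, pair_nab_mul]
  rw [pair_eq _ p (S := sp p ∪ {0}) Finset.subset_union_left, Finset.sum_eq_single 0]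
  · simp [sg]; ring
  · intro k _ hk
    unfold sg
    rcases lt_or_gt_of_ne hk with h | h
    · rw [if_neg (by linarith), if_neg (by linarith)]; ring
    · rw [if_pos (by linarith), if_pos (by omega)]; ring
  · intro h; exact absurd (Finset.mem_union_right _ (Finset.mem_singleton_self 0)) h

theorem Good.ew_nab {p : A} (hp : Good p) : wsum ew (nab * p) = 2 := by
  rw [wsum_eq_pair_sign hp.abs_nab, pair_nab_mul]
  have h1 : ∀ k : ℤ, ew k * sg k = 2 * (k : ℝ) + 1 := by
    intro k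
    unfold ew sg
    split_ifs with h
    · have : (0 : ℝ) ≤ k := by exact_mod_cast h
      rw [abs_of_nonneg (by linarith), mul_one]
    · push Not at h
      have : (k : ℝ) ≤ -1 := by exact_mod_cast (by omega : k ≤ -1)
      rw [abs_of_nonpos (by linarith)]; ring
  have h2 : (fun k : ℤ => ew k * sg k - ew (k - 1) * sg (k - 1)) = fun _ => 2 * 1 := by
    funext k
    rw [h1, h1]; push_cast; ring
  rw [h2]
  have h3 : pair (fun _ => (2 : ℝ) * 1) p = 2 * Ritt.mass p := by
    unfold Ritt.mass pair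
    rw [Finset.mul_sum]
    exact Finset.sum_congr rfl (fun k _ => by ring)
  rw [h3, hp.mass, mul_one]

/-! ### The factor `1 - U r` -/

/-- `D r = δ₀ - U r` -/
noncomputable def D (r : ℕ) : A := 1 - U r

theorem D_zero : D 0 = 0 := by rw [D, U_zero, sub_self]

theorem rep_D (r : ℕ) : Rep (D r) 2 := by
  have := Rep.sub (Rep.base 0) (Rep.base r)
  rw [U_zero] at this
  exact this.mono (by norm_num)

/-- geometric sums -/
theorem geom (m : ℤ) (k : ℕ) : (1 - T m) * ∑ a ∈ range k, T (m * a) = 1 - T (m * k) := by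
  induction k with
  | zero => simp [T_zero]
  | succ k ih =>
    rw [Finset.sum_range_succ, mul_add, ih, sub_mul, one_mul, T_mul_T]
    have : m + m * (k : ℤ) = m * ((k + 1 : ℕ) : ℤ) := by push_cast; ring
    rw [this]; abel

/-- the function `h` with `2 δ₀ - δ_k - δ_{-k} = - δ_1 ∇² h` -/
noncomputable def hk (k : ℕ) : A := (∑ a ∈ range k, T (1 * a)) * ∑ a ∈ range k, T (-1 * a)

theorem hk_spec (k : ℕ) : (1 - T k) + (1 - T (-k)) = -(T 1 * (nab * (nab * hk k))) := by
  have h1 := geom 1 k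
  have h2 := geom (-1) k
  have h3 : (1 - T 1 : A) = -(T 1 * nab) := by
    unfold nab
    rw [mul_sub, T_mul_T, mul_one]
    simp [T_zero]
  have h4 : ((1 : A) - T (k : ℤ)) + (1 - T (-(k : ℤ))) = (1 - T (k : ℤ)) * (1 - T (-(k : ℤ))) := by
    have h5 : T (k : ℤ) * T (-(k : ℤ)) = 1 := by rw [T_mul_T, add_neg_cancel, T_zero]
    linear_combination -h5
  have e1 : (1 : ℤ) * k = k := one_mul _
  have e2 : (-1 : ℤ) * k = -k := by ring
  rw [e1] at h1
  rw [e2] at h2
  rw [h4, ← h1, ← h2, h3]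
  unfold hk nab
  ring

theorem wsum_geom (w : ℤ → ℝ) (hw : ∀ k, 0 ≤ w k) (m : ℤ) (k : ℕ) {B : ℝ} (hB : ∀ a ∈ range k, w (m * a) ≤ B) :
    wsum w (∑ a ∈ range k, T (m * a)) ≤ k * B := by
  refine (wsum_sum_le hw _ _).trans ?_
  simp only [wsum_T]
  refine (Finset.sum_le_sum hB).trans ?_
  simp

theorem hk_norm (k : ℕ) : wsum (fun _ => 1) (hk k) ≤ (k : ℝ) ^ 2 := by
  refine (wsum_one_mul_le _ _).trans ?_
  have h1 := wsum_geom (fun _ => 1) (fun _ => zero_le_one) 1 k (B := 1) (fun _ _ => le_rfl)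
  have h2 := wsum_geom (fun _ => 1) (fun _ => zero_le_one) (-1) k (B := 1) (fun _ _ => le_rfl)
  rw [mul_one] at h1 h2
  have h3 := wsum_nonneg (w := fun _ => 1) (fun _ => zero_le_one) (∑ a ∈ range k, T (-1 * a))
  rw [sq]
  exact mul_le_mul h1 h2 h3 (Nat.cast_nonneg _)

theorem hk_weight (k : ℕ) : wsum (fun j => 2 * |(j : ℝ)|) (hk k) ≤ 4 * (k : ℝ) ^ 3 := by
  have hw : ∀ j : ℤ, (0 : ℝ) ≤ 2 * |(j : ℝ)| := fun j => by positivity
  refine (wsum_mul_le hw (w₁ := fun j => 2 * |(j : ℝ)|) (w₂ := fun j => 2 * |(j : ℝ)|) ?_ _ _).trans ?_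
  · intro a b; push_cast
    have := abs_add_le (a : ℝ) b
    linarith
  have h1 := wsum_geom (fun _ => 1) (fun _ => zero_le_one) 1 k (B := 1) (fun _ _ => le_rfl)
  have h2 := wsum_geom (fun _ => 1) (fun _ => zero_le_one) (-1) k (B := 1) (fun _ _ => le_rfl)
  have h3 := wsum_geom (fun j => 2 * |(j : ℝ)|) hw 1 k (B := 2 * k) (by
    intro a ha
    have : (a : ℝ) ≤ k := by exact_mod_cast (Finset.mem_range.1 ha).le
    push_cast
    rw [one_mul, abs_of_nonneg (Nat.cast_nonneg _)]; linarith)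
  have h4 := wsum_geom (fun j => 2 * |(j : ℝ)|) hw (-1) k (B := 2 * k) (by
    intro a ha
    have : (a : ℝ) ≤ k := by exact_mod_cast (Finset.mem_range.1 ha).le
    push_cast
    rw [neg_mul, one_mul, abs_neg, abs_of_nonneg (Nat.cast_nonneg _)]; linarith)
  rw [mul_one] at h1 h2
  have h5 := wsum_nonneg (w := fun _ => 1) (fun _ => zero_le_one) (∑ a ∈ range k, T (-1 * a))
  have h6 := wsum_nonneg (w := fun _ => 1) (fun _ => zero_le_one) (∑ a ∈ range k, T (1 * a))
  have h7 := wsum_nonneg hw (∑ a ∈ range k, T (-1 * a))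
  have h8 := wsum_nonneg hw (∑ a ∈ range k, T (1 * a))
  have hk0 : (0 : ℝ) ≤ k := Nat.cast_nonneg _
  have i1 := mul_le_mul h3 h2 h5 (by positivity)
  have i2 := mul_le_mul h1 h4 h7 (by positivity)
  nlinarith

/-- the function `h_r` with `D r = - δ_1 ∇² h_r` -/
noncomputable def hr (r : ℕ) : A := (1 / (2 * (r : ℝ) + 1)) • ∑ k ∈ range r, hk (k + 1)

theorem sum_Icc_symm {M : Type*} [AddCommMonoid M] (f : ℤ → M) (r : ℕ) :
    ∑ k ∈ Finset.Icc (-(r : ℤ)) r, f k = f 0 + ∑ k ∈ range r, (f ((k + 1 : ℕ) : ℤ) + f (-((k + 1 : ℕ) : ℤ))) := by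
  induction r with
  | zero => simp
  | succ r ih =>
    have h1 : Finset.Icc (-((r + 1 : ℕ) : ℤ)) ((r + 1 : ℕ) : ℤ)
        = insert ((r + 1 : ℕ) : ℤ) (insert (-((r + 1 : ℕ) : ℤ)) (Finset.Icc (-(r : ℤ)) r)) := by
      ext x
      simp only [Finset.mem_Icc, Finset.mem_insert]
      push_cast
      omega
    rw [h1, Finset.sum_insert, Finset.sum_insert, ih, Finset.sum_range_succ]
    · rw [← add_assoc, add_comm (f _ + f _), add_assoc]
    · simp only [Finset.mem_Icc]; push_cast; omega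
    · simp only [Finset.mem_insert, Finset.mem_Icc]; push_cast; omega

theorem D_eq (r : ℕ) : D r = -(T 1 * (nab * (nab * hr r))) := by
  have h1 : (2 * (r : ℝ) + 1) ≠ 0 := by positivity
  have h2 : D r = (1 / (2 * (r : ℝ) + 1)) • ∑ k ∈ Finset.Icc (-(r : ℤ)) r, (1 - T k) := by
    rw [Finset.sum_sub_distrib, smul_sub]
    unfold D U
    congr 1
    rw [Finset.sum_const, Int.card_Icc]
    have : ((r : ℤ) + 1 - -(r : ℤ)).toNat = 2 * r + 1 := by omega
    rw [this, ← Nat.cast_smul_eq_nsmul ℝ, smul_smul]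
    push_cast
    rw [one_div, inv_mul_cancel₀ h1, one_smul]
  rw [h2, sum_Icc_symm, T_zero, sub_self, zero_add]
  simp only [hk_spec]
  unfold hr
  rw [Finset.sum_neg_distrib, mul_smul_comm, mul_smul_comm, mul_smul_comm, smul_neg, Finset.mul_sum, Finset.mul_sum,
    Finset.mul_sum]

theorem hr_norm (r : ℕ) : wsum (fun _ => 1) (hr r) ≤ (r : ℝ) ^ 2 := by
  unfold hr
  rw [wsum_smul, abs_of_pos (by positivity)]
  have h1 : wsum (fun _ => 1) (∑ k ∈ range r, hk (k + 1)) ≤ ∑ k ∈ range r, (r : ℝ) ^ 2 := by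
    refine (wsum_sum_le (fun _ => zero_le_one) _ _).trans (Finset.sum_le_sum fun k hk' => ?_)
    refine (hk_norm (k + 1)).trans ?_
    have : ((k + 1 : ℕ) : ℝ) ≤ r := by exact_mod_cast (Finset.mem_range.1 hk')
    gcongr
  rw [Finset.sum_const, card_range, nsmul_eq_mul] at h1
  have hr0 : (0 : ℝ) ≤ r := Nat.cast_nonneg _
  rw [one_div, ← div_eq_inv_mul, div_le_iff₀ (by positivity)]
  nlinarith [sq_nonneg (r : ℝ), mul_nonneg hr0 (sq_nonneg (r : ℝ))]

theorem hr_weight (r : ℕ) : wsum (fun j => 2 * |(j : ℝ)|) (hr r) ≤ 2 * (r : ℝ) ^ 3 := by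
  have hw : ∀ j : ℤ, (0 : ℝ) ≤ 2 * |(j : ℝ)| := fun j => by positivity
  unfold hr
  rw [wsum_smul, abs_of_pos (by positivity)]
  have h1 : wsum (fun j => 2 * |(j : ℝ)|) (∑ k ∈ range r, hk (k + 1)) ≤ ∑ k ∈ range r, 4 * (r : ℝ) ^ 3 := by
    refine (wsum_sum_le hw _ _).trans (Finset.sum_le_sum fun k hk' => ?_)
    refine (hk_weight (k + 1)).trans ?_
    have : ((k + 1 : ℕ) : ℝ) ≤ r := by exact_mod_cast (Finset.mem_range.1 hk')
    gcongr
  rw [Finset.sum_const, card_range, nsmul_eq_mul] at h1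
  have hr0 : (0 : ℝ) ≤ r := Nat.cast_nonneg _
  rw [one_div, ← div_eq_inv_mul, div_le_iff₀ (by positivity)]
  have h2 : 0 ≤ (r : ℝ) ^ 3 := by positivity
  nlinarith

/-! ### The value at the origin and the second moment -/

/-- second moment -/
noncomputable def m2 (F : A) : ℝ := pair (fun k => (k : ℝ) ^ 2) F

theorem pair_odd {F : A} (hs : ∀ k, co F (-k) = co F k) : pair (fun k => (k : ℝ)) F = 0 := by
  classical
  have h1 : pair (fun k => (k : ℝ)) F = -pair (fun k => (k : ℝ)) F := by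
    conv_lhs => unfold pair
    unfold pair
    rw [← Finset.sum_neg_distrib]
    have hsym : ∀ s, s ∈ sp F → -s ∈ sp F := fun s => by rw [mem_sp, mem_sp, hs]; exact id
    refine Finset.sum_bij (fun s _ => -s) (fun s hs => hsym s hs) (fun a _ b _ h => neg_injective h)
      (fun b hb => ⟨-b, hsym b hb, by simp⟩) (fun s _ => ?_)
    rw [hs]; push_cast; ring
  linarith

theorem pair_congr {φ ψ : ℤ → ℝ} (h : ∀ k, φ k = ψ k) (F : A) : pair φ F = pair ψ F := by
  have : φ = ψ := funext h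
  rw [this]

theorem pair_phi_add (φ ψ : ℤ → ℝ) (F : A) : pair (fun k => φ k + ψ k) F = pair φ F + pair ψ F := by
  unfold pair
  rw [← Finset.sum_add_distrib]
  exact Finset.sum_congr rfl (fun k _ => by ring)

theorem pair_phi_mul (c : ℝ) (φ : ℤ → ℝ) (F : A) : pair (fun k => c * φ k) F = c * pair φ F := by
  unfold pair
  rw [Finset.mul_sum]
  exact Finset.sum_congr rfl (fun k _ => by ring)

theorem pair_const (c : ℝ) (F : A) : pair (fun _ => c) F = c * mass F := by
  have := pair_phi_mul c (fun _ => 1) F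
  simp only [mul_one] at this
  exact this

theorem m2_mul {p q : A} (hp : Good p) (hq : Good q) : m2 (p * q) = m2 p + m2 q := by
  unfold m2
  rw [pair_mul]
  have h1 : ∀ k : ℤ, pair (fun l => (((k + l : ℤ) : ℝ)) ^ 2) q = (k : ℝ) ^ 2 + pair (fun l => (l : ℝ) ^ 2) q := by
    intro k
    have e : ∀ l : ℤ, (((k + l : ℤ) : ℝ)) ^ 2 = (k : ℝ) ^ 2 + ((2 * (k : ℝ)) * l + (l : ℝ) ^ 2) := by
      intro l; push_cast; ring
    rw [pair_congr e, pair_phi_add, pair_phi_add, pair_phi_mul, pair_odd hq.sym, pair_const, hq.mass]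
    ring
  rw [pair_congr h1, pair_phi_add, pair_const, hp.mass, mul_one]

theorem m2_one : m2 1 = 0 := by
  unfold m2
  rw [← T_zero, pair_T]; simp

theorem m2_prod {ι : Type*} (s : Finset ι) (f : ι → A) (h : ∀ i ∈ s, Good (f i)) :
    m2 (∏ i ∈ s, f i) = ∑ i ∈ s, m2 (f i) := by
  classical
  induction s using Finset.induction_on with
  | empty => simp [m2_one]
  | insert a s ha ih =>
    rw [Finset.prod_insert ha, Finset.sum_insert ha, m2_mul (h a (Finset.mem_insert_self _ _))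
      (good_prod s f (fun i hi => h i (Finset.mem_insert_of_mem hi))),
      ih (fun i hi => h i (Finset.mem_insert_of_mem hi))]

theorem m2_U (r : ℕ) : (r : ℝ) ^ 2 / 3 ≤ m2 (U r) := by
  unfold m2
  rw [pair_U, sum_Icc_symm]
  have h1 : ∀ r : ℕ, ∑ k ∈ range r, ((((k + 1 : ℕ) : ℤ) : ℝ) ^ 2 + (((-((k + 1 : ℕ) : ℤ) : ℤ)) : ℝ) ^ 2)
      = (r : ℝ) * (r + 1) * (2 * r + 1) / 3 := by
    intro r
    induction r with
    | zero => simp
    | succ r ih => rw [Finset.sum_range_succ, ih]; push_cast; ring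
  rw [h1]
  have : (0 : ℝ) < 2 * (r : ℝ) + 1 := by positivity
  have hr0 : (0 : ℝ) ≤ r := Nat.cast_nonneg _
  push_cast
  rw [zero_pow two_ne_zero, zero_add, one_div, ← div_eq_inv_mul, le_div_iff₀ this]
  nlinarith [mul_nonneg hr0 hr0]

theorem geo_sum (J : ℕ) : ∑ j ∈ range J, ((j : ℝ) + 1) ^ 2 * (1 / 2) ^ j
    = 12 - (2 * (J : ℝ) ^ 2 + 8 * J + 12) * (1 / 2) ^ J := by
  induction J with
  | zero => simp
  | succ J ih => rw [Finset.sum_range_succ, ih, pow_succ]; push_cast; ring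

theorem Good.pos_zero {p : A} (hp : Good p) : 0 < co p 0 := by
  by_contra h
  push Not at h
  have h1 : ∀ n : ℕ, co p n = 0 := by
    intro n
    have h2 : co p n ≤ co p 0 := by simpa using hp.antitone (Nat.zero_le n)
    exact le_antisymm (h2.trans h) (hp.nn _)
  have h3 : ∀ k, co p k = 0 := by
    intro k
    rcases le_total 0 k with hk | hk
    · obtain ⟨n, rfl⟩ := Int.eq_ofNat_of_zero_le hk; exact h1 n
    · obtain ⟨n, hn⟩ := Int.eq_ofNat_of_zero_le (show 0 ≤ -k by linarith)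
      have : k = -(n : ℤ) := by linarith
      rw [this, hp.sym]; exact h1 n
  have h4 : p = 0 := ext_co (fun k => by rw [h3]; rfl)
  have h5 := hp.mass
  rw [h4] at h5
  unfold Ritt.mass at h5
  rw [pair_zero] at h5
  exact zero_ne_one h5

/-- the value at the origin is at most a constant over the standard deviation -/
theorem Good.zero_le {p : A} (hp : Good p) : co p 0 ^ 2 * m2 p ≤ 192 := by
  classical
  set M := co p 0 with hM
  have hM0 : 0 < M := hp.pos_zero
  obtain ⟨J, hJ⟩ := exists_bound p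
  have hex : ∃ n : ℕ, co p n ≤ M / 2 := ⟨J, by rw [hJ J (by simp)]; positivity⟩
  set k₀ := Nat.find hex with hk₀
  have hk1 : co p k₀ ≤ M / 2 := Nat.find_spec hex
  have hk2 : ∀ n : ℕ, n < k₀ → M / 2 < co p n := fun n hn => not_le.1 (Nat.find_min hex hn)
  have hkpos : 0 < k₀ := by
    rw [Nat.pos_iff_ne_zero]
    intro h
    rw [h] at hk1
    simp only [Nat.cast_zero] at hk1
    linarith
  -- the mass
  have hmass : (k₀ : ℝ) * M ≤ 2 := by
    have h1 : ∑ k ∈ range k₀, co p k ≤ 1 := by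
      rw [← hp.mass]
      unfold Ritt.mass
      rw [pair_eq _ p (S := sp p ∪ (range k₀).image (fun j : ℕ => (j : ℤ))) Finset.subset_union_left]
      have h2 : ∑ k ∈ range k₀, co p k = ∑ k ∈ (range k₀).image (fun j : ℕ => (j : ℤ)), co p k * 1 := by
        rw [Finset.sum_image (by intro x _ y _ h; simpa using h)]
        exact Finset.sum_congr rfl (fun k _ => by rw [mul_one])
      rw [h2]
      exact Finset.sum_le_sum_of_subset_of_nonneg Finset.subset_union_right
        (fun k _ _ => by rw [mul_one]; exact hp.nn k)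
    have h2 : ∑ k ∈ range k₀, (M / 2) ≤ ∑ k ∈ range k₀, co p k :=
      Finset.sum_le_sum (fun k hk => (hk2 k (Finset.mem_range.1 hk)).le)
    rw [Finset.sum_const, card_range, nsmul_eq_mul] at h2
    linarith
  -- geometric decay
  have hdec : ∀ L : ℕ, co p ((k₀ * L : ℕ) : ℤ) ≤ M * (1 / 2) ^ L := by
    intro L
    induction L with
    | zero => simp [hM]
    | succ L ih =>
      have h1 := hp.submul (k₀ * L) k₀
      rw [← hM] at h1
      have h2 : k₀ * (L + 1) = k₀ * L + k₀ := by ring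
      rw [h2, pow_succ]
      have h3 : co p ((k₀ * L : ℕ) : ℤ) * co p k₀ ≤ (M * (1 / 2) ^ L) * (M / 2) :=
        mul_le_mul ih hk1 (hp.nn _) (by positivity)
      have h4 : M * co p ((k₀ * L + k₀ : ℕ) : ℤ) ≤ M * (M * ((1 / 2) ^ L * (1 / 2))) := by
        refine h1.trans (h3.trans (le_of_eq (by ring)))
      exact le_of_mul_le_mul_left h4 hM0
  have hsum : ∀ L : ℕ, ∑ k ∈ range (k₀ * L), (k : ℝ) ^ 2 * co p k
      ≤ M * (k₀ : ℝ) ^ 3 * ∑ j ∈ range L, ((j : ℝ) + 1) ^ 2 * (1 / 2) ^ j := by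
    intro L
    induction L with
    | zero => simp
    | succ L ih =>
      rw [Nat.mul_succ, Finset.sum_range_add, Finset.sum_range_succ _ L, mul_add]
      refine add_le_add ih ?_
      have h1 : ∀ i ∈ range k₀, ((k₀ * L + i : ℕ) : ℝ) ^ 2 * co p ((k₀ * L + i : ℕ) : ℤ)
          ≤ ((k₀ : ℝ) * (L + 1)) ^ 2 * (M * (1 / 2) ^ L) := by
        intro i hi
        have h2 : ((k₀ * L + i : ℕ) : ℝ) ≤ (k₀ : ℝ) * (L + 1) := by
          have : k₀ * L + i ≤ k₀ * (L + 1) := by
            have := Finset.mem_range.1 hi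
            nlinarith
          have h3 : ((k₀ * L + i : ℕ) : ℝ) ≤ ((k₀ * (L + 1) : ℕ) : ℝ) := by exact_mod_cast this
          refine h3.trans (le_of_eq (by push_cast; ring))
        have h3 : co p ((k₀ * L + i : ℕ) : ℤ) ≤ M * (1 / 2) ^ L :=
          (hp.antitone (Nat.le_add_right (k₀ * L) i)).trans (hdec L)
        exact mul_le_mul (by gcongr) h3 (hp.nn _) (by positivity)
      refine (Finset.sum_le_sum h1).trans ?_
      rw [Finset.sum_const, card_range, nsmul_eq_mul]
      exact le_of_eq (by ring)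
  -- the second moment
  have hm2 : m2 p ≤ 2 * ∑ k ∈ range (k₀ * (J + 1)), (k : ℝ) ^ 2 * co p k := by
    unfold m2
    rw [pair_eq _ p (S := Finset.Icc (-(J : ℤ)) J)]
    · rw [sum_Icc_symm]
      have h1 : ∀ k ∈ range J, (co p ((k + 1 : ℕ) : ℤ) * (((k + 1 : ℕ) : ℤ) : ℝ) ^ 2
          + co p (-((k + 1 : ℕ) : ℤ)) * (((-((k + 1 : ℕ) : ℤ) : ℤ)) : ℝ) ^ 2)
          = 2 * (((k + 1 : ℕ) : ℝ) ^ 2 * co p ((k + 1 : ℕ) : ℤ)) := by
        intro k _
        rw [hp.sym]; push_cast; ring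
      rw [Finset.sum_congr rfl h1, ← Finset.mul_sum]
      have h2 : ∑ k ∈ range J, (((k + 1 : ℕ) : ℝ) ^ 2 * co p ((k + 1 : ℕ) : ℤ)) ≤ ∑ k ∈ range (J + 1), (k : ℝ) ^ 2 * co p k := by
        rw [Finset.sum_range_succ' _ J]
        simp
      have h3 : ∑ k ∈ range (J + 1), (k : ℝ) ^ 2 * co p k ≤ ∑ k ∈ range (k₀ * (J + 1)), (k : ℝ) ^ 2 * co p k := by
        refine Finset.sum_le_sum_of_subset_of_nonneg ?_ (fun k _ _ => mul_nonneg (by positivity) (hp.nn _))
        intro x hx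
        rw [Finset.mem_range] at hx ⊢
        nlinarith
      have h4 : co p 0 * ((0 : ℤ) : ℝ) ^ 2 = 0 := by simp
      rw [h4, zero_add]
      linarith
    · intro k hk
      rw [mem_sp] at hk
      by_contra h
      apply hk
      refine hJ k ?_
      rw [Finset.mem_Icc, ← abs_le] at h
      exact (not_le.1 h).le
  have h1 := hsum (J + 1)
  rw [geo_sum] at h1
  have h2 : M * (k₀ : ℝ) ^ 3 * (12 - (2 * ((J + 1 : ℕ) : ℝ) ^ 2 + 8 * ((J + 1 : ℕ) : ℝ) + 12) * (1 / 2) ^ (J + 1))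
      ≤ M * (k₀ : ℝ) ^ 3 * 12 := by
    have : (0 : ℝ) ≤ (2 * ((J + 1 : ℕ) : ℝ) ^ 2 + 8 * ((J + 1 : ℕ) : ℝ) + 12) * (1 / 2) ^ (J + 1) := by positivity
    gcongr
    linarith
  have h3 : m2 p ≤ 24 * (M * (k₀ : ℝ) ^ 3) := by linarith
  have h4 : M ^ 2 * m2 p ≤ 24 * ((k₀ : ℝ) * M) ^ 3 := by
    calc M ^ 2 * m2 p ≤ M ^ 2 * (24 * (M * (k₀ : ℝ) ^ 3)) := by gcongr
      _ = _ := by ring
  have h5 : ((k₀ : ℝ) * M) ^ 3 ≤ 2 ^ 3 := by gcongr
  linarith

end Pool.Agent.Q85.Ritt
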