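import Pool.Agent.Q85.Ritt2

set_option autoImplicit false
open Finset

namespace Pool.Agent.Q85.Ritt

theorem main_wsum {p₁ p₂ p₃ : A} (h₁ : Good p₁) (h₂ : Good p₂) (h₃ : Good p₃) (r : ℕ) :
    wsum ew (nab * (D r * (p₁ * p₂ * p₃))) ≤ 8 * (r : ℝ) ^ 2 * (2 * r * (co p₁ 0 * (co p₂ 0 * co p₃ 0))
      + (co p₂ 0 * co p₃ 0 + co p₁ 0 * co p₃ 0 + co p₁ 0 * co p₂ 0)) := by
  have e1 : nab * (D r * (p₁ * p₂ * p₃)) = -(T 1 * (hr r * ((nab * p₁) * ((nab * p₂) * (nab * p₃))))) := by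
    rw [D_eq]; ring
  rw [e1, wsum_neg, wsum_T_mul]
  set a₁ := co p₁ 0
  set a₂ := co p₂ 0
  set a₃ := co p₃ 0
  have ha₁ : 0 ≤ a₁ := h₁.nn 0
  have ha₂ : 0 ≤ a₂ := h₂.nn 0
  have ha₃ : 0 ≤ a₃ := h₃.nn 0
  have hF₁ := h₁.norm_nab
  have hF₂ := h₂.norm_nab
  have hF₃ := h₃.norm_nab
  have hE₁ := h₁.ew_nab
  have hE₂ := h₂.ew_nab
  have hE₃ := h₃.ew_nab
  set F₁ := nab * p₁
  set F₂ := nab * p₂
  set F₃ := nab * p₃
  have w23 : wsum (fun k : ℤ => |2 * (k : ℝ) + 2|) (F₂ * F₃) ≤ 4 * a₃ + 4 * a₂ := by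
    refine (wsum_mul_le (w₁ := ew) (w₂ := ew) (fun _ => abs_nonneg _) ?_ F₂ F₃).trans ?_
    · intro k l
      unfold ew
      push_cast
      have := abs_add_le (2 * (k : ℝ) + 1) (2 * (l : ℝ) + 1)
      refine le_trans (le_of_eq ?_) this
      congr 1; ring
    · rw [hE₂, hE₃, hF₂, hF₃]; linarith
  have n23 : wsum (fun _ => 1) (F₂ * F₃) ≤ 4 * (a₂ * a₃) := by
    refine (wsum_one_mul_le F₂ F₃).trans ?_
    rw [hF₂, hF₃]; exact le_of_eq (by ring)
  have n23' : 0 ≤ wsum (fun _ => 1) (F₂ * F₃) := wsum_nonneg (fun _ => zero_le_one) _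
  have w123 : wsum (fun k : ℤ => |2 * (k : ℝ) + 3|) (F₁ * (F₂ * F₃)) ≤ 8 * (a₂ * a₃ + a₁ * a₃ + a₁ * a₂) := by
    refine (wsum_mul_le (w₁ := ew) (w₂ := fun k : ℤ => |2 * (k : ℝ) + 2|) (fun _ => abs_nonneg _) ?_ F₁ (F₂ * F₃)).trans ?_
    · intro k l
      unfold ew
      push_cast
      have := abs_add_le (2 * (k : ℝ) + 1) (2 * (l : ℝ) + 2)
      refine le_trans (le_of_eq ?_) this
      congr 1; ring
    · rw [hE₁, hF₁]
      have i1 : 2 * a₁ * wsum (fun k : ℤ => |2 * (k : ℝ) + 2|) (F₂ * F₃) ≤ 2 * a₁ * (4 * a₃ + 4 * a₂) := by gcongr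
      nlinarith
  have n123 : wsum (fun _ => 1) (F₁ * (F₂ * F₃)) ≤ 8 * (a₁ * (a₂ * a₃)) := by
    refine (wsum_one_mul_le F₁ (F₂ * F₃)).trans ?_
    rw [hF₁]
    calc 2 * a₁ * wsum (fun _ => 1) (F₂ * F₃) ≤ 2 * a₁ * (4 * (a₂ * a₃)) := by gcongr
      _ = _ := by ring
  refine (wsum_mul_le (w₁ := fun j : ℤ => 2 * |(j : ℝ)|) (w₂ := fun k : ℤ => |2 * (k : ℝ) + 3|)
    (fun _ => ew_nonneg _) ?_ (hr r) (F₁ * (F₂ * F₃))).trans ?_
  · intro k l
    unfold ew
    push_cast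
    have := abs_add_le (2 * (k : ℝ)) (2 * (l : ℝ) + 3)
    have e : |2 * (k : ℝ)| = 2 * |(k : ℝ)| := by rw [abs_mul]; norm_num
    rw [e] at this
    refine le_trans (le_of_eq ?_) this
    congr 1; ring
  · have i1 := hr_norm r
    have i2 := hr_weight r
    have i3 : 0 ≤ wsum (fun _ => 1) (F₁ * (F₂ * F₃)) := wsum_nonneg (fun _ => zero_le_one) _
    have i4 : 0 ≤ wsum (fun k : ℤ => |2 * (k : ℝ) + 3|) (F₁ * (F₂ * F₃)) := wsum_nonneg (fun _ => abs_nonneg _) _
    have i5 : wsum (fun j : ℤ => 2 * |(j : ℝ)|) (hr r) * wsum (fun _ => 1) (F₁ * (F₂ * F₃))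
        ≤ (2 * (r : ℝ) ^ 3) * (8 * (a₁ * (a₂ * a₃))) := mul_le_mul i2 n123 i3 (by positivity)
    have i6 : wsum (fun _ => 1) (hr r) * wsum (fun k : ℤ => |2 * (k : ℝ) + 3|) (F₁ * (F₂ * F₃))
        ≤ (r : ℝ) ^ 2 * (8 * (a₂ * a₃ + a₁ * a₃ + a₁ * a₂)) := mul_le_mul i1 w123 i4 (by positivity)
    refine (add_le_add i5 i6).trans (le_of_eq ?_)
    ring

theorem co_symm_mul {F G : A} (hF : ∀ k, co F (-k) = co F k) (hG : ∀ k, co G (-k) = co G k) (k : ℤ) :
    co (F * G) (-k) = co (F * G) k := by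
  have hform : ∀ k : ℤ, co (F * G) k = ∑ s ∈ sp G, co F (k - s) * co G s := by
    intro k
    have := co_mul F G k 0 (sp G) (fun s hs => mem_sp.2 (by simpa using hs))
    simpa using this
  rw [hform, hform]
  have hsym : ∀ s, s ∈ sp G ↔ -s ∈ sp G := fun s => by rw [mem_sp, mem_sp, hG]
  refine Finset.sum_bij (fun s _ => -s) (fun s hs => (hsym s).1 hs) (fun a _ b _ h => neg_injective h)
    (fun b hb => ⟨-b, (hsym b).1 hb, by simp⟩) (fun s _ => ?_)
  rw [hG, ← hF (-k - s)]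
  congr 2; ring

theorem D_symm (r : ℕ) (k : ℤ) : co (D r) (-k) = co (D r) k := by
  unfold D
  rw [co_sub, co_sub, (good_U r).sym, (good_one).sym]

/-- the main estimate -/
theorem main_est {p₁ p₂ p₃ : A} (h₁ : Good p₁) (h₂ : Good p₂) (h₃ : Good p₃) (r : ℕ) {V₁ V₂ V₃ W : ℝ}
    (hm₁ : V₁ / 3 ≤ m2 p₁) (hm₂ : V₂ / 3 ≤ m2 p₂) (hm₃ : V₃ / 3 ≤ m2 p₃)
    (hr₁ : (r : ℝ) ^ 2 ≤ V₁) (hW₁ : W ≤ 6 * V₁) (hW₂ : W ≤ 6 * V₂) (hW₃ : W ≤ 6 * V₃) (hW : 0 < W) :
    Rep (D r * (p₁ * p₂ * p₃)) (1410048 * ((r : ℝ) ^ 2 / W)) := by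
  have hs : ∀ k, co (D r * (p₁ * p₂ * p₃)) (-k) = co (D r * (p₁ * p₂ * p₃)) k :=
    co_symm_mul (D_symm r) (good_mul (good_mul h₁ h₂) h₃).sym
  refine (rep_of_symm hs).mono ((main_wsum h₁ h₂ h₃ r).trans ?_)
  have z₁ := h₁.zero_le
  have z₂ := h₂.zero_le
  have z₃ := h₃.zero_le
  set a₁ := co p₁ 0
  set a₂ := co p₂ 0
  set a₃ := co p₃ 0
  have ha₁ : 0 ≤ a₁ := h₁.nn 0
  have ha₂ : 0 ≤ a₂ := h₂.nn 0
  have ha₃ : 0 ≤ a₃ := h₃.nn 0
  have y₁ : a₁ ^ 2 * V₁ ≤ 576 := by nlinarith [sq_nonneg a₁, mul_le_mul_of_nonneg_left hm₁ (sq_nonneg a₁)]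
  have y₂ : a₂ ^ 2 * V₂ ≤ 576 := by nlinarith [sq_nonneg a₂, mul_le_mul_of_nonneg_left hm₂ (sq_nonneg a₂)]
  have y₃ : a₃ ^ 2 * V₃ ≤ 576 := by nlinarith [sq_nonneg a₃, mul_le_mul_of_nonneg_left hm₃ (sq_nonneg a₃)]
  have hra : (r : ℝ) * a₁ ≤ 24 := by
    have : ((r : ℝ) * a₁) ^ 2 ≤ 24 ^ 2 := by
      have := mul_le_mul_of_nonneg_left hr₁ (sq_nonneg a₁)
      nlinarith
    exact le_of_sq_le_sq this (by norm_num)
  have prod : ∀ {a b V V' : ℝ}, 0 ≤ a → 0 ≤ b → a ^ 2 * V ≤ 576 → b ^ 2 * V' ≤ 576 → W ≤ 6 * V → W ≤ 6 * V' →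
      a * b ≤ 3456 / W := by
    intro a b V V' ha hb hV hV' hWV hWV'
    rw [le_div_iff₀ hW]
    have j1 : a ^ 2 * W ≤ 3456 := by nlinarith [mul_le_mul_of_nonneg_left hWV (sq_nonneg a)]
    have j2 : b ^ 2 * W ≤ 3456 := by nlinarith [mul_le_mul_of_nonneg_left hWV' (sq_nonneg b)]
    have j3 : (a * b * W) ^ 2 ≤ 3456 ^ 2 := by
      have : (a * b * W) ^ 2 = (a ^ 2 * W) * (b ^ 2 * W) := by ring
      rw [this, sq (3456 : ℝ)]
      exact mul_le_mul j1 j2 (by positivity) (by norm_num)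
    exact le_of_sq_le_sq j3 (by norm_num)
  have q12 := prod ha₁ ha₂ y₁ y₂ hW₁ hW₂
  have q13 := prod ha₁ ha₃ y₁ y₃ hW₁ hW₃
  have q23 := prod ha₂ ha₃ y₂ y₃ hW₂ hW₃
  have hX : 0 ≤ 3456 / W := by positivity
  have k1 : 2 * (r : ℝ) * (a₁ * (a₂ * a₃)) ≤ 2 * (24 * (3456 / W)) := by
    calc 2 * (r : ℝ) * (a₁ * (a₂ * a₃)) = 2 * (((r : ℝ) * a₁) * (a₂ * a₃)) := by ring
      _ ≤ 2 * (24 * (3456 / W)) := by gcongr
  calc 8 * (r : ℝ) ^ 2 * (2 * r * (a₁ * (a₂ * a₃)) + (a₂ * a₃ + a₁ * a₃ + a₁ * a₂))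
      ≤ 8 * (r : ℝ) ^ 2 * (2 * (24 * (3456 / W)) + (3456 / W + 3456 / W + 3456 / W)) := by gcongr
    _ = 1410048 * ((r : ℝ) ^ 2 / W) := by ring

/-- the deterministic inequality for block sorted radii -/
theorem block {T' : ℕ} (g : Fin (T' + 1) × Fin 3 → ℕ)
    (hg : ∀ s t : Fin (T' + 1), s < t → ∀ c c' : Fin 3, g (t, c) ≤ g (s, c')) :
    Rep (∑ i, D (g i) * ∏ j, if j = i then 1 else U (g j)) 1410054 := by
  classical
  set W : ℝ := ∑ i : Fin (T' + 1) × Fin 3, if i.1 = 0 then 0 else (g i : ℝ) ^ 2 with hWdef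
  have hW0 : 0 ≤ W := Finset.sum_nonneg fun i _ => by split_ifs <;> positivity
  have hgood : ∀ i : Fin (T' + 1) × Fin 3, Good (∏ j, if j = i then 1 else U (g j)) := by
    intro i
    refine good_prod _ _ (fun j _ => ?_)
    split_ifs
    · exact good_one
    · exact good_U _
  set b : Fin (T' + 1) × Fin 3 → ℝ := fun i => if i.1 = 0 then 2 else 1410048 * ((g i : ℝ) ^ 2 / W) with hb
  have key : ∀ i, Rep (D (g i) * ∏ j, if j = i then 1 else U (g j)) (b i) := by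
    intro i
    by_cases hi0 : i.1 = 0
    · simp only [hb, if_pos hi0]
      have := (rep_D (g i)).mul (hgood i).rep
      rwa [mul_one] at this
    · simp only [hb, if_neg hi0]
      rcases Nat.eq_zero_or_pos (g i) with hgi | hgi
      · rw [hgi, D_zero, zero_mul]
        exact Rep.zero.mono (by positivity)
      · have hgi' : (0 : ℝ) < (g i : ℝ) ^ 2 := by positivity
        have hWpos : 0 < W := by
          refine lt_of_lt_of_le hgi' ?_
          have := Finset.single_le_sum (f := fun i : Fin (T' + 1) × Fin 3 => if i.1 = 0 then (0 : ℝ) else (g i : ℝ) ^ 2)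
            (fun i _ => by split_ifs <;> positivity) (Finset.mem_univ i)
          simp only [if_neg hi0] at this
          exact this
        -- the three groups
        let P : Fin 3 → A := fun c => ∏ s : Fin (T' + 1), if (s, c) = i then 1 else U (g (s, c))
        let V : Fin 3 → ℝ := fun c => ∑ s : Fin (T' + 1), if (s, c) = i then 0 else (g (s, c) : ℝ) ^ 2
        have hP : ∀ c, Good (P c) := by
          intro c
          refine good_prod _ _ (fun s _ => ?_)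
          split_ifs
          · exact good_one
          · exact good_U _
        have hPV : ∀ c, V c / 3 ≤ m2 (P c) := by
          intro c
          have h1 : m2 (P c) = ∑ s : Fin (T' + 1), m2 (if (s, c) = i then 1 else U (g (s, c))) := by
            refine m2_prod _ _ (fun s _ => ?_)
            split_ifs
            · exact good_one
            · exact good_U _
          rw [h1, Finset.sum_div]
          refine Finset.sum_le_sum (fun s _ => ?_)
          split_ifs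
          · rw [m2_one]; simp
          · exact m2_U _
        have hV0 : ∀ c, (g i : ℝ) ^ 2 ≤ V c := by
          intro c
          have h1 : ((0 : Fin (T' + 1)), c) ≠ i := by
            intro h; apply hi0; rw [← h]
          have h2 := Finset.single_le_sum (f := fun s : Fin (T' + 1) => if (s, c) = i then (0 : ℝ) else (g (s, c) : ℝ) ^ 2)
            (fun s _ => by split_ifs <;> positivity) (Finset.mem_univ 0)
          simp only [if_neg h1] at h2
          refine le_trans ?_ h2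
          have h3 : g i ≤ g (0, c) := hg 0 i.1 (Fin.pos_iff_ne_zero.2 hi0) i.2 c
          gcongr
        have htot : ∀ c, ∑ s : Fin (T' + 1), (g (s, c) : ℝ) ^ 2 ≤ 2 * V c := by
          intro c
          have h1 : ∑ s : Fin (T' + 1), (g (s, c) : ℝ) ^ 2
              ≤ ∑ s : Fin (T' + 1), ((if (s, c) = i then (0 : ℝ) else (g (s, c) : ℝ) ^ 2) + (if s = i.1 then (g i : ℝ) ^ 2 else 0)) := by
            refine Finset.sum_le_sum (fun s _ => ?_)
            by_cases h : (s, c) = i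
            · have h2 : s = i.1 := by rw [← h]
              rw [if_pos h, if_pos h2, h, zero_add]
            · rw [if_neg h]
              have : (0 : ℝ) ≤ if s = i.1 then (g i : ℝ) ^ 2 else 0 := by split_ifs <;> positivity
              linarith
          rw [Finset.sum_add_distrib, Finset.sum_ite_eq' Finset.univ i.1] at h1
          simp only [Finset.mem_univ, if_true] at h1
          have := hV0 c
          change _ ≤ 2 * V c
          have h4 : V c = ∑ s : Fin (T' + 1), if (s, c) = i then (0 : ℝ) else (g (s, c) : ℝ) ^ 2 := rfl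
          rw [← h4] at h1
          linarith
        have hWle : ∀ c, W ≤ 6 * V c := by
          intro c
          have h1 : W = ∑ c' : Fin 3, ∑ s : Fin T', (g (s.succ, c') : ℝ) ^ 2 := by
            rw [hWdef, Fintype.sum_prod_type_right]
            refine Finset.sum_congr rfl (fun c' _ => ?_)
            rw [Fin.sum_univ_succ]
            simp [Fin.succ_ne_zero]
          have h2 : ∀ c' : Fin 3, ∑ s : Fin T', (g (s.succ, c') : ℝ) ^ 2 ≤ ∑ s : Fin (T' + 1), (g (s, c) : ℝ) ^ 2 := by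
            intro c'
            rw [Fin.sum_univ_castSucc (f := fun s : Fin (T' + 1) => (g (s, c) : ℝ) ^ 2)]
            have h3 : ∑ s : Fin T', (g (s.succ, c') : ℝ) ^ 2 ≤ ∑ s : Fin T', (g (s.castSucc, c) : ℝ) ^ 2 := by
              refine Finset.sum_le_sum (fun s _ => ?_)
              have := hg s.castSucc s.succ (Fin.castSucc_lt_succ) c' c
              gcongr
            have : (0 : ℝ) ≤ (g (Fin.last T', c) : ℝ) ^ 2 := by positivity
            linarith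
          have h3 := htot c
          rw [h1, Fin.sum_univ_three]
          linarith [h2 0, h2 1, h2 2]
        have hprod : (∏ j, if j = i then 1 else U (g j)) = P 0 * P 1 * P 2 := by
          rw [Fintype.prod_prod_type_right, Fin.prod_univ_three]
        rw [hprod]
        exact main_est (hP 0) (hP 1) (hP 2) (g i) (hPV 0) (hPV 1) (hPV 2) (hV0 0) (hWle 0) (hWle 1) (hWle 2) hWpos
  refine (Rep.sum Finset.univ _ b (fun i _ => key i)).mono ?_
  have h1 : ∀ i : Fin (T' + 1) × Fin 3, b i = (if i.1 = 0 then 2 else 0)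
      + 1410048 / W * (if i.1 = 0 then 0 else (g i : ℝ) ^ 2) := by
    intro i
    simp only [hb]
    split_ifs
    · ring
    · ring
  rw [Finset.sum_congr rfl (fun i _ => h1 i), Finset.sum_add_distrib, ← Finset.mul_sum, ← hWdef]
  have h2 : ∑ i : Fin (T' + 1) × Fin 3, (if i.1 = 0 then (2 : ℝ) else 0) = 6 := by
    rw [Fintype.sum_prod_type_right]
    simp
    norm_num
  rw [h2]
  have h3 : 1410048 / W * W ≤ 1410048 := by
    rcases hW0.eq_or_lt with h | h
    · rw [← h]; norm_num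
    · rw [div_mul_cancel₀ _ h.ne']
  linarith

end Pool.Agent.Q85.Ritt
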