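import Pool.Agent.Q85.Ritt3

set_option autoImplicit false
open Finset

namespace Pool.Agent.Q85.Ritt

/-- the deterministic inequality without sorting -/
theorem unsorted {T' : ℕ} (f : Fin (T' + 1) × Fin 3 → ℕ) :
    Rep (∑ i, D (f i) * ∏ j, if j = i then 1 else U (f j)) 1410054 := by
  classical
  let e : Fin (T' + 1) × Fin 3 ≃ Fin ((T' + 1) * 3) := finProdFinEquiv
  let f' : Fin ((T' + 1) * 3) → ℕᵒᵈ := fun k => OrderDual.toDual (f (e.symm k))
  let σ := Tuple.sort f'
  have hσ : Monotone (f' ∘ σ) := Tuple.monotone_sort f'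
  let τ : Fin (T' + 1) × Fin 3 ≃ Fin (T' + 1) × Fin 3 := e.trans (σ.trans e.symm)
  have hτ : ∀ s t : Fin (T' + 1), s < t → ∀ c c' : Fin 3, f (τ (t, c)) ≤ f (τ (s, c')) := by
    intro s t hst c c'
    have h1 : e (s, c') ≤ e (t, c) := by
      rw [Fin.le_def]
      simp only [e, finProdFinEquiv_apply_val]
      have h2 : (s : ℕ) < t := hst
      have := c'.2
      omega
    exact hσ h1
  have h := block (fun i => f (τ i)) hτ
  have h2 : ∑ i, D (f i) * ∏ j, (if j = i then 1 else U (f j))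
      = ∑ i, D (f (τ i)) * ∏ j, if j = i then 1 else U (f (τ j)) := by
    rw [← Equiv.sum_comp τ]
    refine Finset.sum_congr rfl (fun i _ => ?_)
    congr 1
    rw [← Equiv.prod_comp τ]
    refine Finset.prod_congr rfl (fun j _ => ?_)
    simp only [EmbeddingLike.apply_eq_iff_eq]
  rw [h2]
  exact h

variable {R : ℕ} {w : ℕ → ℝ}

/-- finite mixtures -/
noncomputable def mix (R : ℕ) (w : ℕ → ℝ) : A := ∑ s ∈ range R, w s • U s

theorem rep_mix (hw : ∀ s, 0 ≤ w s) (h1 : ∑ s ∈ range R, w s = 1) : Rep (mix R w) 1 := by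
  have h := Rep.sum (range R) (fun s => w s • U s) (fun s => |w s| * 1) (fun s _ => Rep.smul _ (Rep.base s))
  have h2 : ∑ s ∈ range R, |w s| * 1 = 1 := by
    refine Eq.trans ?_ h1
    exact Finset.sum_congr rfl (fun s _ => by rw [mul_one, abs_of_nonneg (hw s)])
  rw [h2] at h
  exact h

theorem one_sub_mix (h1 : ∑ s ∈ range R, w s = 1) : 1 - mix R w = ∑ s ∈ range R, w s • D s := by
  unfold mix D
  simp only [smul_sub]
  rw [Finset.sum_sub_distrib, ← Finset.sum_smul, h1, one_smul]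

theorem core1 (hw : ∀ s, 0 ≤ w s) (h1 : ∑ s ∈ range R, w s = 1) (T' : ℕ) :
    Rep (((3 * (T' + 1) : ℕ) : ℝ) • (mix R w ^ (3 * T' + 2) * (1 - mix R w))) 1410054 := by
  classical
  set μ := mix R w with hμ
  have hcard : Fintype.card (Fin (T' + 1) × Fin 3) = 3 * (T' + 1) := by
    rw [Fintype.card_prod, Fintype.card_fin, Fintype.card_fin]; ring
  have hexp : ∀ i : Fin (T' + 1) × Fin 3, μ ^ (3 * T' + 2) * (1 - μ)
      = ∑ x ∈ Fintype.piFinset (fun _ : Fin (T' + 1) × Fin 3 => range R),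
        (∏ j, w (x j)) • (D (x i) * ∏ j, if j = i then 1 else U (x j)) := by
    intro i
    have e1 : μ ^ (3 * T' + 2) * (1 - μ) = ∏ j : Fin (T' + 1) × Fin 3, if j = i then (1 - μ) else μ := by
      rw [← Finset.mul_prod_erase Finset.univ _ (Finset.mem_univ i), if_pos rfl, mul_comm]
      congr 1
      rw [Finset.prod_congr rfl (fun j hj => if_neg (Finset.ne_of_mem_erase hj)), Finset.prod_const,
        Finset.card_erase_of_mem (Finset.mem_univ i), Finset.card_univ, hcard]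
      congr 1
    have e2 : ∀ j : Fin (T' + 1) × Fin 3, (if j = i then (1 - μ) else μ)
        = ∑ s ∈ range R, w s • (if j = i then D s else U s) := by
      intro j
      split_ifs
      · exact one_sub_mix h1
      · rfl
    rw [e1, Finset.prod_congr rfl (fun j _ => e2 j), Finset.prod_univ_sum]
    refine Finset.sum_congr rfl (fun x _ => ?_)
    rw [Finset.prod_smul]
    congr 1
    rw [← Finset.mul_prod_erase Finset.univ _ (Finset.mem_univ i), if_pos rfl]
    congr 1
    rw [← Finset.mul_prod_erase Finset.univ (fun j => if j = i then (1 : A) else U (x j)) (Finset.mem_univ i),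
      if_pos rfl, one_mul]
    refine Finset.prod_congr rfl (fun j hj => ?_)
    rw [if_neg (Finset.ne_of_mem_erase hj), if_neg (Finset.ne_of_mem_erase hj)]
  have hsum : (((3 * (T' + 1) : ℕ) : ℝ) • (μ ^ (3 * T' + 2) * (1 - μ)))
      = ∑ x ∈ Fintype.piFinset (fun _ : Fin (T' + 1) × Fin 3 => range R),
        (∏ j, w (x j)) • ∑ i, (D (x i) * ∏ j, if j = i then 1 else U (x j)) := by
    have e1 : (((3 * (T' + 1) : ℕ) : ℝ) • (μ ^ (3 * T' + 2) * (1 - μ)))
        = ∑ i : Fin (T' + 1) × Fin 3, μ ^ (3 * T' + 2) * (1 - μ) := by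
      rw [Finset.sum_const, Finset.card_univ, hcard, Nat.cast_smul_eq_nsmul]
    rw [e1, Finset.sum_congr rfl (fun i _ => hexp i), Finset.sum_comm]
    refine Finset.sum_congr rfl (fun x _ => ?_)
    rw [Finset.smul_sum]
  rw [hsum]
  have h2 := Rep.sum (Fintype.piFinset (fun _ : Fin (T' + 1) × Fin 3 => range R))
    (fun x => (∏ j, w (x j)) • ∑ i, (D (x i) * ∏ j, if j = i then 1 else U (x j)))
    (fun x => |∏ j, w (x j)| * 1410054) (fun x _ => Rep.smul _ (unsorted x))
  refine h2.mono (le_of_eq ?_)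
  rw [← Finset.sum_mul]
  have h3 : ∑ x ∈ Fintype.piFinset (fun _ : Fin (T' + 1) × Fin 3 => range R), |∏ j, w (x j)| = 1 := by
    have h4 : ∑ x ∈ Fintype.piFinset (fun _ : Fin (T' + 1) × Fin 3 => range R), |∏ j, w (x j)|
        = ∑ x ∈ Fintype.piFinset (fun _ : Fin (T' + 1) × Fin 3 => range R), ∏ j, w (x j) :=
      Finset.sum_congr rfl (fun x _ => abs_of_nonneg (Finset.prod_nonneg fun j _ => hw _))
    rw [h4, ← Finset.prod_univ_sum]
    simp [h1]
  rw [h3, one_mul]

theorem core2 (hw : ∀ s, 0 ≤ w s) (h1 : ∑ s ∈ range R, w s = 1) (n : ℕ) :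
    Rep (((n : ℝ) + 1) • (mix R w ^ n * (1 - mix R w))) 2820108 := by
  set μ := mix R w with hμ
  have hμ1 : Rep μ 1 := rep_mix hw h1
  have hpow : ∀ k, Rep (μ ^ k) 1 := by
    intro k
    have := hμ1.pow k
    rwa [one_pow] at this
  have hD : Rep (1 - μ) 2 := by
    have := Rep.sub (Rep.base 0) hμ1
    rw [U_zero] at this
    exact this.mono (by norm_num)
  rcases Nat.lt_or_ge n 2 with hn | hn
  · refine (Rep.smul ((n : ℝ) + 1) ((hpow n).mul hD)).mono ?_
    have : (n : ℝ) ≤ 1 := by exact_mod_cast (by omega : n ≤ 1)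
    rw [abs_of_nonneg (by positivity)]
    linarith
  · obtain ⟨T', k, hk, hk2⟩ : ∃ T' k : ℕ, n = (3 * T' + 2) + k ∧ k ≤ 2 := by
      refine ⟨(n + 1) / 3 - 1, (n + 1) % 3, ?_, ?_⟩
      · omega
      · omega
    have h2 := (core1 hw h1 T').mul (hpow k)
    have h3 := Rep.smul (((n : ℝ) + 1) / ((3 * (T' + 1) : ℕ) : ℝ)) h2
    have hN : ((3 * (T' + 1) : ℕ) : ℝ) ≠ 0 := by positivity
    have e1 : (((n : ℝ) + 1) / ((3 * (T' + 1) : ℕ) : ℝ)) • ((((3 * (T' + 1) : ℕ) : ℝ) • (μ ^ (3 * T' + 2) * (1 - μ))) * μ ^ k)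
        = ((n : ℝ) + 1) • (μ ^ n * (1 - μ)) := by
      rw [smul_mul_assoc, smul_smul, div_mul_cancel₀ _ hN, hk, pow_add]
      congr 1; ring
    rw [e1] at h3
    refine h3.mono ?_
    have h4 : ((n : ℝ) + 1) / ((3 * (T' + 1) : ℕ) : ℝ) ≤ 2 := by
      rw [div_le_iff₀ (by positivity)]
      have : n + 1 ≤ 2 * (3 * (T' + 1)) := by omega
      exact_mod_cast this
    rw [abs_of_nonneg (by positivity), mul_one]
    linarith

/-- all orders -/
theorem core (hw : ∀ s, 0 ≤ w s) (h1 : ∑ s ∈ range R, w s = 1) (m n : ℕ) :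
    Rep (((n : ℝ) ^ m) • (mix R w ^ n * (1 - mix R w) ^ m)) ((m : ℝ) ^ m * 2820108 ^ m) := by
  set μ := mix R w with hμ
  have hμ1 : Rep μ 1 := rep_mix hw h1
  have hpow : ∀ k, Rep (μ ^ k) 1 := by
    intro k
    have := hμ1.pow k
    rwa [one_pow] at this
  rcases Nat.eq_zero_or_pos m with rfl | hm
  · simp only [pow_zero, mul_one, one_smul]
    exact hpow n
  · set q := n / m with hq
    set s := n % m with hs
    have hn : n = q * m + s := (Nat.div_add_mod' n m).symm
    have hsm : s < m := Nat.mod_lt _ hm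
    have h2 := ((core2 hw h1 q).pow m).mul (hpow s)
    rw [mul_one] at h2
    have hq0 : (((q : ℝ) + 1) ^ m) ≠ 0 := by positivity
    have h3 := Rep.smul ((n : ℝ) ^ m / ((q : ℝ) + 1) ^ m) h2
    have e1 : ((n : ℝ) ^ m / ((q : ℝ) + 1) ^ m) • ((((q : ℝ) + 1) • (μ ^ q * (1 - μ))) ^ m * μ ^ s)
        = ((n : ℝ) ^ m) • (μ ^ n * (1 - μ) ^ m) := by
      rw [smul_pow, smul_mul_assoc, smul_smul, div_mul_cancel₀ _ hq0]
      congr 1
      conv_rhs => rw [hn, pow_add, pow_mul]
      rw [mul_pow]; ring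
    rw [e1] at h3
    refine h3.mono ?_
    rw [abs_of_nonneg (by positivity)]
    gcongr
    rw [div_le_iff₀ (by positivity), ← mul_pow]
    gcongr
    have : n ≤ m * (q + 1) := by nlinarith
    exact_mod_cast this

end Pool.Agent.Q85.Ritt
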